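import Mathlib

/-!
A uniform version of the Dunford-Pettis property (`DP`), its invariance under isomorphisms and its
stability under `ℓ¹`-sums.
-/

set_option autoImplicit false

open Filter Topology Finset

namespace Pool.Agent.P.MP_ce7f50_an

variable {Y : Type*} [NormedAddCommGroup Y] [NormedSpace ℝ Y]

/-- Signed sums of `m` members of the sequence are `o(m)`, uniformly. -/
def Sublin (x : ℕ → Y) : Prop :=
  ∀ δ : ℝ, 0 < δ → ∃ m : ℕ, 1 ≤ m ∧ ∀ S : Finset ℕ, S.card = m → ∀ ε : ℕ → ℝ, (∀ k, |ε k| ≤ 1) →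
    ‖∑ k ∈ S, ε k • x k‖ ≤ δ * m

variable (Y) in
/-- A weak form of the Dunford-Pettis property. -/
def DP : Prop :=
  ∀ (x : ℕ → Y) (φ : ℕ → StrongDual ℝ Y), Sublin x → Sublin φ → ∀ c : ℝ, 0 < c →
    ∀ᶠ k in atTop, φ k (x k) < c

theorem Sublin.map {Z : Type*} [NormedAddCommGroup Z] [NormedSpace ℝ Z] {x : ℕ → Y}
    (hx : Sublin x) (T : Y →L[ℝ] Z) : Sublin fun k => T (x k) := by
  intro δ hδ
  obtain ⟨m, hm, h⟩ := hx (δ / (‖T‖ + 1)) (by positivity)
  refine ⟨m, hm, fun S hS ε hε => ?_⟩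
  have h1 : ∑ k ∈ S, ε k • T (x k) = T (∑ k ∈ S, ε k • x k) := by simp [map_sum]
  rw [h1]
  calc ‖T (∑ k ∈ S, ε k • x k)‖ ≤ ‖T‖ * ‖∑ k ∈ S, ε k • x k‖ := T.le_opNorm _
    _ ≤ (‖T‖ + 1) * (δ / (‖T‖ + 1) * m) := by
      gcongr
      · linarith
      · exact h S hS ε hε
    _ = δ * m := by field_simp

theorem Sublin.comp {Z : Type*} [NormedAddCommGroup Z] [NormedSpace ℝ Z]
    {φ : ℕ → StrongDual ℝ Y} (hφ : Sublin φ) (T : Z →L[ℝ] Y) :
    Sublin (Y := StrongDual ℝ Z) fun k => (φ k).comp T :=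
  hφ.map ((ContinuousLinearMap.compL ℝ Z Y ℝ).flip T)

theorem Sublin.bdd {x : ℕ → Y} (hx : Sublin x) : ∃ C : ℝ, 1 ≤ C ∧ ∀ k, ‖x k‖ ≤ C := by
  classical
  obtain ⟨m, hm, h⟩ := hx 1 one_pos
  refine ⟨m, by exact_mod_cast hm, fun k => ?_⟩
  obtain ⟨S, hS1, hS2⟩ := Infinite.exists_superset_card_eq ({k} : Finset ℕ) m (by simpa using hm)
  have := h S hS2 (fun j => if j = k then 1 else 0) (fun j => by split_ifs <;> simp)
  simpa [ite_smul, Finset.sum_ite_eq', hS1 (Finset.mem_singleton_self k)] using this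

/-- Bounded overlap: few members of a `Sublin` sequence of functionals are large at a vector. -/
theorem Sublin.overlap {φ : ℕ → StrongDual ℝ Y} (hφ : Sublin φ) {η M : ℝ} (hη : 0 < η)
    (hM : 0 < M) : ∃ m : ℕ, ∀ y : Y, ‖y‖ ≤ M → ∀ T : Finset ℕ, (∀ k ∈ T, η < |φ k y|) →
      T.card ≤ m := by
  obtain ⟨m, hm, h⟩ := hφ (η / M) (by positivity)
  refine ⟨m, fun y hy T hT => ?_⟩
  by_contra hlt
  obtain ⟨S, hST, hS⟩ := Finset.exists_subset_card_eq (not_le.1 hlt).le
  have h1 := h S hS (fun k => SignType.sign (φ k y)) (fun k => by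
    rcases lt_trichotomy (φ k y) 0 with h | h | h <;> simp [h])
  have h2 : (∑ k ∈ S, ((SignType.sign (φ k y) : SignType) : ℝ) • φ k) y = ∑ k ∈ S, |φ k y| := by
    simp [sign_mul_self]
  have h3 : ∑ _k ∈ S, η < ∑ k ∈ S, |φ k y| :=
    Finset.sum_lt_sum_of_nonempty (Finset.card_pos.1 (by omega)) fun k hk => hT k (hST hk)
  have h4 : (∑ k ∈ S, ((SignType.sign (φ k y) : SignType) : ℝ) • φ k) y ≤ η / M * m * M :=
    (le_abs_self _).trans <| (ContinuousLinearMap.le_opNorm _ _).trans <|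
      mul_le_mul h1 hy (norm_nonneg _) (by positivity)
  rw [h2] at h4
  simp only [Finset.sum_const, hS, nsmul_eq_mul] at h3
  have h5 : η / M * m * M = m * η := by field_simp
  linarith

theorem Sublin.tendsto_apply {φ : ℕ → StrongDual ℝ Y} (hφ : Sublin φ) (y : Y) {η : ℝ}
    (hη : 0 < η) : ∀ᶠ k in atTop, |φ k y| ≤ η := by
  obtain ⟨m, hm⟩ := hφ.overlap hη (M := ‖y‖ + 1) (by positivity)
  rw [← Nat.cofinite_eq_atTop, Filter.eventually_cofinite]
  by_contra hinf
  obtain ⟨T, hT1, hT2⟩ := Set.Infinite.exists_subset_card_eq hinf (m + 1)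
  have := hm y (by linarith) T fun k hk => not_le.1 (hT1 hk)
  omega

/-- A functional `G` witnesses that a signed sum over `S` is large. -/
def Wit (x : ℕ → Y) (c : ℝ) (S : Finset ℕ) (G : StrongDual ℝ Y) : Prop :=
  ∃ ε : ℕ → ℝ, (∀ k, |ε k| ≤ 1) ∧ S.card * c ≤ G (∑ k ∈ S, ε k • x k)

theorem wit_empty (x : ℕ → Y) (c : ℝ) (G : StrongDual ℝ Y) : Wit x c ∅ G :=
  ⟨fun _ => 0, by simp, by simp⟩

theorem Wit.insert {x : ℕ → Y} {c : ℝ} {S : Finset ℕ} {G ψ : StrongDual ℝ Y} {k : ℕ}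
    (h : Wit x c S G) (hk : k ∉ S) (hψ : c ≤ ψ (x k)) :
    ∃ s : ℝ, |s| = 1 ∧ Wit x c (insert k S) (G + s • ψ) := by
  obtain ⟨ε, hε, hG⟩ := h
  have key : ∀ s : ℝ, |s| = 1 → 0 ≤ s * (G (x k) + ψ (∑ j ∈ S, ε j • x j)) →
      Wit x c (Insert.insert k S) (G + s • ψ) := by
    intro s hs h0
    refine ⟨Function.update ε k s, fun j => ?_, ?_⟩
    · by_cases hj : j = k
      · subst hj; simp [hs]
      · simp [Function.update_of_ne hj, hε j]
    · have h1 : ∑ j ∈ S, Function.update ε k s j • x j = ∑ j ∈ S, ε j • x j :=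
        Finset.sum_congr rfl fun j hj => by
          rw [Function.update_of_ne (by rintro rfl; exact hk hj)]
      rw [Finset.sum_insert hk, Finset.card_insert_of_notMem hk, h1, Function.update_self]
      have hss : s * s = 1 := by rw [← abs_mul_abs_self, hs, one_mul]
      simp only [_root_.add_apply, _root_.smul_apply, map_add, map_smul,
        smul_eq_mul]
      push_cast
      have : s * (s * ψ (x k)) = ψ (x k) := by rw [← mul_assoc, hss, one_mul]
      nlinarith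
  rcases le_total 0 (G (x k) + ψ (∑ j ∈ S, ε j • x j)) with h0 | h0
  · exact ⟨1, by simp, key 1 (by simp) (by linarith)⟩
  · exact ⟨-1, by simp, key (-1) (by simp) (by linarith)⟩

theorem Sublin.not_wit {x : ℕ → Y} (hx : Sublin x) {c A : ℝ} (hc : 0 < c) (hA : 0 < A) :
    ∃ m : ℕ, 1 ≤ m ∧ ∀ (S : Finset ℕ) (G : StrongDual ℝ Y), S.card = m → ‖G‖ ≤ A →
      ¬ Wit x c S G := by
  obtain ⟨m, hm, h⟩ := hx (c / (2 * A)) (by positivity)
  refine ⟨m, hm, fun S G hS hG ⟨ε, hε, hw⟩ => ?_⟩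
  have h1 : G (∑ k ∈ S, ε k • x k) ≤ A * (c / (2 * A) * m) :=
    (le_abs_self _).trans <| (G.le_opNorm _).trans <|
      mul_le_mul hG (h S hS ε hε) (norm_nonneg _) hA.le
  have h2 : A * (c / (2 * A) * m) = m * c / 2 := by field_simp
  have h3 : (1 : ℝ) ≤ m := by exact_mod_cast hm
  rw [hS] at hw
  nlinarith

theorem DP.of_factor {Z : Type*} [NormedAddCommGroup Z] [NormedSpace ℝ Z] (h : DP Z)
    (A : Y →L[ℝ] Z) (B : Z →L[ℝ] Y) (hAB : ∀ y, B (A y) = y) : DP Y := by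
  intro x φ hx hφ c hc
  have := h (fun k => A (x k)) (fun k => (φ k).comp B) (hx.map A) (hφ.comp B) c hc
  simpa [hAB] using this

theorem DP.lp_one {F : ℕ → Type*} [∀ n, NormedAddCommGroup (F n)] [∀ n, NormedSpace ℝ (F n)]
    (h : ∀ n, DP (F n)) : DP (lp F 1) := by
  classical
  intro x φ hx hφ c hc
  by_contra hcon
  rw [Filter.not_eventually] at hcon
  simp only [not_lt] at hcon
  obtain ⟨C, hC1, hC⟩ := hφ.bdd
  obtain ⟨m, hm1, hm⟩ := hx.not_wit (c := c / 2) (A := C) (by positivity) (by linarith)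
  let P : ℕ → ℕ → StrongDual ℝ (lp F 1) := fun k n =>
    ((φ k).comp (lp.singleContinuousLinearMap ℝ F 1 n)).comp (lp.evalCLM ℝ F 1 n)
  have hP : ∀ k n y, P k n y = φ k (lp.single 1 n (y n)) := fun k n y => rfl
  have hPle : ∀ k n y, |P k n y| ≤ C * ‖y n‖ := by
    intro k n y
    rw [hP]
    refine ((φ k).le_opNorm _).trans ?_
    rw [lp.norm_single one_pos]
    exact mul_le_mul_of_nonneg_right (hC k) (norm_nonneg _)
  have hhead : ∀ N : ℕ, ∀ᶠ k in atTop, ∑ n ∈ range N, P k n (x k) ≤ c / 4 := by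
    intro N
    have : ∀ᶠ k in atTop, ∀ n ∈ range N, P k n (x k) < c / (4 * (N + 1)) := by
      rw [Filter.eventually_all_finset]
      intro n _
      exact h n (fun k => lp.evalCLM ℝ F 1 n (x k))
        (fun k => (φ k).comp (lp.singleContinuousLinearMap ℝ F 1 n)) (hx.map _) (hφ.comp _) _
        (by positivity)
    filter_upwards [this] with k hk
    calc ∑ n ∈ range N, P k n (x k) ≤ ∑ _n ∈ range N, c / (4 * (N + 1)) :=
          Finset.sum_le_sum fun n hn => (hk n hn).le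
      _ = N * (c / (4 * (N + 1))) := by simp
      _ ≤ (N + 1) * (c / (4 * (N + 1))) := by gcongr; linarith
      _ = c / 4 := by field_simp
  have htail : ∀ k, Tendsto (fun N => ∑ n ∈ range N, P k n (x k)) atTop (𝓝 (φ k (x k))) := by
    intro k
    exact ((lp.hasSum_single (by simp) (x k)).mapL (φ k)).tendsto_sum_nat
  have hind : ∀ j : ℕ, ∃ (S : Finset ℕ) (G : StrongDual ℝ (lp F 1)) (N : ℕ), S.card = j ∧
      (∀ y, |G y| ≤ C * ∑ n ∈ range N, ‖y n‖) ∧ Wit x (c / 2) S G := by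
    intro j
    induction j with
    | zero => exact ⟨∅, 0, 0, rfl, by simp, wit_empty _ _ _⟩
    | succ j ih =>
      obtain ⟨S, G, N, hS, hG, hW⟩ := ih
      have hS' : ∀ᶠ k in atTop, k ∉ S := by
        rw [← Nat.cofinite_eq_atTop]; exact S.eventually_cofinite_notMem
      obtain ⟨k, hk1, hk2, hk3⟩ := (hcon.and_eventually ((hhead N).and hS')).exists
      obtain ⟨N', hN1, hN2⟩ := (((htail k).eventually (lt_mem_nhds
        (show 3 * c / 4 < φ k (x k) by linarith))).and (eventually_ge_atTop N)).exists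
      have hψ : c / 2 ≤ (∑ n ∈ Ico N N', P k n) (x k) := by
        rw [_root_.sum_apply, Finset.sum_Ico_eq_sub _ hN2]
        linarith
      obtain ⟨s, hs, hW'⟩ := hW.insert hk3 hψ
      refine ⟨insert k S, _, N', by rw [Finset.card_insert_of_notMem hk3, hS], fun y => ?_, hW'⟩
      rw [_root_.add_apply, _root_.smul_apply, smul_eq_mul,
        ← Finset.sum_range_add_sum_Ico _ hN2, mul_add, _root_.sum_apply]
      refine (abs_add_le _ _).trans (add_le_add (hG y) ?_)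
      rw [abs_mul, hs, one_mul, Finset.mul_sum]
      exact (Finset.abs_sum_le_sum_abs _ _).trans (Finset.sum_le_sum fun n _ => hPle k n y)
  obtain ⟨S, G, N, hS, hG, hW⟩ := hind m
  refine hm S G hS (G.opNorm_le_bound (by linarith) fun y => (hG y).trans ?_) hW
  gcongr
  simpa using lp.sum_rpow_le_norm_rpow (p := 1) (by simp) y (range N)

end Pool.Agent.P.MP_ce7f50_an
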