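import Mathlib

/-!
The Godefroy-Kalton lifting, in the form needed here: for a `1`-Lipschitz map `δ : X → Y` into a
Banach space and vectors `w k` of `X` with `‖w k‖ ≤ 2⁻ᵏ`, there are `y k` in `Y` with
`‖∑ a k • y k‖ ≤ ‖∑ a k • w k‖` and `φ (y k) = ℓ (w k)` whenever `φ ∘ δ = ℓ` is linear.
-/

set_option autoImplicit false

open Filter Topology MeasureTheory

namespace Pool.Agent.P.MP_ce7f50_an

variable {X Y : Type*} [NormedAddCommGroup X] [NormedSpace ℝ X]
  [NormedAddCommGroup Y] [NormedSpace ℝ Y] [CompleteSpace Y]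

/-- Lipschitz condition with a real constant. -/
def Lip (L : ℝ) (u : X → Y) : Prop := ∀ s t, ‖u s - u t‖ ≤ L * ‖s - t‖

omit [NormedSpace ℝ X] [NormedSpace ℝ Y] [CompleteSpace Y] in
theorem Lip.continuous {L : ℝ} {u : X → Y} (h : Lip L u) : Continuous u := by
  have : LipschitzWith (Real.toNNReal L) u := LipschitzWith.of_dist_le_mul fun s t => by
    rw [dist_eq_norm, dist_eq_norm]
    exact (h s t).trans (mul_le_mul_of_nonneg_right (Real.le_coe_toNNReal L) (norm_nonneg _))
  exact this.continuous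

/-- Average along the segment `[t, t + w]`. -/
noncomputable def avg (w : X) (u : X → Y) : X → Y := fun t => ∫ s in (0 : ℝ)..1, u (t + s • w)

omit [NormedSpace ℝ Y] [CompleteSpace Y] in
theorem Lip.intervalIntegrable {L : ℝ} {u : X → Y} (h : Lip L u) (t w : X) (a b : ℝ) :
    IntervalIntegrable (fun s : ℝ => u (t + s • w)) volume a b :=
  (h.continuous.comp (by fun_prop)).intervalIntegrable a b

omit [CompleteSpace Y] in
theorem norm_integral_le {f : ℝ → Y} {C : ℝ} (h : ∀ s, 0 ≤ s → s ≤ 1 → ‖f s‖ ≤ C) :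
    ‖∫ s in (0 : ℝ)..1, f s‖ ≤ C := by
  have := intervalIntegral.norm_integral_le_of_norm_le_const (a := 0) (b := 1) (f := f) (C := C)
    (fun s hs => by
      rw [Set.uIoc_of_le zero_le_one] at hs
      exact h s hs.1.le hs.2)
  simpa using this

omit [CompleteSpace Y] in
theorem Lip.avg {L : ℝ} {u : X → Y} (h : Lip L u) (w : X) : Lip L (avg w u) := by
  intro s t
  unfold MP_ce7f50_an.avg
  rw [← intervalIntegral.integral_sub (h.intervalIntegrable _ _ _ _) (h.intervalIntegrable _ _ _ _)]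
  refine norm_integral_le fun r _ _ => ?_
  simpa using h (s + r • w) (t + r • w)

theorem Lip.norm_avg_sub {L : ℝ} (hL : 0 ≤ L) {u : X → Y} (h : Lip L u) (w t : X) :
    ‖MP_ce7f50_an.avg w u t - u t‖ ≤ L * ‖w‖ := by
  have h1 : u t = ∫ _s in (0 : ℝ)..1, u t := by simp
  unfold MP_ce7f50_an.avg
  rw [h1, ← intervalIntegral.integral_sub (h.intervalIntegrable _ _ _ _) intervalIntegrable_const]
  refine norm_integral_le fun r h0 h1 => (h _ _).trans ?_
  rw [add_sub_cancel_left, norm_smul, Real.norm_of_nonneg h0]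
  gcongr
  exact mul_le_of_le_one_left (norm_nonneg _) h1

/-- `V` is a derivative of `U` in the direction `w`, with quadratic error. -/
def Sm (w : X) (U V : X → Y) : Prop :=
  ∀ (t : X) (h : ℝ), ‖U (t + h • w) - U t - h • V t‖ ≤ 2 * h ^ 2

omit [CompleteSpace Y] in
theorem Sm.avg {w : X} {U V : X → Y} (h : Sm w U V) (hU : Lip 1 U) (hV : Lip 2 V) (w' : X) :
    Sm w (avg w' U) (avg w' V) := by
  intro t r
  unfold MP_ce7f50_an.avg
  rw [← intervalIntegral.integral_smul,
    ← intervalIntegral.integral_sub (hU.intervalIntegrable _ _ _ _) (hU.intervalIntegrable _ _ _ _),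
    ← intervalIntegral.integral_sub
      ((hU.intervalIntegrable _ _ _ _).sub (hU.intervalIntegrable _ _ _ _))
      (g := fun s : ℝ => r • V (t + s • w')) ((hV.intervalIntegrable _ _ _ _).smul r)]
  refine norm_integral_le fun s _ _ => ?_
  have := h (t + s • w') r
  rwa [add_right_comm] at this

omit [NormedSpace ℝ X] [NormedSpace ℝ Y] [CompleteSpace Y] in
theorem Lip.diff {u : X → Y} (h : Lip 1 u) (w : X) : Lip 2 fun t => u (t + w) - u t := by
  intro s t
  have h1 := h (s + w) (t + w)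
  have h2 := h s t
  rw [add_sub_add_right_eq_sub] at h1
  calc ‖u (s + w) - u s - (u (t + w) - u t)‖ = ‖(u (s + w) - u (t + w)) - (u s - u t)‖ := by
        congr 1; abel
    _ ≤ ‖u (s + w) - u (t + w)‖ + ‖u s - u t‖ := norm_sub_le _ _
    _ ≤ 2 * ‖s - t‖ := by linarith

theorem Lip.sm_avg {u : X → Y} (h : Lip 1 u) {w : X} (hw : ‖w‖ ≤ 1) :
    Sm w (MP_ce7f50_an.avg w u) fun t => u (t + w) - u t := by
  intro t r
  have hg : ∀ a b, IntervalIntegrable (fun s : ℝ => u (t + s • w)) volume a b :=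
    h.intervalIntegrable t w
  have h1 : MP_ce7f50_an.avg w u (t + r • w) = ∫ s in r..(1 + r), u (t + s • w) := by
    unfold MP_ce7f50_an.avg
    have := intervalIntegral.integral_comp_add_right (a := 0) (b := 1)
      (fun s : ℝ => u (t + s • w)) r
    rw [zero_add] at this
    rw [← this]
    congr 1; funext s; congr 1; rw [add_smul]; abel
  have h2 : ∫ s in (1 : ℝ)..(1 + r), u (t + s • w) = ∫ s in (0 : ℝ)..r, u (t + s • w + w) := by
    have := intervalIntegral.integral_comp_add_right (a := 0) (b := r)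
      (fun s : ℝ => u (t + s • w)) 1
    rw [zero_add, add_comm r 1] at this
    rw [← this]
    congr 1; funext s; congr 1; rw [add_smul, one_smul]; abel
  have h3 := intervalIntegral.integral_add_adjacent_intervals (hg r 1) (hg 1 (1 + r))
  have h4 := intervalIntegral.integral_add_adjacent_intervals (hg 0 r) (hg r 1)
  have hg' : IntervalIntegrable (fun s : ℝ => u (t + s • w + w)) volume 0 r :=
    (h.continuous.comp (by fun_prop)).intervalIntegrable 0 r
  have h5 : MP_ce7f50_an.avg w u (t + r • w) - MP_ce7f50_an.avg w u t - r • (u (t + w) - u t) =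
      ∫ s in (0 : ℝ)..r, ((u (t + s • w + w) - u (t + s • w)) - (u (t + w) - u t)) := by
    rw [intervalIntegral.integral_sub (hg'.sub (hg 0 r)) intervalIntegrable_const,
      intervalIntegral.integral_sub hg' (hg 0 r), h1, ← h3, h2]
    unfold MP_ce7f50_an.avg
    rw [← h4, intervalIntegral.integral_const, sub_zero]
    abel
  rw [h5]
  have h6 := intervalIntegral.norm_integral_le_of_norm_le_const (a := 0) (b := r)
    (f := fun s : ℝ => (u (t + s • w + w) - u (t + s • w)) - (u (t + w) - u t)) (C := 2 * |r|)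
    (fun s hs => by
      refine (h.diff w _ _).trans ?_
      rw [add_sub_cancel_left, norm_smul, Real.norm_eq_abs]
      have h7 : |s| ≤ |r| := by
        have := Set.abs_sub_left_of_mem_uIcc (Set.uIoc_subset_uIcc hs)
        simpa using this
      have h8 : |s| * ‖w‖ ≤ |s| := mul_le_of_le_one_right (abs_nonneg _) hw
      linarith)
  rw [sub_zero, mul_assoc, abs_mul_abs_self, ← sq] at h6
  exact h6

/-- Iterated averages of `δ`. -/
noncomputable def UU (δ : X → Y) (w : ℕ → X) : ℕ → X → Y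
  | 0 => δ
  | N + 1 => avg (w N) (UU δ w N)

/-- Directional derivatives of the iterated averages. -/
noncomputable def VV (δ : X → Y) (w : ℕ → X) (k : ℕ) : ℕ → X → Y
  | 0 => 0
  | N + 1 => if N = k then fun t => UU δ w k (t + w k) - UU δ w k t else avg (w N) (VV δ w k N)

omit [CompleteSpace Y] in
theorem lip_UU {δ : X → Y} (hδ : Lip 1 δ) (w : ℕ → X) : ∀ N, Lip 1 (UU δ w N)
  | 0 => hδ
  | N + 1 => (lip_UU hδ w N).avg _

theorem sm_VV {δ : X → Y} (hδ : Lip 1 δ) {w : ℕ → X} {k : ℕ} (hw : ‖w k‖ ≤ 1) {N : ℕ}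
    (hN : k + 1 ≤ N) : Lip 2 (VV δ w k N) ∧ Sm (w k) (UU δ w N) (VV δ w k N) := by
  induction N, hN using Nat.le_induction with
  | base =>
    simp only [VV, UU, if_true]
    exact ⟨(lip_UU hδ w k).diff _, (lip_UU hδ w k).sm_avg hw⟩
  | succ N hN ih =>
    simp only [VV, UU, if_neg (show N ≠ k by omega)]
    exact ⟨ih.1.avg _, ih.2.avg (lip_UU hδ w N) ih.1 _⟩

theorem le_of_forall_le_add_mul {a b K : ℝ} (h : ∀ r : ℝ, 0 < r → r * a ≤ r * b + K * r ^ 2) :
    a ≤ b := by
  refine le_of_forall_pos_le_add fun ε hε => ?_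
  have h1 := h (ε / (|K| + 1)) (by positivity)
  set r := ε / (|K| + 1) with hr
  have hr0 : 0 < r := by positivity
  have h2 : a ≤ b + K * r := by
    refine le_of_mul_le_mul_left ?_ hr0
    nlinarith
  have h3 : K * r ≤ ε := by
    calc K * r ≤ (|K| + 1) * r := by gcongr; linarith [le_abs_self K]
      _ = ε := by rw [hr]; field_simp
  linarith

omit [CompleteSpace Y] in
theorem norm_sum_le_of_sm {U : X → Y} (hU : Lip 1 U) {V : ℕ → X → Y} {w : ℕ → X} (S : Finset ℕ)
    (h : ∀ k ∈ S, Lip 2 (V k) ∧ Sm (w k) U (V k)) (a : ℕ → ℝ) :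
    ‖∑ k ∈ S, a k • V k 0‖ ≤ ‖∑ k ∈ S, a k • w k‖ := by
  classical
  have key : ∃ K : ℝ, ∀ r : ℝ, 0 < r →
      ‖U (r • ∑ k ∈ S, a k • w k) - U 0 - r • ∑ k ∈ S, a k • V k 0‖ ≤ K * r ^ 2 := by
    induction S using Finset.induction_on with
    | empty => exact ⟨0, by simp⟩
    | insert k S hk ih =>
      obtain ⟨K, hK⟩ := ih fun j hj => h j (Finset.mem_insert_of_mem hj)
      obtain ⟨hV, hS⟩ := h k (Finset.mem_insert_self _ _)
      refine ⟨K + 2 * a k ^ 2 + 2 * |a k| * ‖∑ j ∈ S, a j • w j‖, fun r hr => ?_⟩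
      rw [Finset.sum_insert hk, Finset.sum_insert hk]
      set t := r • ∑ j ∈ S, a j • w j with ht
      have h1 := hS t (r * a k)
      have h2 := hV t 0
      have h3 := hK r hr
      have h4 : U (r • (a k • w k + ∑ j ∈ S, a j • w j)) - U 0 -
          r • (a k • V k 0 + ∑ j ∈ S, a j • V j 0) =
          (U (t + (r * a k) • w k) - U t - (r * a k) • V k t) + (r * a k) • (V k t - V k 0) +
          (U t - U 0 - r • ∑ j ∈ S, a j • V j 0) := by
        rw [smul_add, smul_add, smul_smul, smul_smul, ← ht, add_comm _ t, smul_sub]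
        abel
      rw [h4]
      refine (norm_add₃_le).trans ?_
      rw [norm_smul, Real.norm_eq_abs, abs_mul, abs_of_pos hr]
      rw [sub_zero, ht, norm_smul, Real.norm_of_nonneg hr.le, ← ht] at h2
      have h5 := mul_le_mul_of_nonneg_left h2 (show 0 ≤ r * |a k| by positivity)
      nlinarith
  obtain ⟨K, hK⟩ := key
  refine le_of_forall_le_add_mul (K := K) fun r hr => ?_
  have h1 := hK r hr
  have h2 := hU (r • ∑ k ∈ S, a k • w k) 0
  rw [sub_zero, norm_smul, Real.norm_of_nonneg hr.le, one_mul] at h2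
  have h3 := norm_sub_le (U (r • ∑ k ∈ S, a k • w k) - U 0)
    (U (r • ∑ k ∈ S, a k • w k) - U 0 - r • ∑ k ∈ S, a k • V k 0)
  rw [sub_sub_cancel, norm_smul, Real.norm_of_nonneg hr.le] at h3
  linarith

theorem apply_UU {δ : X → Y} (hδ : Lip 1 δ) (w : ℕ → X) (φ : StrongDual ℝ Y) (ℓ : StrongDual ℝ X)
    (h : ∀ t, φ (δ t) = ℓ t) : ∀ N s t, φ (UU δ w N s) - φ (UU δ w N t) = ℓ s - ℓ t
  | 0, s, t => by simp [UU, h]
  | N + 1, s, t => by
    have hU := lip_UU hδ w N
    simp only [UU, avg]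
    rw [← map_sub, ← intervalIntegral.integral_sub (hU.intervalIntegrable _ _ _ _)
      (hU.intervalIntegrable _ _ _ _), ← φ.intervalIntegral_comp_comm
      ((hU.intervalIntegrable _ _ _ _).sub (hU.intervalIntegrable _ _ _ _))]
    simp [apply_UU hδ w φ ℓ h N]

theorem exists_lift {δ : X → Y} (hδ : Lip 1 δ) {w : ℕ → X} (hw : ∀ k, ‖w k‖ ≤ (1 / 2) ^ k) :
    ∃ y : ℕ → Y, (∀ (S : Finset ℕ) (a : ℕ → ℝ), ‖∑ k ∈ S, a k • y k‖ ≤ ‖∑ k ∈ S, a k • w k‖) ∧
      ∀ (φ : StrongDual ℝ Y) (ℓ : StrongDual ℝ X), (∀ t, φ (δ t) = ℓ t) →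
        ∀ k, φ (y k) = ℓ (w k) := by
  have hw1 : ∀ k, ‖w k‖ ≤ 1 := fun k => (hw k).trans (pow_le_one₀ (by norm_num) (by norm_num))
  have hlim : ∀ k, ∃ y, Tendsto (fun N => VV δ w k N 0) atTop (𝓝 y) := by
    intro k
    have : CauchySeq fun n => VV δ w k (n + (k + 1)) 0 := by
      refine cauchySeq_of_le_geometric (1 / 2) 2 (by norm_num) fun n => ?_
      rw [dist_comm, dist_eq_norm, show n + 1 + (k + 1) = (n + (k + 1)) + 1 by ring]
      simp only [VV, if_neg (show n + (k + 1) ≠ k by omega)]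
      refine ((sm_VV hδ (hw1 k) (N := n + (k + 1)) (by omega)).1.norm_avg_sub
        (by norm_num) _ _).trans ?_
      gcongr
      exact (hw _).trans (pow_le_pow_of_le_one (by norm_num) (by norm_num) (by omega))
    obtain ⟨y, hy⟩ := cauchySeq_tendsto_of_complete this
    exact ⟨y, (tendsto_add_atTop_iff_nat (k + 1)).1 hy⟩
  choose y hy using hlim
  refine ⟨y, fun S a => ?_, fun φ ℓ h k => ?_⟩
  · have h1 : Tendsto (fun N => ‖∑ k ∈ S, a k • VV δ w k N 0‖) atTop (𝓝 ‖∑ k ∈ S, a k • y k‖) :=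
      (tendsto_finsetSum S fun k _ => (hy k).const_smul (a k)).norm
    refine le_of_tendsto h1 ?_
    filter_upwards [eventually_ge_atTop (S.sup id + 1)] with N hN
    refine norm_sum_le_of_sm (lip_UU hδ w N) (V := fun k => VV δ w k N) S (fun k hk => ?_) a
    have : k ≤ S.sup id := Finset.le_sup (f := id) hk
    exact sm_VV hδ (hw1 k) (by omega)
  · have h1 : Tendsto (fun N => φ (VV δ w k N 0)) atTop (𝓝 (φ (y k))) :=
      (φ.continuous.tendsto _).comp (hy k)
    refine tendsto_nhds_unique_of_eventuallyEq h1 tendsto_const_nhds ?_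
    filter_upwards [eventually_ge_atTop (k + 1)] with N hN
    have h2 := (sm_VV hδ (hw1 k) hN).2 0
    have h3 : |ℓ (w k) - φ (VV δ w k N 0)| ≤ 0 := by
      refine le_of_forall_le_add_mul (K := 2 * ‖φ‖) fun r hr => ?_
      have h4 := φ.le_opNorm (UU δ w N (0 + r • w k) - UU δ w N 0 - r • VV δ w k N 0)
      rw [map_sub, map_sub, apply_UU hδ w φ ℓ h N] at h4
      simp only [zero_add, map_smul, smul_eq_mul, map_zero, sub_zero, ← mul_sub, Real.norm_eq_abs,
        abs_mul, abs_of_pos hr] at h4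
      have h5 := h2 r
      rw [zero_add] at h5
      nlinarith [mul_le_mul_of_nonneg_left h5 (norm_nonneg φ)]
    have := abs_nonpos_iff.1 h3
    linarith

end Pool.Agent.P.MP_ce7f50_an
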