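import Mathlib
import Pool.Agent.P.MP_ce7f50_an.Lift

/-!
Abstract free spaces over a normed space, and smoothing of the canonical embedding in finite
dimension.
-/

set_option autoImplicit false

open Filter Topology MeasureTheory

namespace Pool.Agent.P.MP_ce7f50_an

variable {X Y : Type*} [NormedAddCommGroup X] [NormedAddCommGroup Y] [NormedSpace ℝ Y]

/-- The properties of the canonical map `δ : X → F(X)` that the proof uses. -/
structure IsFree (δ : X → Y) : Prop where
  zero : δ 0 = 0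
  lip : Lip 1 δ
  dense : Dense (Submodule.span ℝ (Set.range δ) : Set Y)
  extend : ∀ (g : X → ℝ) (L : ℝ), 0 ≤ L → Lip L g →
    ∃ Φ : StrongDual ℝ Y, ‖Φ‖ ≤ L ∧ ∀ t, Φ (δ t) = g t - g 0

open Classical in
/-- The functional on the free space defined by a Lipschitz function. -/
noncomputable def hat (δ : X → Y) (g : X → ℝ) : StrongDual ℝ Y :=
  if h : ∃ Φ : StrongDual ℝ Y, ∀ t, Φ (δ t) = g t - g 0 then h.choose else 0

variable {δ : X → Y}

theorem IsFree.unique (hδ : IsFree δ) {Φ Φ' : StrongDual ℝ Y} (h : ∀ t, Φ (δ t) = Φ' (δ t)) :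
    Φ = Φ' :=
  ContinuousLinearMap.ext_on hδ.dense (by rintro _ ⟨t, rfl⟩; exact h t)

theorem IsFree.hat_eq (hδ : IsFree δ) {g : X → ℝ} {Φ : StrongDual ℝ Y}
    (h : ∀ t, Φ (δ t) = g t - g 0) : hat δ g = Φ := by
  have h' : ∃ Φ : StrongDual ℝ Y, ∀ t, Φ (δ t) = g t - g 0 := ⟨Φ, h⟩
  unfold hat
  rw [dif_pos h']
  exact hδ.unique fun t => by rw [h'.choose_spec t, h t]

theorem IsFree.hat_apply (hδ : IsFree δ) {g : X → ℝ} {L : ℝ} (hL : 0 ≤ L) (hg : Lip L g) (t : X) :
    hat δ g (δ t) = g t - g 0 := by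
  obtain ⟨Φ, -, h⟩ := hδ.extend g L hL hg
  rw [hδ.hat_eq h, h]

theorem IsFree.norm_hat_le (hδ : IsFree δ) {g : X → ℝ} {L : ℝ} (hL : 0 ≤ L) (hg : Lip L g) :
    ‖hat δ g‖ ≤ L := by
  obtain ⟨Φ, h1, h⟩ := hδ.extend g L hL hg
  rwa [hδ.hat_eq h]

/-- Elements of the free space are weak-star continuous on bounded sets. -/
theorem IsFree.approx (hδ : IsFree δ) (y : Y) {ε L : ℝ} (hε : 0 < ε) (hL : 0 < L) :
    ∃ R r : ℝ, 0 < R ∧ 0 < r ∧ ∀ Φ : StrongDual ℝ Y, ‖Φ‖ ≤ L →
      (∀ t, ‖t‖ ≤ R → |Φ (δ t)| ≤ r) → |Φ y| ≤ ε := by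
  have key : ∀ y ∈ Submodule.span ℝ (Set.range δ), ∃ R K : ℝ, 0 < R ∧ 0 < K ∧
      ∀ (Φ : StrongDual ℝ Y) (r : ℝ), 0 ≤ r → (∀ t, ‖t‖ ≤ R → |Φ (δ t)| ≤ r) → |Φ y| ≤ K * r := by
    intro y hy
    induction hy using Submodule.span_induction with
    | mem y hy =>
      obtain ⟨t, rfl⟩ := hy
      exact ⟨‖t‖ + 1, 1, by positivity, one_pos, fun Φ r _ h => by
        simpa using h t (by linarith)⟩
    | zero => exact ⟨1, 1, one_pos, one_pos, fun Φ r hr _ => by simpa using hr⟩
    | add y z _ _ hy hz =>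
      obtain ⟨R₁, K₁, h1, h2, h3⟩ := hy
      obtain ⟨R₂, K₂, h4, h5, h6⟩ := hz
      refine ⟨R₁ + R₂, K₁ + K₂, by positivity, by positivity, fun Φ r hr h => ?_⟩
      rw [map_add, add_mul]
      exact (abs_add_le _ _).trans (add_le_add (h3 Φ r hr fun t ht => h t (by linarith))
        (h6 Φ r hr fun t ht => h t (by linarith)))
    | smul a y _ hy =>
      obtain ⟨R₁, K₁, h1, h2, h3⟩ := hy
      refine ⟨R₁, (|a| + 1) * K₁, h1, by positivity, fun Φ r hr h => ?_⟩
      rw [map_smul, smul_eq_mul, abs_mul, mul_assoc]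
      exact mul_le_mul (by linarith) (h3 Φ r hr h) (abs_nonneg _) (by positivity)
  obtain ⟨y', hy', hyy⟩ := Metric.mem_closure_iff.1 (hδ.dense y) (ε / (2 * L)) (by positivity)
  obtain ⟨R, K, hR, hK, h⟩ := key y' hy'
  refine ⟨R, ε / (2 * K), hR, by positivity, fun Φ hΦ h1 => ?_⟩
  have h2 := h Φ _ (by positivity) h1
  have h3 : |Φ (y - y')| ≤ L * (ε / (2 * L)) :=
    (Φ.le_opNorm _).trans (mul_le_mul hΦ (by rw [← dist_eq_norm]; exact hyy.le) (norm_nonneg _) hL.le)
  have h4 : K * (ε / (2 * K)) = ε / 2 := by field_simp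
  have h5 : L * (ε / (2 * L)) = ε / 2 := by field_simp
  have h6 : Φ y = Φ (y - y') + Φ y' := by simp
  rw [h6]
  linarith [abs_add_le (Φ (y - y')) (Φ y')]

/-- Product of a bounded Lipschitz scalar function, constant outside a ball, with a Lipschitz
function. -/
theorem Lip.smul {H : X → ℝ} {g : X → Y} {a b L M R : ℝ} (hb : 0 ≤ b) (hM : 0 ≤ M)
    (ha : ∀ t, |H t| ≤ a) (hH : Lip b H) (hc : ∀ s t, R < ‖s‖ → R < ‖t‖ → H s = H t)
    (hg : Lip L g) (hgM : ∀ t, ‖t‖ ≤ R → ‖g t‖ ≤ M) : Lip (a * L + b * M) fun t => H t • g t := by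
  have ha0 : 0 ≤ a := (abs_nonneg _).trans (ha 0)
  have key : ∀ s t, ‖t‖ ≤ R → ‖H s • g s - H t • g t‖ ≤ (a * L + b * M) * ‖s - t‖ := by
    intro s t ht
    have h1 : H s • g s - H t • g t = H s • (g s - g t) + (H s - H t) • g t := by
      rw [smul_sub, sub_smul]; abel
    rw [h1]
    refine (norm_add_le _ _).trans ?_
    rw [norm_smul, norm_smul, add_mul, mul_assoc, mul_right_comm b]
    exact add_le_add (mul_le_mul (ha s) (hg s t) (norm_nonneg _) ha0)
      (mul_le_mul (hH s t) (hgM t ht) (norm_nonneg _) (by positivity))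
  intro s t
  beta_reduce
  by_cases ht : ‖t‖ ≤ R
  · exact key s t ht
  by_cases hs : ‖s‖ ≤ R
  · rw [norm_sub_rev, norm_sub_rev s t]; exact key t s hs
  rw [hc s t (not_le.1 hs) (not_le.1 ht), ← smul_sub, norm_smul, add_mul, mul_assoc]
  have := mul_le_mul (ha t) (hg s t) (norm_nonneg _) ha0
  have h2 : 0 ≤ b * M * ‖s - t‖ := by positivity
  exact le_add_of_le_of_nonneg this h2

theorem exists_smooth [NormedSpace ℝ X] [FiniteDimensional ℝ X] [CompleteSpace Y]
    (h0 : δ 0 = 0) (hδ : Lip 1 δ) {R r : ℝ} (hR : 0 < R) (hr : 0 < r) :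
    ∃ Z : X → Y, ContDiff ℝ 2 Z ∧ HasCompactSupport Z ∧ Lip 3 Z ∧
      ∀ t, ‖t‖ ≤ R → ‖Z t - δ t‖ ≤ r := by
  borelize X
  let μ : Measure X := Measure.addHaar
  let χ : X → ℝ := fun t => max 0 (min 1 (2 - ‖t‖ / R))
  have hχ1 : ∀ t, |χ t| ≤ 1 := fun t => by
    rw [abs_of_nonneg (le_max_left _ _)]
    exact max_le zero_le_one (min_le_left _ _)
  have hχ2 : Lip (1 / R) χ := fun s t => by
    rw [Real.norm_eq_abs]
    refine (abs_max_sub_max_le_max _ _ _ _).trans (max_le (by simp; positivity) ?_)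
    refine (abs_min_sub_min_le_max _ _ _ _).trans (max_le (by simp; positivity) ?_)
    have : 2 - ‖s‖ / R - (2 - ‖t‖ / R) = (1 / R) * (‖t‖ - ‖s‖) := by ring
    rw [this, abs_mul, abs_of_pos (by positivity), abs_sub_comm]
    gcongr
    exact abs_norm_sub_norm_le s t
  have hχ3 : ∀ t, 2 * R < ‖t‖ → χ t = 0 := fun t ht => by
    apply max_eq_left
    refine (min_le_right _ _).trans ?_
    rw [sub_nonpos, le_div_iff₀ hR]
    exact ht.le
  have hχ4 : ∀ t, ‖t‖ ≤ R → χ t = 1 := fun t ht => by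
    have : ‖t‖ / R ≤ 1 := (div_le_one hR).2 ht
    simp only [χ]
    rw [min_eq_left (by linarith), max_eq_right zero_le_one]
  let g : X → Y := fun t => χ t • δ t
  have hg : Lip 3 g := by
    have := Lip.smul (R := 2 * R) (M := 2 * R) (by positivity) (by positivity) hχ1 hχ2
      (fun s t hs ht => by rw [hχ3 s hs, hχ3 t ht]) hδ (fun t ht => by
        have := hδ t 0
        rw [h0, sub_zero, sub_zero, one_mul] at this
        exact this.trans ht)
    convert this using 1
    field_simp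
    norm_num
  have hgc : HasCompactSupport g := by
    refine HasCompactSupport.intro (isCompact_closedBall (0 : X) (2 * R)) fun t ht => ?_
    rw [mem_closedBall_zero_iff, not_le] at ht
    simp [g, hχ3 t ht]
  let φ : ContDiffBump (0 : X) := ⟨r / 6, r / 3, by positivity, by linarith⟩
  refine ⟨convolution (φ.normed μ) g (ContinuousLinearMap.lsmul ℝ ℝ) μ, ?_, ?_, ?_, ?_⟩
  · exact φ.hasCompactSupport_normed.contDiff_convolution_left _ φ.contDiff_normed
      hg.continuous.locallyIntegrable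
  · exact φ.hasCompactSupport_normed.convolution _ hgc
  · intro s t
    have hint : ∀ u, Integrable (fun v => φ.normed μ v • g (u - v)) μ := fun u =>
      (φ.continuous_normed.smul (hg.continuous.comp (by fun_prop))).integrable_of_hasCompactSupport
        (φ.hasCompactSupport_normed.smul_right)
    simp only [convolution_def, ContinuousLinearMap.lsmul_apply]
    rw [← integral_sub (hint s) (hint t)]
    calc ‖∫ v, φ.normed μ v • g (s - v) - φ.normed μ v • g (t - v) ∂μ‖
        ≤ ∫ v, φ.normed μ v * (3 * ‖s - t‖) ∂μ := by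
          refine norm_integral_le_of_norm_le (φ.integrable_normed.mul_const _)
            (Eventually.of_forall fun v => ?_)
          rw [← smul_sub, norm_smul, Real.norm_of_nonneg (φ.nonneg_normed v)]
          refine mul_le_mul_of_nonneg_left ?_ (φ.nonneg_normed v)
          simpa using hg (s - v) (t - v)
      _ = 3 * ‖s - t‖ := by rw [integral_mul_const, φ.integral_normed, one_mul]
  · intro t ht
    have h1 : δ t = g t := by simp [g, hχ4 t ht]
    rw [h1, ← dist_eq_norm]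
    refine φ.dist_normed_convolution_le hg.continuous.aestronglyMeasurable fun u hu => ?_
    rw [dist_eq_norm]
    refine (hg u t).trans ?_
    have : ‖u - t‖ < r / 3 := by rwa [Metric.mem_ball, dist_eq_norm] at hu
    linarith

end Pool.Agent.P.MP_ce7f50_an
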