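import Mathlib
import Pool.Agent.P.MP_ce7f50_an.Basic
import Pool.Agent.P.MP_ce7f50_an.Smooth

/-!
The free space over a finite-dimensional normed space has the property `DP`.
-/

set_option autoImplicit false

open Filter Topology

namespace Pool.Agent.P.MP_ce7f50_an

variable {E Y : Type*} [NormedAddCommGroup E] [NormedSpace ℝ E]
  [NormedAddCommGroup Y] [NormedSpace ℝ Y]

theorem lip_of_fderiv {G : E → ℝ} {A : ℝ} (hG : Differentiable ℝ G)
    (h : ∀ t, ‖fderiv ℝ G t‖ ≤ A) : Lip A G := fun s t =>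
  Convex.norm_image_sub_le_of_norm_fderiv_le (fun u _ => hG u) (fun u _ => h u) convex_univ
    (Set.mem_univ t) (Set.mem_univ s)

theorem Lip.norm_fderiv_le {G : E → Y} {A : ℝ} (hA : 0 ≤ A) (h : Lip A G) (t : E) :
    ‖fderiv ℝ G t‖ ≤ A :=
  norm_fderiv_le_of_lip' ℝ hA (Eventually.of_forall fun s => h s t)

omit [NormedSpace ℝ E] in
theorem Lip.clm_comp {G : E → Y} {A C : ℝ} (h : Lip A G) {φ : StrongDual ℝ Y} (hφ : ‖φ‖ ≤ C) :
    Lip (C * A) fun t => φ (G t) := fun s t => by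
  rw [← map_sub, mul_assoc]
  exact (φ.le_opNorm _).trans
    (mul_le_mul hφ (h s t) (norm_nonneg _) ((norm_nonneg _).trans hφ))

omit [NormedSpace ℝ E] [NormedSpace ℝ Y] in
theorem Lip.mono {G : E → Y} {A B : ℝ} (h : Lip A G) (hAB : A ≤ B) : Lip B G := fun s t =>
  (h s t).trans (mul_le_mul_of_nonneg_right hAB (norm_nonneg _))

/-- Smooth cut-off functions equal to `1` near infinity. -/
structure Cut (Ψ : E → ℝ) : Prop where
  smooth : ContDiff ℝ 1 Ψ
  nonneg : ∀ t, 0 ≤ Ψ t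
  le_one : ∀ t, Ψ t ≤ 1
  one : ∃ R : ℝ, 0 < R ∧ ∀ t, R < ‖t‖ → Ψ t = 1

theorem cut_one : Cut fun _ : E => (1 : ℝ) :=
  ⟨contDiff_const, fun _ => zero_le_one, fun _ => le_rfl, 1, one_pos, fun _ _ => rfl⟩

theorem Cut.mul {Ψ ψ : E → ℝ} (h : Cut Ψ) (h' : Cut ψ) : Cut fun t => Ψ t * ψ t := by
  refine ⟨h.smooth.mul h'.smooth, fun t => mul_nonneg (h.nonneg t) (h'.nonneg t),
    fun t => mul_le_one₀ (h.le_one t) (h'.nonneg t) (h'.le_one t), ?_⟩
  obtain ⟨R, hR, h1⟩ := h.one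
  obtain ⟨R', hR', h2⟩ := h'.one
  exact ⟨R + R', by positivity, fun t ht => by
    rw [h1 t (by linarith), h2 t (by linarith), mul_one]⟩

theorem Cut.abs_le {Ψ : E → ℝ} (h : Cut Ψ) (t : E) : |Ψ t| ≤ 1 := by
  rw [abs_of_nonneg (h.nonneg t)]; exact h.le_one t

variable [FiniteDimensional ℝ E]

theorem Cut.exists_bound {Ψ : E → ℝ} (h : Cut Ψ) : ∃ R b : ℝ, 0 < R ∧ 0 < b ∧
    (∀ t, R < ‖t‖ → Ψ t = 1) ∧ (∀ t, R < ‖t‖ → fderiv ℝ Ψ t = 0) ∧
    (∀ t, ‖fderiv ℝ Ψ t‖ ≤ b) ∧ Lip b Ψ := by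
  obtain ⟨R, hR, h1⟩ := h.one
  have h2 : ∀ t, R < ‖t‖ → fderiv ℝ Ψ t = 0 := fun t ht =>
    IsLocalMax.fderiv_eq_zero (Eventually.of_forall fun s => by rw [h1 t ht]; exact h.le_one s)
  obtain ⟨b, hb⟩ := (isCompact_closedBall (0 : E) R).exists_bound_of_continuousOn
    (h.smooth.continuous_fderiv one_ne_zero).continuousOn
  have h3 : ∀ t, ‖fderiv ℝ Ψ t‖ ≤ |b| + 1 := fun t => by
    by_cases ht : ‖t‖ ≤ R
    · linarith [hb t (mem_closedBall_zero_iff.2 ht), le_abs_self b]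
    · rw [h2 t (not_le.1 ht), norm_zero]; positivity
  exact ⟨R, |b| + 1, hR, by positivity, h1, h2, h3,
    lip_of_fderiv (h.smooth.differentiable one_ne_zero) h3⟩

theorem eventually_small {δ : E → Y} (hδ : Lip 1 δ) {φ : ℕ → StrongDual ℝ Y} (hφ : Sublin φ)
    (R : ℝ) {η : ℝ} (hη : 0 < η) : ∀ᶠ k in atTop, ∀ t, ‖t‖ ≤ R → |φ k (δ t)| ≤ η := by
  obtain ⟨C, hC1, hC⟩ := hφ.bdd
  obtain ⟨T, -, hT, hcov⟩ := (isCompact_closedBall (0 : E) R).finite_cover_balls
    (e := η / (2 * C)) (by positivity)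
  have : ∀ᶠ k in atTop, ∀ s ∈ T, |φ k (δ s)| ≤ η / 2 :=
    (Filter.eventually_all_finite hT).2 fun s _ => hφ.tendsto_apply _ (by positivity)
  filter_upwards [this] with k hk t ht
  obtain ⟨s, hs, hts⟩ := Set.mem_iUnion₂.1 (hcov (mem_closedBall_zero_iff.2 ht))
  have h1 := hδ.clm_comp (hC k) t s
  rw [Metric.mem_ball, dist_eq_norm] at hts
  have h2 : C * 1 * ‖t - s‖ ≤ η / 2 := by
    calc C * 1 * ‖t - s‖ ≤ C * 1 * (η / (2 * C)) := by gcongr
      _ = η / 2 := by field_simp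
  have h3 := abs_add_le (φ k (δ t) - φ k (δ s)) (φ k (δ s))
  rw [sub_add_cancel] at h3
  rw [Real.norm_eq_abs] at h1
  linarith [hk s hs]

/-- Bounded overlap for compositions with operators defined on `E`. -/
theorem Sublin.overlap_comp {φ : ℕ → StrongDual ℝ Y} (hφ : Sublin φ) {η : ℝ} (hη : 0 < η) :
    ∃ N : ℕ, ∀ D : E →L[ℝ] Y, ‖D‖ ≤ 3 → ∀ T : Finset ℕ, (∀ k ∈ T, η < ‖(φ k).comp D‖) →
      T.card ≤ N := by
  classical
  let v := Module.finBasis ℝ E
  obtain ⟨K, hK, hv⟩ := v.exists_opNorm_le (F := ℝ)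
  obtain ⟨m, hm⟩ := hφ.overlap (η := η / K) (M := 3 * (∑ i, ‖v i‖) + 1) (by positivity)
    (by positivity)
  refine ⟨Module.finrank ℝ E * m, fun D hD T hT => ?_⟩
  have hsub : T ⊆ Finset.univ.biUnion fun i => T.filter fun k => η / K < |φ k (D (v i))| := by
    intro k hk
    by_contra hcon
    simp only [Finset.mem_biUnion, Finset.mem_univ, Finset.mem_filter, true_and, not_exists,
      not_and, not_lt] at hcon
    have h1 := hv (u := (φ k).comp D) (M := η / K) (by positivity) fun i => hcon i hk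
    have h2 : K * (η / K) = η := by field_simp
    linarith [hT k hk]
  refine (Finset.card_le_card hsub).trans (Finset.card_biUnion_le.trans ?_)
  calc ∑ i, (T.filter fun k => η / K < |φ k (D (v i))|).card ≤ ∑ _i : Fin (Module.finrank ℝ E), m := by
        refine Finset.sum_le_sum fun i _ => hm (D (v i)) ?_ _ fun k hk => (Finset.mem_filter.1 hk).2
        have h1 : ‖v i‖ ≤ ∑ i, ‖v i‖ :=
          Finset.single_le_sum (f := fun i => ‖v i‖) (fun _ _ => norm_nonneg _) (Finset.mem_univ i)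
        have h2 := (D.le_opNorm (v i)).trans (mul_le_mul_of_nonneg_right hD (norm_nonneg _))
        linarith
    _ = Module.finrank ℝ E * m := by simp

theorem IsFree.step [CompleteSpace Y] {δ : E → Y} (hδ : IsFree δ) {x : ℕ → Y}
    {φ : ℕ → StrongDual ℝ Y} (hφ : Sublin φ) {C : ℝ} (hC : 1 ≤ C) (hxC : ∀ k, ‖x k‖ ≤ C)
    (hφC : ∀ k, ‖φ k‖ ≤ C) {η κ c : ℝ} (hη : 0 < η) (hκ : 0 < κ) {Ψ : E → ℝ} (hΨ : Cut Ψ)
    (hfr : ∃ᶠ l in atTop, c ≤ hat δ (fun t => Ψ t * φ l (δ t)) (x l)) (S : Finset ℕ) :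
    ∃ k ∉ S, ∃ z ψ : E → ℝ, ContDiff ℝ 1 z ∧ Cut ψ ∧ (∀ t, ‖fderiv ℝ z t‖ ≤ C * 3) ∧
      (∀ t, ψ t ≠ 0 → ‖fderiv ℝ z t‖ ≤ η) ∧ (∀ t, |z t| * ‖fderiv ℝ Ψ t‖ ≤ η) ∧
      c - κ ≤ hat δ (fun t => Ψ t * z t) (x k) ∧
      ∃ᶠ l in atTop, c - κ ≤ hat δ (fun t => Ψ t * ψ t * φ l (δ t)) (x l) := by
  classical
  obtain ⟨R₀, b, hR₀, hb, hΨ1, hΨ2, hΨ3, hΨ4⟩ := hΨ.exists_bound
  obtain ⟨N, hN⟩ := hφ.overlap_comp (E := E) (η := η / 2) (by positivity)
  obtain ⟨B, hB⟩ := exists_nat_gt (((N : ℝ) * (C * 1) + 1) * C / κ)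
  have hB0 : (0 : ℝ) < B := lt_of_le_of_lt (by positivity) hB
  have hf : ∀ l, Lip (C * 1) fun t => φ l (δ t) := fun l => hδ.lip.clm_comp (hφC l)
  -- the batch
  have hS' : ∀ᶠ k in atTop, k ∉ S := by
    rw [← Nat.cofinite_eq_atTop]; exact S.eventually_cofinite_notMem
  have hJ := hfr.and_eventually (hS'.and
    (eventually_small hδ.lip hφ R₀ (η := η / (2 * b)) (by positivity)))
  rw [Nat.frequently_atTop_iff_infinite] at hJ
  obtain ⟨T, hTJ, hTB⟩ := hJ.exists_subset_card_eq B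
  -- smoothing parameters
  have happ := fun k => hδ.approx (x k) hκ (L := 2 * (1 * (C * 3) + η)) (by positivity)
  choose Rk rk hRk hrk happ using happ
  obtain ⟨r, hr, hr1, hr2⟩ : ∃ r : ℝ, 0 < r ∧ C * r ≤ η / (2 * b) ∧ ∀ k ∈ T, 2 * (C * r) ≤ rk k := by
    have h0 : ∀ᶠ r in 𝓝[>] (0 : ℝ), 0 < r := self_mem_nhdsWithin
    refine (h0.and (Filter.Eventually.filter_mono nhdsWithin_le_nhds (Eventually.and ?_ ?_))).exists
    · exact ((Continuous.continuousAt (by fun_prop)).eventually_lt continuousAt_const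
        (by simp; positivity)).mono fun r hr => hr.le
    · rw [Filter.eventually_all_finset]
      intro k _
      exact ((Continuous.continuousAt (by fun_prop)).eventually_lt continuousAt_const
        (by simpa using hrk k)).mono fun r hr => hr.le
  set R : ℝ := R₀ + ∑ k ∈ T, Rk k with hRdef
  have hsum : 0 ≤ ∑ k ∈ T, Rk k := Finset.sum_nonneg fun k _ => (hRk k).le
  have hR1 : R₀ ≤ R := by linarith
  have hR2 : ∀ k ∈ T, Rk k ≤ R := fun k hk => by
    linarith [Finset.single_le_sum (f := Rk) (fun k _ => (hRk k).le) hk]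
  obtain ⟨Z, hZ1, hZ2, hZ3, hZ4⟩ := exists_smooth hδ.zero hδ.lip (R := R) (by linarith) hr
  let z : ℕ → E → ℝ := fun k t => φ k (Z t)
  have hz1 : ∀ k, ContDiff ℝ 2 (z k) := fun k => (φ k).contDiff.comp hZ1
  have hz2 : ∀ k, Lip (C * 3) (z k) := fun k => hZ3.clm_comp (hφC k)
  have hz3 : ∀ k t, ‖t‖ ≤ R → |φ k (δ t) - z k t| ≤ C * r := fun k t ht => by
    rw [← map_sub]
    refine ((φ k).le_opNorm _).trans (mul_le_mul (hφC k) ?_ (norm_nonneg _) (by linarith))
    rw [norm_sub_rev]; exact hZ4 t ht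
  have hz4 : ∀ k ∈ T, ∀ t, ‖t‖ ≤ R₀ → |z k t| ≤ η / b := fun k hk t ht => by
    have h1 := hz3 k t (ht.trans hR1)
    have h2 := (hTJ hk).2.2 t ht
    have h3 := abs_sub (φ k (δ t)) (φ k (δ t) - z k t)
    rw [sub_sub_cancel] at h3
    have h4 : η / b = η / (2 * b) + η / (2 * b) := by field_simp; ring
    linarith
  have hz5 : ∀ k t, fderiv ℝ (z k) t = (φ k).comp (fderiv ℝ Z t) := fun k t =>
    ((φ k).hasFDerivAt.comp t (hZ1.differentiable two_ne_zero t).hasFDerivAt).fderiv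
  let θ : ContDiffBump (0 : StrongDual ℝ E) := ⟨η / 2, η, by positivity, by linarith⟩
  let ψ : ℕ → E → ℝ := fun k t => θ (fderiv ℝ (z k) t)
  obtain ⟨R₁, hR₁, hZ0⟩ : ∃ R₁ : ℝ, 0 < R₁ ∧ ∀ t, R₁ < ‖t‖ → fderiv ℝ Z t = 0 := by
    obtain ⟨R₁, h1, h2⟩ := (hZ2.fderiv ℝ).isCompact.isBounded.subset_closedBall_lt 0 (0 : E)
    refine ⟨R₁, h1, fun t ht => ?_⟩
    by_contra h
    have := h2 (subset_tsupport _ h)
    rw [mem_closedBall_zero_iff] at this
    linarith
  have hψ1 : ∀ k t, R₁ < ‖t‖ → ψ k t = 1 := fun k t ht => by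
    apply θ.one_of_mem_closedBall
    rw [hz5, hZ0 t ht]
    simpa using θ.rIn_pos.le
  have hψ : ∀ k, Cut (ψ k) := fun k =>
    ⟨θ.contDiff.comp ((hz1 k).fderiv_right (m := 1) (by norm_num)), fun t => θ.nonneg,
      fun t => θ.le_one, R₁, hR₁, hψ1 k⟩
  -- Lipschitz bounds for the products
  have hbη : b * (η / b) = η := by field_simp
  have hprod : ∀ {g : E → ℝ}, Lip (C * 3) g → (∀ t, ‖t‖ ≤ R₀ → |g t| ≤ η / b) →
      Lip (1 * (C * 3) + η) fun t => Ψ t * g t := fun hg hg' => by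
    have := Lip.smul hb.le (M := η / b) (by positivity) hΨ.abs_le hΨ4
      (fun s t hs ht => by rw [hΨ1 s hs, hΨ1 t ht]) hg hg'
    rwa [hbη] at this
  have hval : ∀ k ∈ T, c - κ ≤ hat δ (fun t => Ψ t * z k t) (x k) := by
    intro k hk
    have h1 := hprod (hz2 k) (hz4 k hk)
    have h2 := hprod ((hf k).mono (by linarith)) fun t ht => ((hTJ hk).2.2 t ht).trans (by
      rw [div_le_div_iff₀ (by positivity) hb]; nlinarith)
    have h3 := happ k (hat δ (fun t => Ψ t * φ k (δ t)) - hat δ fun t => Ψ t * z k t)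
      ((norm_sub_le _ _).trans (by
        linarith [hδ.norm_hat_le (by positivity) h1, hδ.norm_hat_le (by positivity) h2]))
      (fun t ht => by
        rw [_root_.sub_apply, hδ.hat_apply (by positivity) h1, hδ.hat_apply (by positivity) h2]
        have h4 : ∀ s, ‖s‖ ≤ R → |Ψ s * (φ k (δ s) - z k s)| ≤ C * r := fun s hs => by
          rw [abs_mul]
          exact (mul_le_of_le_one_left (abs_nonneg _) (hΨ.abs_le s)).trans (hz3 k s hs)
        have h5 := h4 t (ht.trans (hR2 k hk))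
        have h6 := h4 0 (by rw [norm_zero]; linarith)
        have h7 := abs_sub (Ψ t * (φ k (δ t) - z k t)) (Ψ 0 * (φ k (δ 0) - z k 0))
        have h8 : Ψ t * φ k (δ t) - Ψ 0 * φ k (δ 0) - (Ψ t * z k t - Ψ 0 * z k 0) =
            Ψ t * (φ k (δ t) - z k t) - Ψ 0 * (φ k (δ 0) - z k 0) := by ring
        rw [h8]
        linarith [hr2 k hk])
    rw [_root_.sub_apply] at h3
    linarith [(hTJ hk).1, (abs_le.1 h3).2]
  -- the overlap bound
  let H : E → ℝ := fun t => ∑ k ∈ T, (Ψ t - Ψ t * ψ k t)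
  have hH1 : ∀ t, |H t| ≤ N := by
    intro t
    have h1 : ∀ k, 0 ≤ Ψ t - Ψ t * ψ k t := fun k => by
      nlinarith [hΨ.nonneg t, (hψ k).le_one t]
    rw [abs_of_nonneg (Finset.sum_nonneg fun k _ => h1 k)]
    have h2 : H t = ∑ k ∈ T.filter (fun k => η / 2 < ‖(φ k).comp (fderiv ℝ Z t)‖),
        (Ψ t - Ψ t * ψ k t) := by
      refine (Finset.sum_filter_of_ne fun k _ hk => ?_).symm
      by_contra hcon
      apply hk
      have : ψ k t = 1 := by
        apply θ.one_of_mem_closedBall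
        rw [hz5, mem_closedBall_zero_iff]
        exact not_lt.1 hcon
      rw [this, mul_one, sub_self]
    have h3 := hN (fderiv ℝ Z t) (hZ3.norm_fderiv_le (by norm_num) t)
      (T.filter (fun k => η / 2 < ‖(φ k).comp (fderiv ℝ Z t)‖))
      fun k hk => (Finset.mem_filter.1 hk).2
    change H t ≤ N
    rw [h2]
    refine (Finset.sum_le_card_nsmul _ _ 1 fun k _ => ?_).trans ?_
    · nlinarith [hΨ.le_one t, mul_nonneg (hΨ.nonneg t) ((hψ k).nonneg t)]
    · simpa using h3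
  have hH2 : ∀ t, R₁ < ‖t‖ → H t = 0 := fun t ht =>
    Finset.sum_eq_zero fun k _ => by rw [hψ1 k t ht, mul_one, sub_self]
  have hbd := fun k => (hΨ.mul (hψ k)).exists_bound
  choose R' b' hR' hb' hc' _ _ hL' using hbd
  have hH3 : Lip (∑ k ∈ T, (b + b' k) + 1) H := by
    intro s t
    rw [← Finset.sum_sub_distrib, add_mul, Finset.sum_mul]
    refine (norm_sum_le _ _).trans (le_add_of_le_of_nonneg (Finset.sum_le_sum fun k _ => ?_)
      (by positivity))
    have h1 : Ψ s - Ψ s * ψ k s - (Ψ t - Ψ t * ψ k t) =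
        (Ψ s - Ψ t) - (Ψ s * ψ k s - Ψ t * ψ k t) := by ring
    rw [h1, add_mul]
    exact (norm_sub_le _ _).trans (add_le_add (hΨ4 s t) (hL' k s t))
  set bH := ∑ k ∈ T, (b + b' k) + 1 with hbH
  have hbH0 : 0 < bH := by
    have : 0 ≤ ∑ k ∈ T, (b + b' k) := Finset.sum_nonneg fun k _ => by linarith [hb' k]
    linarith
  have hgen : ∀ {Φ : E → ℝ}, Cut Φ → ∀ l, ∃ L, 0 ≤ L ∧ Lip L fun t => Φ t * φ l (δ t) := by
    intro Φ hΦ l
    obtain ⟨R₂, b₂, h1, h2, h3, -, -, h4⟩ := hΦ.exists_bound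
    refine ⟨_, by positivity, Lip.smul h2.le (M := C * 1 * R₂) (by positivity) hΦ.abs_le h4
      (fun s t hs ht => by rw [h3 s hs, h3 t ht]) (hf l) fun t ht => ?_⟩
    have := hf l t 0
    simp only [hδ.zero, map_zero, sub_zero] at this
    exact this.trans (by gcongr)
  have hfin : ∃ᶠ l in atTop, ∃ k ∈ T, c - κ ≤ hat δ (fun t => Ψ t * ψ k t * φ l (δ t)) (x l) := by
    refine (hfr.and_eventually (eventually_small hδ.lip hφ R₁ (η := 1 / bH)
      (by positivity))).mono fun l hl => ?_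
    have h1 := Lip.smul hbH0.le (M := 1 / bH) (by positivity) hH1 hH3
      (fun s t hs ht => by rw [hH2 s hs, hH2 t ht]) (hf l) hl.2
    rw [mul_one_div_cancel hbH0.ne'] at h1
    have h2 : hat δ (fun t => H t • φ l (δ t)) = ∑ k ∈ T, (hat δ (fun t => Ψ t * φ l (δ t)) -
        hat δ (fun t => Ψ t * ψ k t * φ l (δ t))) := by
      refine hδ.hat_eq fun t => ?_
      rw [_root_.sum_apply]
      simp only [H, smul_eq_mul, Finset.sum_mul, ← Finset.sum_sub_distrib]
      refine Finset.sum_congr rfl fun k _ => ?_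
      obtain ⟨L₁, h3, h4⟩ := hgen hΨ l
      obtain ⟨L₂, h5, h6⟩ := hgen (hΨ.mul (hψ k)) l
      rw [_root_.sub_apply, hδ.hat_apply h3 h4, hδ.hat_apply h5 h6]
      ring
    have h3 : hat δ (fun t => H t • φ l (δ t)) (x l) ≤ ((N : ℝ) * (C * 1) + 1) * C :=
      (le_abs_self _).trans <| (ContinuousLinearMap.le_opNorm _ _).trans <|
        mul_le_mul (hδ.norm_hat_le (by positivity) h1) (hxC l) (norm_nonneg _) (by positivity)
    rw [h2, _root_.sum_apply] at h3
    by_contra hcon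
    push Not at hcon
    have h4 : ∑ _k ∈ T, κ ≤ ∑ k ∈ T, (hat δ (fun t => Ψ t * φ l (δ t)) -
        hat δ (fun t => Ψ t * ψ k t * φ l (δ t))) (x l) :=
      Finset.sum_le_sum fun k hk => by
        rw [_root_.sub_apply]
        linarith [hl.1, hcon k hk]
    rw [Finset.sum_const, hTB, nsmul_eq_mul] at h4
    rw [div_lt_iff₀ hκ] at hB
    linarith
  obtain ⟨k, hk, hk'⟩ : ∃ k ∈ T, ∃ᶠ l in atTop,
      c - κ ≤ hat δ (fun t => Ψ t * ψ k t * φ l (δ t)) (x l) := by
    by_contra hcon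
    push Not at hcon
    refine hfin ?_
    filter_upwards [(Filter.eventually_all_finset T).2 hcon] with l hl
    rintro ⟨k, hk, hk'⟩
    exact absurd hk' (not_le.2 (hl k hk))
  refine ⟨k, (hTJ hk).2.1, z k, ψ k, (hz1 k).of_le (by norm_num), hψ k,
    fun t => (hz2 k).norm_fderiv_le (by positivity) t, fun t ht => ?_, fun t => ?_, hval k hk, hk'⟩
  · by_contra hcon
    exact ht (θ.zero_of_le_dist (by rw [dist_zero_right]; exact (not_le.1 hcon).le))
  · by_cases ht : ‖t‖ ≤ R₀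
    · calc |z k t| * ‖fderiv ℝ Ψ t‖ ≤ η / b * b :=
            mul_le_mul (hz4 k hk t ht) (hΨ3 t) (norm_nonneg _) (by positivity)
        _ = η := by field_simp
    · rw [hΨ2 t (not_le.1 ht), norm_zero, mul_zero]; exact hη.le

theorem IsFree.dp [CompleteSpace Y] {δ : E → Y} (hδ : IsFree δ) : DP Y := by
  classical
  intro x φ hx hφ c hc
  by_contra hcon
  rw [Filter.not_eventually] at hcon
  simp only [not_lt] at hcon
  obtain ⟨C₁, hC₁, hxC⟩ := hx.bdd
  obtain ⟨C₂, hC₂, hφC⟩ := hφ.bdd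
  set C := max C₁ C₂ with hC
  have hC1 : 1 ≤ C := hC₁.trans (le_max_left _ _)
  replace hxC : ∀ k, ‖x k‖ ≤ C := fun k => (hxC k).trans (le_max_left _ _)
  replace hφC : ∀ k, ‖φ k‖ ≤ C := fun k => (hφC k).trans (le_max_right _ _)
  obtain ⟨m, hm1, hm⟩ := hx.not_wit (c := c / 2) (A := 2 + C * 3) (by positivity) (by positivity)
  have hm0 : (0 : ℝ) < m := by exact_mod_cast hm1
  set η : ℝ := 1 / m with hη
  set κ : ℝ := c / (2 * m) with hκ
  have hη0 : 0 < η := by positivity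
  have hκ0 : 0 < κ := by positivity
  have hind : ∀ j : ℕ, j ≤ m → ∃ (Ψ G : E → ℝ) (S : Finset ℕ), Cut Ψ ∧
      (∃ᶠ l in atTop, c - j * κ ≤ hat δ (fun t => Ψ t * φ l (δ t)) (x l)) ∧ S.card = j ∧
      Differentiable ℝ G ∧ (∀ t, ‖fderiv ℝ G t‖ ≤ 2 * η * j + if Ψ t = 0 then C * 3 else 0) ∧
      Wit x (c / 2) S (hat δ G) := by
    intro j
    induction j with
    | zero =>
      refine fun _ => ⟨fun _ => 1, fun _ => 0, ∅, cut_one, hcon.mono fun l hl => ?_, rfl,
        differentiable_const _, by simp, wit_empty _ _ _⟩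
      rw [hδ.hat_eq (Φ := φ l) (by simp [hδ.zero])]
      simpa using hl
    | succ j ih =>
      intro hj
      obtain ⟨Ψ, G, S, hΨ, hfr, hS, hG1, hG2, hW⟩ := ih (by omega)
      obtain ⟨k, hk, z, ψ, hz1, hψ, hz2, hz3, hz4, hz5, hz6⟩ :=
        hδ.step hφ hC1 hxC hφC hη0 hκ0 hΨ hfr S
      have hjκ : c / 2 ≤ c - j * κ - κ := by
        have h1 : ((j : ℝ) + 1) ≤ m := by exact_mod_cast hj
        have h2 : m * κ = c / 2 := by rw [hκ]; field_simp
        nlinarith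
      obtain ⟨s, hs, hW'⟩ := hW.insert hk (hjκ.trans hz5)
      have hd1 := hΨ.smooth.differentiable one_ne_zero
      have hd2 := hz1.differentiable one_ne_zero
      have hg1 : Differentiable ℝ fun t => Ψ t * z t := hd1.mul hd2
      have hg2 : ∀ t, ‖fderiv ℝ (fun t => Ψ t * z t) t‖ ≤ Ψ t * ‖fderiv ℝ z t‖ + η := fun t => by
        rw [fderiv_fun_mul (hd1 t) (hd2 t)]
        refine (norm_add_le _ _).trans (add_le_add ?_ ?_)
        · rw [norm_smul, Real.norm_of_nonneg (hΨ.nonneg t)]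
        · rw [norm_smul]; exact hz4 t
      have hg3 : ∀ t, Ψ t * ‖fderiv ℝ z t‖ ≤ ‖fderiv ℝ z t‖ := fun t =>
        mul_le_of_le_one_left (norm_nonneg _) (hΨ.le_one t)
      have hLG : Lip (2 * η * j + C * 3) G := lip_of_fderiv hG1 fun t => (hG2 t).trans (by
        split_ifs
        · exact le_rfl
        · gcongr; positivity)
      have hLg : Lip (C * 3 + η) fun t => Ψ t * z t := lip_of_fderiv hg1 fun t => by
        linarith [hg2 t, hg3 t, hz2 t]
      refine ⟨fun t => Ψ t * ψ t, fun t => G t + s * (Ψ t * z t), insert k S, hΨ.mul hψ,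
        hz6.mono fun l hl => ?_, by rw [Finset.card_insert_of_notMem hk, hS],
        hG1.add (hg1.const_mul s), fun t => ?_, ?_⟩
      · push_cast
        linarith
      · rw [fderiv_fun_add (hG1 t) ((hg1 t).const_mul s), fderiv_const_mul (hg1 t)]
        refine (norm_add_le _ _).trans ?_
        rw [norm_smul, Real.norm_eq_abs, hs, one_mul]
        have h1 := hG2 t
        have h2 := hg2 t
        have h3 := hg3 t
        have h4 := hz2 t
        push_cast
        by_cases h5 : Ψ t = 0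
        · rw [if_pos h5] at h1
          rw [if_pos (by rw [h5, zero_mul])]
          rw [h5, zero_mul] at h2
          linarith
        · rw [if_neg h5] at h1
          by_cases h6 : ψ t = 0
          · rw [if_pos (by rw [h6, mul_zero])]
            linarith
          · rw [if_neg (mul_ne_zero h5 h6)]
            linarith [hz3 t h6]
      · rw [hδ.hat_eq (Φ := hat δ G + s • hat δ fun t => Ψ t * z t) fun t => ?_]
        · exact hW'
        · rw [_root_.add_apply, _root_.smul_apply, hδ.hat_apply (by positivity) hLG,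
            hδ.hat_apply (by positivity) hLg, smul_eq_mul]
          ring
  obtain ⟨Ψ, G, S, -, -, hS, hG1, hG2, hW⟩ := hind m le_rfl
  refine hm S _ hS (hδ.norm_hat_le (by positivity) (lip_of_fderiv hG1 fun t => (hG2 t).trans ?_)) hW
  have h1 : 2 * η * m = 2 := by rw [hη]; field_simp
  rw [h1]
  split_ifs
  · exact le_rfl
  · gcongr; positivity

end Pool.Agent.P.MP_ce7f50_an
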