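import Mathlib
import Pool.Agent.P.MP_ce7f50_an.FinDim

/-!
The free space over `ℓ_p`, `1 < p < ∞`, fails `DP`; hence it is not isomorphic to an `ℓ¹`-sum of
free spaces over finite-dimensional normed spaces.
-/

set_option autoImplicit false

open Filter Topology
open scoped ENNReal

namespace Pool.Agent.P.MP_ce7f50_an

variable {Y : Type*} [NormedAddCommGroup Y] [NormedSpace ℝ Y]

theorem IsFree.not_dp [CompleteSpace Y] {p : ℝ≥0∞} [Fact (1 ≤ p)] (hp₁ : 1 < p) (hp₂ : p ≠ ∞)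
    {δ : lp (fun _ : ℕ => ℝ) p → Y} (hδ : IsFree δ) : ¬ DP Y := by
  classical
  intro hDP
  have hq : 1 < p.toReal := by
    rw [← ENNReal.toReal_one]
    exact (ENNReal.toReal_lt_toReal ENNReal.one_ne_top hp₂).2 hp₁
  set q := p.toReal with hqdef
  have hp0 : 0 < p := zero_lt_one.trans hp₁
  let w : ℕ → lp (fun _ : ℕ => ℝ) p := fun k => lp.single p k ((1 / 2 : ℝ) ^ k)
  obtain ⟨y, hy1, hy2⟩ := exists_lift hδ.lip (w := w) fun k => by
    simp only [w]
    rw [lp.norm_single hp0, Real.norm_of_nonneg (by positivity)]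
  let ℓ : ℕ → StrongDual ℝ (lp (fun _ : ℕ => ℝ) p) := fun k => lp.evalCLM ℝ (fun _ : ℕ => ℝ) p k
  have hℓ : ∀ k t, ℓ k t = t k := fun k t => rfl
  have hlin : ∀ (g : StrongDual ℝ (lp (fun _ : ℕ => ℝ) p)) (L : ℝ), (∀ t, |g t| ≤ L * ‖t‖) →
      Lip L g := fun g L h s t => by rw [← map_sub]; exact h _
  have hℓ1 : ∀ k, Lip 1 (ℓ k) := fun k => hlin _ _ fun t => by
    rw [one_mul]; exact lp.norm_apply_le_norm hp0.ne' t k
  have hφ : ∀ k t, hat δ (ℓ k) (δ t) = ℓ k t := fun k t => by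
    rw [hδ.hat_apply zero_le_one (hℓ1 k), map_zero, sub_zero]
  have h1 : Sublin fun k => (2 : ℝ) ^ k • y k := by
    intro d hd
    have hev : ∀ᶠ m : ℕ in atTop, 1 ≤ m ∧ d ^ (-q) ≤ (m : ℝ) ^ (q - 1) :=
      (eventually_ge_atTop 1).and (((tendsto_rpow_atTop (by linarith : 0 < q - 1)).comp
        tendsto_natCast_atTop_atTop).eventually_ge_atTop _)
    obtain ⟨m, hm1, hm2⟩ := hev.exists
    have hm0 : (0 : ℝ) < m := by exact_mod_cast hm1
    refine ⟨m, hm1, fun S hS ε hε => ?_⟩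
    simp only [smul_smul]
    refine (hy1 S _).trans ?_
    have h2 : ∑ k ∈ S, (ε k * 2 ^ k) • w k = ∑ k ∈ S, lp.single p k (ε k) := by
      refine Finset.sum_congr rfl fun k _ => ?_
      simp only [w]
      rw [← lp.single_smul, smul_eq_mul, mul_assoc, ← mul_pow]
      norm_num
    rw [h2, ← Real.rpow_le_rpow_iff (norm_nonneg _) (by positivity) (by linarith : 0 < q),
      lp.norm_sum_single (by linarith) (E := fun _ : ℕ => ℝ) ε S]
    calc ∑ k ∈ S, ‖ε k‖ ^ q ≤ ∑ _k ∈ S, (1 : ℝ) :=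
          Finset.sum_le_sum fun k _ => Real.rpow_le_one (norm_nonneg _) (hε k) (by linarith)
      _ = d ^ q * (d ^ (-q) * m) := by
          rw [← mul_assoc, ← Real.rpow_add hd]
          simp [hS]
      _ ≤ d ^ q * ((m : ℝ) ^ (q - 1) * m) := by gcongr
      _ = (d * m) ^ q := by
          rw [Real.mul_rpow hd.le hm0.le, Real.rpow_sub_one hm0.ne', div_mul_cancel₀ _ hm0.ne']
  have h2 : Sublin fun k => hat δ (ℓ k) := by
    intro d hd
    obtain ⟨m, hm⟩ := exists_nat_gt (1 + (2 / d) ^ q * (2 / d))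
    have hm' : (1 : ℝ) < m := lt_of_le_of_lt (le_add_of_nonneg_right (by positivity)) hm
    refine ⟨m, by exact_mod_cast hm'.le, fun S hS ε hε => ?_⟩
    have h3 : ∑ k ∈ S, ε k • hat δ (ℓ k) = hat δ (∑ k ∈ S, ε k • ℓ k :) := by
      refine (hδ.hat_eq fun t => ?_).symm
      rw [map_zero, sub_zero, _root_.sum_apply, _root_.sum_apply]
      exact Finset.sum_congr rfl fun k _ => by rw [_root_.smul_apply, _root_.smul_apply, hφ]
    rw [h3]
    refine hδ.norm_hat_le (by positivity) (hlin _ _ fun t => ?_)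
    refine ((∑ k ∈ S, ε k • ℓ k).le_opNorm t).trans (mul_le_mul_of_nonneg_right ?_ (norm_nonneg _))
    refine ContinuousLinearMap.opNorm_le_of_unit_norm (by positivity) fun t ht => ?_
    have h4 : ∀ k, |t k| ≤ d / 2 + (2 / d) ^ q * ‖t k‖ ^ q := by
      intro k
      by_cases hk : |t k| ≤ d / 2
      · exact le_add_of_le_of_nonneg hk (by positivity)
      · have h5 : |t k| ≤ 1 := ht ▸ lp.norm_apply_le_norm hp0.ne' t k
        have h6 : 1 ≤ (2 / d * ‖t k‖) ^ q := by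
          refine Real.one_le_rpow ?_ (by linarith)
          rw [div_mul_eq_mul_div, le_div_iff₀ hd, Real.norm_eq_abs]
          linarith [not_le.1 hk]
        rw [Real.mul_rpow (by positivity) (norm_nonneg _)] at h6
        linarith
    have h7 := lp.sum_rpow_le_norm_rpow (by linarith : 0 < p.toReal) t S
    rw [ht, Real.one_rpow] at h7
    rw [_root_.sum_apply]
    calc ‖∑ k ∈ S, (ε k • ℓ k) t‖ ≤ ∑ k ∈ S, (d / 2 + (2 / d) ^ q * ‖t k‖ ^ q) := by
          refine (norm_sum_le _ _).trans (Finset.sum_le_sum fun k _ => le_trans ?_ (h4 k))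
          rw [_root_.smul_apply, norm_smul, hℓ]
          exact mul_le_of_le_one_left (norm_nonneg _) (hε k)
      _ = m * (d / 2) + (2 / d) ^ q * ∑ k ∈ S, ‖t k‖ ^ q := by
          rw [Finset.sum_add_distrib, Finset.mul_sum]
          simp [hS]
      _ ≤ m * (d / 2) + (2 / d) ^ q * 1 := by gcongr
      _ ≤ d * m := by
          have h8 : (2 / d) ^ q * (2 / d) * (d / 2) ≤ m * (d / 2) := by
            gcongr
            linarith
          have h9 : (2 / d) ^ q * (2 / d) * (d / 2) = (2 / d) ^ q := by field_simp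
          linarith
  obtain ⟨k, hk⟩ := (hDP _ _ h1 h2 1 one_pos).exists
  rw [map_smul, hy2 _ (ℓ k) (hφ k), hℓ] at hk
  simp only [w, lp.single_apply_self, smul_eq_mul, ← mul_pow] at hk
  norm_num at hk

theorem not_factor [CompleteSpace Y] {p : ℝ≥0∞} [Fact (1 ≤ p)] (hp₁ : 1 < p) (hp₂ : p ≠ ∞)
    {δ : lp (fun _ : ℕ => ℝ) p → Y} (hδ : IsFree δ)
    {E : ℕ → Type*} [∀ n, NormedAddCommGroup (E n)] [∀ n, NormedSpace ℝ (E n)]
    [∀ n, FiniteDimensional ℝ (E n)]
    {F : ℕ → Type*} [∀ n, NormedAddCommGroup (F n)] [∀ n, NormedSpace ℝ (F n)]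
    [∀ n, CompleteSpace (F n)] {δ' : ∀ n, E n → F n} (hδ' : ∀ n, IsFree (δ' n))
    (A : Y →L[ℝ] lp F 1) (B : lp F 1 →L[ℝ] Y) (hAB : ∀ y, B (A y) = y) : False :=
  hδ.not_dp hp₁ hp₂ ((DP.lp_one fun n => (hδ' n).dp).of_factor A B hAB)

end Pool.Agent.P.MP_ce7f50_an
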