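import Mathlib
import Pool.Agent.P.MP_ce7f50_an.FinDim

/-!
An averaged Dunford-Pettis type estimate for arrays in the free space over a finite-dimensional
normed space.
-/

set_option autoImplicit false

open Filter Topology

namespace Pool.Agent.P.MP_ce7f50_an

variable {E Y : Type*} [NormedAddCommGroup E] [NormedSpace ℝ E]
  [NormedAddCommGroup Y] [NormedSpace ℝ Y]

theorem sign_choice (G ψ : StrongDual ℝ Y) (y x : Y) :
    ∃ s : ℝ, |s| = 1 ∧ G y + ψ x ≤ (G + s • ψ) (y + s • x) := by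
  have key : ∀ s : ℝ, s * s = 1 → (G + s • ψ) (y + s • x) = G y + ψ x + s * (G x + ψ y) := by
    intro s hs
    simp only [_root_.add_apply, _root_.smul_apply, map_add, map_smul, smul_eq_mul]
    linear_combination (ψ x) * hs
  rcases le_total 0 (G x + ψ y) with h0 | h0
  · exact ⟨1, by simp, by rw [key 1 (by simp)]; linarith⟩
  · exact ⟨-1, by simp, by rw [key (-1) (by simp)]; linarith⟩

theorem overlap_fin {ι : Type*} [Fintype ι] {φ : ι → StrongDual ℝ Y} {C η M : ℝ}
    (hφ : ∀ ε : ι → ℝ, (∀ k, |ε k| ≤ 1) → ‖∑ k, ε k • φ k‖ ≤ C) {y : Y} (hy : ‖y‖ ≤ M)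
    (T : Finset ι) (hT : ∀ k ∈ T, η < |φ k y|) : T.card * η ≤ C * M := by
  classical
  have h1 := hφ (fun k => SignType.sign (φ k y)) (fun k => by
    rcases lt_trichotomy (φ k y) 0 with h | h | h <;> simp [h])
  have h2 : (∑ k, ((SignType.sign (φ k y) : SignType) : ℝ) • φ k) y = ∑ k, |φ k y| := by
    simp [sign_mul_self]
  have h3 : ∑ _k ∈ T, η ≤ ∑ k, |φ k y| :=
    (Finset.sum_le_sum fun k hk => (hT k hk).le).trans
      (Finset.sum_le_sum_of_subset_of_nonneg (Finset.subset_univ _) fun _ _ _ => abs_nonneg _)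
  have h4 : (∑ k, ((SignType.sign (φ k y) : SignType) : ℝ) • φ k) y ≤ C * M :=
    (le_abs_self _).trans <| (ContinuousLinearMap.le_opNorm _ _).trans <|
      mul_le_mul h1 hy (norm_nonneg _) ((norm_nonneg _).trans h1)
  rw [h2] at h4
  simp only [Finset.sum_const, nsmul_eq_mul] at h3
  linarith

variable [FiniteDimensional ℝ E]

variable (E Y) in
theorem overlap_fin_comp {C η : ℝ} (hη : 0 < η) : ∃ N : ℕ, ∀ (K : ℕ) (φ : Fin K → StrongDual ℝ Y),
    (∀ ε : Fin K → ℝ, (∀ k, |ε k| ≤ 1) → ‖∑ k, ε k • φ k‖ ≤ C) →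
    ∀ D : E →L[ℝ] Y, ‖D‖ ≤ 3 → ∀ T : Finset (Fin K), (∀ k ∈ T, η < ‖(φ k).comp D‖) →
      T.card ≤ N := by
  classical
  let v := Module.finBasis ℝ E
  obtain ⟨K₀, hK, hv⟩ := v.exists_opNorm_le (F := ℝ)
  obtain ⟨m, hm⟩ := exists_nat_gt (C * (3 * (∑ i, ‖v i‖)) / (η / K₀))
  refine ⟨Module.finrank ℝ E * m, fun K φ hφ D hD T hT => ?_⟩
  have hsub : T ⊆ Finset.univ.biUnion fun i => T.filter fun k => η / K₀ < |φ k (D (v i))| := by
    intro k hk
    by_contra hcon
    simp only [Finset.mem_biUnion, Finset.mem_univ, Finset.mem_filter, true_and, not_exists,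
      not_and, not_lt] at hcon
    have h1 := hv (u := (φ k).comp D) (M := η / K₀) (by positivity) fun i => hcon i hk
    have h2 : K₀ * (η / K₀) = η := by field_simp
    linarith [hT k hk]
  refine (Finset.card_le_card hsub).trans (Finset.card_biUnion_le.trans ?_)
  calc ∑ i, (T.filter fun k => η / K₀ < |φ k (D (v i))|).card
      ≤ ∑ _i : Fin (Module.finrank ℝ E), m := by
        refine Finset.sum_le_sum fun i _ => ?_
        have h1 : ‖v i‖ ≤ ∑ i, ‖v i‖ :=
          Finset.single_le_sum (f := fun i => ‖v i‖) (fun _ _ => norm_nonneg _) (Finset.mem_univ i)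
        have h2 := (D.le_opNorm (v i)).trans (mul_le_mul_of_nonneg_right hD (norm_nonneg _))
        have h3 := overlap_fin hφ (y := D (v i)) (M := 3 * (∑ i, ‖v i‖)) (by linarith)
          (T.filter fun k => η / K₀ < |φ k (D (v i))|) fun k hk => (Finset.mem_filter.1 hk).2
        rw [div_lt_iff₀ (by positivity)] at hm
        have h4 := lt_of_mul_lt_mul_right (h3.trans_lt hm) (by positivity)
        exact_mod_cast h4.le
    _ = Module.finrank ℝ E * m := by simp

theorem eventually_small' {δ : E → Y} (hδ : Lip 1 δ) {φ : ℕ → StrongDual ℝ Y} {C : ℝ}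
    (hC1 : 1 ≤ C) (hC : ∀ k, ‖φ k‖ ≤ C) (hφ : ∀ y, Tendsto (fun k => φ k y) atTop (𝓝 0))
    (R : ℝ) {η : ℝ} (hη : 0 < η) : ∀ᶠ k in atTop, ∀ t, ‖t‖ ≤ R → |φ k (δ t)| ≤ η := by
  obtain ⟨T, -, hT, hcov⟩ := (isCompact_closedBall (0 : E) R).finite_cover_balls
    (e := η / (2 * C)) (by positivity)
  have : ∀ᶠ k in atTop, ∀ s ∈ T, |φ k (δ s)| ≤ η / 2 :=
    (Filter.eventually_all_finite hT).2 fun s _ =>
      ((hφ (δ s)).abs.eventually (Iic_mem_nhds (by simpa using hη)))
  filter_upwards [this] with k hk t ht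
  obtain ⟨s, hs, hts⟩ := Set.mem_iUnion₂.1 (hcov (mem_closedBall_zero_iff.2 ht))
  have h1 := hδ.clm_comp (hC k) t s
  rw [Metric.mem_ball, dist_eq_norm] at hts
  have h2 : C * 1 * ‖t - s‖ ≤ η / 2 := by
    calc C * 1 * ‖t - s‖ ≤ C * 1 * (η / (2 * C)) := by gcongr
      _ = η / 2 := by field_simp
  have h3 := abs_add_le (φ k (δ t) - φ k (δ s)) (φ k (δ s))
  rw [sub_add_cancel] at h3
  rw [Real.norm_eq_abs] at h1
  linarith [hk s hs]

theorem IsFree.batch [CompleteSpace Y] {δ : E → Y} (hδ : IsFree δ) {C η κ : ℝ} (hC : 1 ≤ C)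
    (hη : 0 < η) (hκ : 0 < κ) : ∃ N : ℕ, ∀ (K : ℕ) (x : Fin K → ℕ → Y)
    (φ : Fin K → ℕ → StrongDual ℝ Y) (v : Fin K → ℝ),
    (∀ (k : Fin K → ℕ) (ε : Fin K → ℝ), (∀ α, |ε α| ≤ 1) → ‖∑ α, ε α • φ α (k α)‖ ≤ C) →
    (∀ α y, Tendsto (fun k => φ α k y) atTop (𝓝 0)) →
    (∀ α, ∃ᶠ k in atTop, v α ≤ φ α k (x α k)) → ∀ R₀ s : ℝ, 0 < R₀ → 0 < s →
    ∃ (k : Fin K → ℕ) (z ψ : Fin K → E → ℝ), (∀ α, ContDiff ℝ 1 (z α) ∧ Cut (ψ α) ∧
      (∀ t, ‖fderiv ℝ (z α) t‖ ≤ C * 3) ∧ (∀ t, ψ α t ≠ 0 → ‖fderiv ℝ (z α) t‖ ≤ η) ∧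
      (∀ t, ‖t‖ ≤ R₀ → |z α t| ≤ s) ∧ v α - κ ≤ hat δ (z α) (x α (k α))) ∧
      ∀ t, (K : ℝ) - N ≤ ∑ α, ψ α t := by
  classical
  obtain ⟨N, hN⟩ := overlap_fin_comp E Y (C := C) (η := η / 2) (by positivity)
  refine ⟨N, fun K x φ v h1 h2 h3 R₀ s hR₀ hs => ?_⟩
  have hφC : ∀ α k, ‖φ α k‖ ≤ C := fun α k => by
    have := h1 (fun _ => k) (fun β => if β = α then 1 else 0) (fun β => by split_ifs <;> simp)
    simpa [ite_smul] using this
  have hk := fun α => ((h3 α).and_eventually
    (eventually_small' hδ.lip hC (hφC α) (h2 α) R₀ (η := s / 2) (by positivity))).exists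
  choose k hk1 hk2 using hk
  have happ := fun α => hδ.approx (x α (k α)) hκ (L := C + C * 3) (by positivity)
  choose Rk rk hRk hrk happ using happ
  obtain ⟨r, hr, hr1, hr2⟩ : ∃ r : ℝ, 0 < r ∧ C * r ≤ s / 2 ∧ ∀ α, 2 * (C * r) ≤ rk α := by
    have h0 : ∀ᶠ r in 𝓝[>] (0 : ℝ), 0 < r := self_mem_nhdsWithin
    refine (h0.and (Filter.Eventually.filter_mono nhdsWithin_le_nhds (Eventually.and ?_ ?_))).exists
    · exact ((Continuous.continuousAt (by fun_prop)).eventually_lt continuousAt_const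
        (by simp; positivity)).mono fun r hr => hr.le
    · rw [Filter.eventually_all]
      intro α
      exact ((Continuous.continuousAt (by fun_prop)).eventually_lt continuousAt_const
        (by simpa using hrk α)).mono fun r hr => hr.le
  set R : ℝ := R₀ + ∑ α, Rk α with hRdef
  have hsum : 0 ≤ ∑ α, Rk α := Finset.sum_nonneg fun k _ => (hRk k).le
  have hR1 : R₀ ≤ R := by linarith
  have hR2 : ∀ α, Rk α ≤ R := fun α => by
    linarith [Finset.single_le_sum (f := Rk) (fun k _ => (hRk k).le) (Finset.mem_univ α)]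
  obtain ⟨Z, hZ1, hZ2, hZ3, hZ4⟩ := exists_smooth hδ.zero hδ.lip (R := R) (by linarith) hr
  let z : Fin K → E → ℝ := fun α t => φ α (k α) (Z t)
  have hz1 : ∀ α, ContDiff ℝ 2 (z α) := fun α => (φ α (k α)).contDiff.comp hZ1
  have hz2 : ∀ α, Lip (C * 3) (z α) := fun α => hZ3.clm_comp (hφC α _)
  have hz3 : ∀ α t, ‖t‖ ≤ R → |φ α (k α) (δ t) - z α t| ≤ C * r := fun α t ht => by
    rw [← map_sub]
    refine ((φ α _).le_opNorm _).trans (mul_le_mul (hφC α _) ?_ (norm_nonneg _) (by linarith))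
    rw [norm_sub_rev]; exact hZ4 t ht
  have hz5 : ∀ α t, fderiv ℝ (z α) t = (φ α (k α)).comp (fderiv ℝ Z t) := fun α t =>
    ((φ α _).hasFDerivAt.comp t (hZ1.differentiable two_ne_zero t).hasFDerivAt).fderiv
  let θ : ContDiffBump (0 : StrongDual ℝ E) := ⟨η / 2, η, by positivity, by linarith⟩
  let ψ : Fin K → E → ℝ := fun α t => θ (fderiv ℝ (z α) t)
  obtain ⟨R₁, hR₁, hZ0⟩ : ∃ R₁ : ℝ, 0 < R₁ ∧ ∀ t, R₁ < ‖t‖ → fderiv ℝ Z t = 0 := by
    obtain ⟨R₁, h1, h2⟩ := (hZ2.fderiv ℝ).isCompact.isBounded.subset_closedBall_lt 0 (0 : E)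
    refine ⟨R₁, h1, fun t ht => ?_⟩
    by_contra h
    have := h2 (subset_tsupport _ h)
    rw [mem_closedBall_zero_iff] at this
    linarith
  have hψ1 : ∀ α t, R₁ < ‖t‖ → ψ α t = 1 := fun α t ht => by
    apply θ.one_of_mem_closedBall
    rw [hz5, hZ0 t ht]
    simpa using θ.rIn_pos.le
  have hψ : ∀ α, Cut (ψ α) := fun α =>
    ⟨θ.contDiff.comp ((hz1 α).fderiv_right (m := 1) (by norm_num)), fun t => θ.nonneg,
      fun t => θ.le_one, R₁, hR₁, hψ1 α⟩
  refine ⟨k, z, ψ, fun α => ⟨(hz1 α).of_le (by norm_num), hψ α,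
    fun t => (hz2 α).norm_fderiv_le (by positivity) t, fun t ht => ?_, fun t ht => ?_, ?_⟩,
    fun t => ?_⟩
  · by_contra hcon
    exact ht (θ.zero_of_le_dist (by rw [dist_zero_right]; exact (not_le.1 hcon).le))
  · have h4 := hz3 α t (ht.trans hR1)
    have h5 := hk2 α t ht
    have h6 := abs_sub (φ α (k α) (δ t)) (φ α (k α) (δ t) - z α t)
    rw [sub_sub_cancel] at h6
    linarith
  · have h4 := happ α (φ α (k α) - hat δ (z α)) ((norm_sub_le _ _).trans
      (add_le_add (hφC α _) (hδ.norm_hat_le (by positivity) (hz2 α)))) (fun t ht => by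
        rw [_root_.sub_apply, hδ.hat_apply (by positivity) (hz2 α)]
        have h5 := hz3 α t (ht.trans (hR2 α))
        have h6 := hz3 α 0 (by rw [norm_zero]; linarith)
        rw [hδ.zero, map_zero] at h6
        have h7 := abs_sub (φ α (k α) (δ t) - z α t) (0 - z α 0)
        have h8 : φ α (k α) (δ t) - (z α t - z α 0) = φ α (k α) (δ t) - z α t - (0 - z α 0) := by
          ring
        rw [h8]
        linarith [hr2 α])
    rw [_root_.sub_apply] at h4
    linarith [hk1 α, (abs_le.1 h4).2]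
  · have h4 := hN K (fun α => φ α (k α)) (h1 k) (fderiv ℝ Z t)
      (hZ3.norm_fderiv_le (by norm_num) t)
      (Finset.univ.filter (fun α => η / 2 < ‖(φ α (k α)).comp (fderiv ℝ Z t)‖))
      fun k hk => (Finset.mem_filter.1 hk).2
    have h5 : ∑ α, (1 - ψ α t) = ∑ α ∈ Finset.univ.filter
        (fun α => η / 2 < ‖(φ α (k α)).comp (fderiv ℝ Z t)‖), (1 - ψ α t) := by
      refine (Finset.sum_filter_of_ne fun α _ hα => ?_).symm
      by_contra hcon
      apply hα
      have : ψ α t = 1 := by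
        apply θ.one_of_mem_closedBall
        rw [hz5, mem_closedBall_zero_iff]
        exact not_lt.1 hcon
      rw [this, sub_self]
    have h6 : ∑ α, (1 - ψ α t) ≤ N := by
      rw [h5]
      refine (Finset.sum_le_card_nsmul _ _ 1 fun α _ => ?_).trans ?_
      · linarith [(hψ α).nonneg t]
      · simpa using h4
    simp only [Finset.sum_sub_distrib, Finset.sum_const, Finset.card_univ, Fintype.card_fin,
      nsmul_eq_mul, mul_one] at h6
    linarith

omit [NormedSpace ℝ E] [FiniteDimensional ℝ E] in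
theorem IsFree.hat_sum {δ : E → Y} (hδ : IsFree δ) {ι : Type*} (S : Finset ι) {g : ι → E → ℝ}
    {L : ℝ} (hL : 0 ≤ L) (hg : ∀ i, Lip L (g i)) :
    hat δ (fun t => ∑ i ∈ S, g i t) = ∑ i ∈ S, hat δ (g i) :=
  hδ.hat_eq fun t => by
    rw [_root_.sum_apply, ← Finset.sum_sub_distrib]
    exact Finset.sum_congr rfl fun i _ => hδ.hat_apply hL (hg i) t

theorem IsFree.avgDP [CompleteSpace Y] {δ : E → Y} (hδ : IsFree δ) {C κ : ℝ} (hC : 1 ≤ C)
    (hκ : 0 < κ) {r : ℕ} (hr : 1 ≤ r) : ∃ K₀ : ℕ, ∀ K : ℕ, K₀ ≤ K → ∀ (x : ℕ → Fin K → ℕ → Y)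
    (φ : ℕ → Fin K → ℕ → StrongDual ℝ Y) (v : ℕ → Fin K → ℝ) (D : ℝ),
    (∀ a < r, ∀ α k, ‖x a α k‖ ≤ C) →
    (∀ a < r, ∀ (k : Fin K → ℕ) (ε : Fin K → ℝ), (∀ α, |ε α| ≤ 1) →
      ‖∑ α, ε α • φ a α (k α)‖ ≤ C) →
    (∀ a < r, ∀ α y, Tendsto (fun k => φ a α k y) atTop (𝓝 0)) →
    (∀ a < r, ∀ α, ∃ᶠ k in atTop, v a α ≤ φ a α k (x a α k)) →
    (∀ (n : ℕ → Fin K) (k : ℕ → ℕ) (ε : ℕ → ℝ), (∀ a, |ε a| ≤ 1) →
      ‖∑ a ∈ Finset.range r, ε a • x a (n a) (k a)‖ ≤ D) →
    ∑ a ∈ Finset.range r, ∑ α, v a α ≤ K * ((2 + C * 3) * D + C + r * κ) := by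
  classical
  have hr0 : (0 : ℝ) < r := by exact_mod_cast hr
  set η : ℝ := 1 / r with hη
  have hη0 : 0 < η := by positivity
  obtain ⟨N, hN⟩ := hδ.batch hC hη0 (κ := κ / 2) (by positivity)
  obtain ⟨K₀, hK₀⟩ := exists_nat_gt (C * 3 * C * (r * N) / (κ / 2))
  refine ⟨K₀ + 1, fun K hK x φ v D h1 h2 h3 h4 h5 => ?_⟩
  have hK0 : (0 : ℝ) < K := by exact_mod_cast (by omega : 0 < K)
  have hKK : C * 3 * C * (r * N / K) ≤ κ / 2 := by
    have : (K₀ : ℝ) ≤ K := by exact_mod_cast (by omega : K₀ ≤ K)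
    rw [div_lt_iff₀ (by positivity)] at hK₀
    rw [← mul_div_assoc, div_le_iff₀ hK0]
    nlinarith
  have hind : ∀ j : ℕ, j ≤ r → ∃ (ι : Type) (_ : Fintype ι) (_ : Nonempty ι) (Ψ G : ι → E → ℝ)
      (y : ι → Y), (∀ i, Cut (Ψ i) ∧ Differentiable ℝ (G i) ∧
        (∀ t, ‖fderiv ℝ (G i) t‖ ≤ 2 * η * j + if Ψ i t = 0 then C * 3 else 0) ∧
        ∃ (n : ℕ → Fin K) (k : ℕ → ℕ) (ε : ℕ → ℝ), (∀ a, |ε a| ≤ 1) ∧
          y i = ∑ a ∈ Finset.range j, ε a • x a (n a) (k a)) ∧
      (∀ t, Fintype.card ι * (1 - j * N / K : ℝ) ≤ ∑ i, Ψ i t) ∧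
      Fintype.card ι * ((∑ a ∈ Finset.range j, ∑ α, v a α) / K - j * (κ + η * C)) ≤
        ∑ i, hat δ (G i) (y i) := by
    intro j
    induction j with
    | zero =>
      exact fun _ => ⟨Unit, inferInstance, inferInstance, fun _ _ => 1, fun _ _ => 0, fun _ => 0,
        fun _ => ⟨cut_one, differentiable_const _, by simp, fun _ => ⟨0, by omega⟩, fun _ => 0,
          fun _ => 0, by simp, by simp⟩, by simp, by simp⟩
    | succ j ih =>
      intro hj
      obtain ⟨ι, _, _, Ψ, G, y, hi, hΨ, hval⟩ := ih (by omega)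
      choose hΨ1 hG1 hG2 n k₀ ε hε hy using hi
      have hbd := fun i => (hΨ1 i).exists_bound
      choose R' b' hR' hb' _ hc' hd' _ using hbd
      have hR0 : 0 < ∑ i, R' i := Finset.sum_pos (fun i _ => hR' i) Finset.univ_nonempty
      have hb0 : 0 < ∑ i, b' i := Finset.sum_pos (fun i _ => hb' i) Finset.univ_nonempty
      obtain ⟨k, z, ψ, hz, hψ⟩ := hN K (x j) (φ j) (v j) (h2 j hj) (h3 j hj) (h4 j hj)
        (∑ i, R' i) (η / ∑ i, b' i) hR0 (by positivity)
      choose hz1 hψ1 hz2 hz3 hz4 hz5 using hz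
      have hz4' : ∀ i α t, |z α t| * ‖fderiv ℝ (Ψ i) t‖ ≤ η := fun i α t => by
        by_cases ht : ‖t‖ ≤ ∑ i, R' i
        · calc |z α t| * ‖fderiv ℝ (Ψ i) t‖ ≤ (η / ∑ i, b' i) * ∑ i, b' i :=
              mul_le_mul (hz4 α t ht) ((hd' i t).trans (Finset.single_le_sum (f := b')
                (fun i _ => (hb' i).le) (Finset.mem_univ i))) (norm_nonneg _) (by positivity)
            _ = η := by field_simp
        · rw [hc' i t (lt_of_le_of_lt (Finset.single_le_sum (f := R') (fun i _ => (hR' i).le)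
            (Finset.mem_univ i)) (not_le.1 ht)), norm_zero, mul_zero]
          exact hη0.le
      have hd1 := fun i => (hΨ1 i).smooth.differentiable one_ne_zero
      have hd2 := fun α => (hz1 α).differentiable one_ne_zero
      have hg1 : ∀ i α, Differentiable ℝ fun t => Ψ i t * z α t := fun i α => (hd1 i).mul (hd2 α)
      have hg2 : ∀ i α t, ‖fderiv ℝ (fun t => Ψ i t * z α t) t‖ ≤
          Ψ i t * ‖fderiv ℝ (z α) t‖ + η := fun i α t => by
        rw [fderiv_fun_mul (hd1 i t) (hd2 α t)]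
        refine (norm_add_le _ _).trans (add_le_add ?_ ?_)
        · rw [norm_smul, Real.norm_of_nonneg ((hΨ1 i).nonneg t)]
        · rw [norm_smul]; exact hz4' i α t
      have hg3 : ∀ i α t, Ψ i t * ‖fderiv ℝ (z α) t‖ ≤ ‖fderiv ℝ (z α) t‖ := fun i α t =>
        mul_le_of_le_one_left (norm_nonneg _) ((hΨ1 i).le_one t)
      have hLG : ∀ i, Lip (2 * η * j + C * 3) (G i) := fun i =>
        lip_of_fderiv (hG1 i) fun t => (hG2 i t).trans (by
          split_ifs
          · exact le_rfl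
          · gcongr; positivity)
      have hLg : ∀ i α, Lip (C * 3 + η) fun t => Ψ i t * z α t := fun i α =>
        lip_of_fderiv (hg1 i α) fun t => by linarith [hg2 i α t, hg3 i α t, hz2 α t]
      have hs := fun i α => sign_choice (hat δ (G i)) (hat δ fun t => Ψ i t * z α t) (y i)
        (x j α (k α))
      choose s hs1 hs2 using hs
      -- the averaged value
      have havg : ∀ α, Fintype.card ι * (v j α - (κ + η * C)) ≤
          ∑ i, hat δ (fun t => Ψ i t * z α t) (x j α (k α)) := by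
        intro α
        have hq1 : ∀ i, Differentiable ℝ fun t => z α t - Ψ i t * z α t := fun i =>
          (hd2 α).sub (hg1 i α)
        have hq2 : ∀ i t, ‖fderiv ℝ (fun t => z α t - Ψ i t * z α t) t‖ ≤
            (1 - Ψ i t) * (C * 3) + η := fun i t => by
          rw [fderiv_fun_sub (hd2 α t) (hg1 i α t), fderiv_fun_mul (hd1 i t) (hd2 α t),
            ← sub_sub]
          refine (norm_sub_le _ _).trans (add_le_add ?_ ?_)
          · have : fderiv ℝ (z α) t - Ψ i t • fderiv ℝ (z α) t = (1 - Ψ i t) • fderiv ℝ (z α) t := by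
              rw [sub_smul, one_smul]
            rw [this, norm_smul, Real.norm_of_nonneg (by linarith [(hΨ1 i).le_one t])]
            exact mul_le_mul_of_nonneg_left (hz2 α t) (by linarith [(hΨ1 i).le_one t])
          · rw [norm_smul]; exact hz4' i α t
        have hq3 : ∀ i, Lip (C * 3 + η) fun t => z α t - Ψ i t * z α t := fun i =>
          lip_of_fderiv (hq1 i) fun t => (hq2 i t).trans (by nlinarith [(hΨ1 i).nonneg t])
        have hq4 : Lip (Fintype.card ι * (r * N / K * (C * 3) + η))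
            fun t => ∑ i, (z α t - Ψ i t * z α t) := by
          refine lip_of_fderiv (Differentiable.fun_sum fun i _ => hq1 i) fun t => ?_
          rw [fderiv_fun_sum fun i _ => hq1 i t]
          refine (norm_sum_le _ _).trans ((Finset.sum_le_sum fun i _ => hq2 i t).trans ?_)
          rw [Finset.sum_add_distrib, ← Finset.sum_mul, Finset.sum_sub_distrib]
          simp only [Finset.sum_const, Finset.card_univ, nsmul_eq_mul, mul_one]
          have h6 : (j : ℝ) * N / K ≤ r * N / K := by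
            gcongr
            omega
          have h7 := mul_le_mul_of_nonneg_left h6 (Nat.cast_nonneg (α := ℝ) (Fintype.card ι))
          nlinarith [hΨ t]
        have hq5 : (∑ i, hat δ fun t => z α t - Ψ i t * z α t) (x j α (k α)) ≤
            Fintype.card ι * (r * N / K * (C * 3) + η) * C := by
          rw [← hδ.hat_sum _ (by positivity) hq3]
          exact (le_abs_self _).trans <| (ContinuousLinearMap.le_opNorm _ _).trans <|
            mul_le_mul (hδ.norm_hat_le (by positivity) hq4) (h1 j hj α _) (norm_nonneg _)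
              (by positivity)
        have hq6 : ∀ i, (hat δ fun t => z α t - Ψ i t * z α t) =
            hat δ (z α) - hat δ fun t => Ψ i t * z α t := fun i => hδ.hat_eq fun t => by
          rw [_root_.sub_apply, hδ.hat_apply (by positivity) (hLg i α),
            hδ.hat_apply (by positivity) (lip_of_fderiv (hd2 α) (hz2 α))]
          ring
        rw [_root_.sum_apply] at hq5
        simp only [hq6, _root_.sub_apply, Finset.sum_sub_distrib,
          Finset.sum_const, Finset.card_univ, nsmul_eq_mul] at hq5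
        have h8 := mul_le_mul_of_nonneg_left (hz5 α) (Nat.cast_nonneg (α := ℝ) (Fintype.card ι))
        have h9 := mul_le_mul_of_nonneg_left hKK (Nat.cast_nonneg (α := ℝ) (Fintype.card ι))
        nlinarith
      refine ⟨ι × Fin K, inferInstance, ⟨(Classical.arbitrary ι, ⟨0, by omega⟩)⟩,
        fun i t => Ψ i.1 t * ψ i.2 t, fun i t => G i.1 t + s i.1 i.2 * (Ψ i.1 t * z i.2 t),
        fun i => y i.1 + s i.1 i.2 • x j i.2 (k i.2), ?_, fun t => ?_, ?_⟩
      · rintro ⟨i, α⟩
        refine ⟨(hΨ1 i).mul (hψ1 α), (hG1 i).add ((hg1 i α).const_mul _), fun t => ?_,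
          Function.update (n i) j α, Function.update (k₀ i) j (k α),
          Function.update (ε i) j (s i α), fun a => ?_, ?_⟩
        · simp only
          rw [fderiv_fun_add (hG1 i t) ((hg1 i α t).const_mul _), fderiv_const_mul (hg1 i α t)]
          refine (norm_add_le _ _).trans ?_
          rw [norm_smul, Real.norm_eq_abs, hs1, one_mul]
          have h1 := hG2 i t
          have h2 := hg2 i α t
          have h3 := hg3 i α t
          have h4 := hz2 α t
          push_cast
          by_cases h5 : Ψ i t = 0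
          · rw [if_pos h5] at h1
            rw [if_pos (by rw [h5, zero_mul])]
            rw [h5, zero_mul] at h2
            linarith
          · rw [if_neg h5] at h1
            by_cases h6 : ψ α t = 0
            · rw [if_pos (by rw [h6, mul_zero])]
              linarith
            · rw [if_neg (mul_ne_zero h5 h6)]
              linarith [hz3 α t h6]
        · by_cases ha : a = j
          · subst ha; simp [hs1]
          · simp [Function.update_of_ne ha, hε i a]
        · simp only [Finset.sum_range_succ, hy, Function.update_self]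
          congr 1
          refine Finset.sum_congr rfl fun a ha => ?_
          have : a ≠ j := (Finset.mem_range.1 ha).ne
          simp [Function.update_of_ne this]
      · rw [Fintype.sum_prod_type]
        simp only [← Finset.mul_sum, ← Finset.sum_mul, Fintype.card_prod, Fintype.card_fin]
        have h6 : 0 ≤ ∑ i, Ψ i t := Finset.sum_nonneg fun i _ => (hΨ1 i).nonneg t
        have h7 : ∑ i, Ψ i t ≤ Fintype.card ι := by
          simpa using Finset.sum_le_card_nsmul Finset.univ (fun i => Ψ i t) 1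
            fun i _ => (hΨ1 i).le_one t
        have h8 := mul_le_mul_of_nonneg_left (hψ t) h6
        have h9 := mul_le_mul_of_nonneg_left (hΨ t) hK0.le
        have h10 := mul_le_mul_of_nonneg_left h7 (Nat.cast_nonneg (α := ℝ) N)
        push_cast
        have h11 : (Fintype.card ι : ℝ) * K * (1 - (j + 1) * N / K) =
            K * (Fintype.card ι * (1 - j * N / K)) - N * Fintype.card ι := by field_simp; ring
        rw [h11]
        nlinarith
      · rw [Fintype.sum_prod_type_right]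
        have h6 : ∀ i α, hat δ (fun t => G i t + s i α * (Ψ i t * z α t)) =
            hat δ (G i) + s i α • hat δ fun t => Ψ i t * z α t := fun i α => hδ.hat_eq fun t => by
          rw [_root_.add_apply, _root_.smul_apply, hδ.hat_apply (by positivity) (hLG i),
            hδ.hat_apply (by positivity) (hLg i α), smul_eq_mul]
          ring
        simp only [h6]
        refine le_trans ?_ (Finset.sum_le_sum fun α _ => Finset.sum_le_sum fun i _ => hs2 i α)
        simp only [Finset.sum_add_distrib]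
        have h7 := Finset.sum_le_sum fun α (_ : α ∈ Finset.univ) => havg α
        rw [← Finset.mul_sum, Finset.sum_sub_distrib] at h7
        simp only [Finset.sum_const, Finset.card_univ, Fintype.card_fin, nsmul_eq_mul,
          Fintype.card_prod, Finset.sum_range_succ] at h7 ⊢
        have h9 := mul_le_mul_of_nonneg_left hval hK0.le
        push_cast
        have h11 : (Fintype.card ι : ℝ) * K * ((∑ a ∈ Finset.range j, ∑ α, v a α + ∑ α, v j α) / K
            - (j + 1) * (κ + η * C)) = K * (Fintype.card ι *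
            ((∑ a ∈ Finset.range j, ∑ α, v a α) / K - j * (κ + η * C))) +
            Fintype.card ι * (∑ α, v j α - K * (κ + η * C)) := by field_simp; ring
        rw [h11]
        linarith
  obtain ⟨ι, _, _, Ψ, G, y, hi, -, hval⟩ := hind r le_rfl
  have h6 : ∀ i, hat δ (G i) (y i) ≤ (2 + C * 3) * D := fun i => by
    obtain ⟨-, hG1, hG2, n, k, ε, hε, hy⟩ := hi i
    refine (le_abs_self _).trans <| (ContinuousLinearMap.le_opNorm _ _).trans <|
      mul_le_mul (hδ.norm_hat_le (by positivity) (lip_of_fderiv hG1 fun t => (hG2 t).trans ?_))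
        (hy ▸ h5 n k ε hε) (norm_nonneg _) (by positivity)
    have h1 : 2 * η * r = 2 := by rw [hη]; field_simp
    rw [h1]
    split_ifs
    · exact le_rfl
    · gcongr; positivity
  have h7 := hval.trans (Finset.sum_le_card_nsmul _ _ _ fun i _ => h6 i)
  rw [Finset.card_univ, nsmul_eq_mul] at h7
  have h8 := le_of_mul_le_mul_left h7 (by exact_mod_cast Fintype.card_pos)
  have h9 : r * (κ + η * C) = C + r * κ := by rw [hη]; field_simp; ring
  rw [sub_le_iff_le_add, div_le_iff₀ hK0, h9] at h8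
  linarith

end Pool.Agent.P.MP_ce7f50_an
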