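import Mathlib

/-!
Characters and Fourier coefficients on the infinite-dimensional torus.
-/

set_option autoImplicit false

open Filter Topology MeasureTheory ComplexConjugate

namespace Pool.Agent.P.MP_ce7f50_an

/-- The infinite-dimensional torus. -/
def Tor : Type := ℕ → Circle

noncomputable instance : CommGroup Tor := inferInstanceAs (CommGroup (ℕ → Circle))
noncomputable instance : TopologicalSpace Tor := inferInstanceAs (TopologicalSpace (ℕ → Circle))
instance : IsTopologicalGroup Tor := inferInstanceAs (IsTopologicalGroup (ℕ → Circle))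
instance : CompactSpace Tor := inferInstanceAs (CompactSpace (ℕ → Circle))
instance : T2Space Tor := inferInstanceAs (T2Space (ℕ → Circle))
instance : SecondCountableTopology Tor := inferInstanceAs (SecondCountableTopology (ℕ → Circle))
noncomputable instance : MeasurableSpace Tor := borel Tor
instance : BorelSpace Tor := ⟨rfl⟩

/-- The Haar probability measure. -/
noncomputable def haar : Measure Tor := Measure.haarMeasure ⊤

instance : haar.IsMulLeftInvariant := by unfold haar; infer_instance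

instance : IsProbabilityMeasure haar :=
  ⟨by simpa [haar] using Measure.haarMeasure_self (G := Tor) (K₀ := ⊤)⟩

theorem cont_integrable {V : Type*} [NormedAddCommGroup V] {f : Tor → V} (hf : Continuous f) :
    Integrable f haar :=
  hf.integrable_of_hasCompactSupport (HasCompactSupport.of_compactSpace f)

/-- The monomial with exponent `η`. -/
noncomputable def mon (η : ℕ →₀ ℕ) (ζ : ℕ → ℂ) : ℂ := η.prod fun n k => ζ n ^ k

theorem mon_add (η η' : ℕ →₀ ℕ) (ζ : ℕ → ℂ) : mon (η + η') ζ = mon η ζ * mon η' ζ :=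
  Finsupp.prod_add_index' (fun _ => pow_zero _) fun _ _ _ => pow_add _ _ _

theorem mon_zero (ζ : ℕ → ℂ) : mon 0 ζ = 1 := Finsupp.prod_zero_index

theorem mon_smul (p : ℕ) (η : ℕ →₀ ℕ) (ζ : ℕ → ℂ) : mon (p • η) ζ = mon η ζ ^ p := by
  induction p with
  | zero => simp [mon_zero]
  | succ p ih => rw [succ_nsmul, mon_add, ih, pow_succ]

theorem mon_single (n k : ℕ) (ζ : ℕ → ℂ) : mon (Finsupp.single n k) ζ = ζ n ^ k :=
  Finsupp.prod_single_index (pow_zero _)

theorem mon_mul (η : ℕ →₀ ℕ) (ζ ζ' : ℕ → ℂ) :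
    mon η (fun n => ζ n * ζ' n) = mon η ζ * mon η ζ' := by
  simp only [mon, mul_pow, Finsupp.prod_mul]

theorem norm_mon_le (η : ℕ →₀ ℕ) {ζ : ℕ → ℂ} (h : ∀ n, ‖ζ n‖ ≤ 1) : ‖mon η ζ‖ ≤ 1 := by
  rw [mon, Finsupp.prod, norm_prod]
  exact Finset.prod_le_one (fun _ _ => norm_nonneg _) fun n _ => by
    rw [norm_pow]; exact pow_le_one₀ (norm_nonneg _) (h n)

theorem norm_mul_sub_mul_le {a b c d : ℂ} (hb : ‖b‖ ≤ 1) (hc : ‖c‖ ≤ 1) :
    ‖a * b - c * d‖ ≤ ‖a - c‖ + ‖b - d‖ := by
  have : a * b - c * d = (a - c) * b + c * (b - d) := by ring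
  rw [this]
  refine (norm_add_le _ _).trans (add_le_add ?_ ?_)
  · rw [norm_mul]; exact mul_le_of_le_one_right (norm_nonneg _) hb
  · rw [norm_mul]; exact mul_le_of_le_one_left (norm_nonneg _) hc

theorem norm_pow_sub_le {a b : ℂ} (ha : ‖a‖ ≤ 1) (hb : ‖b‖ ≤ 1) (k : ℕ) :
    ‖a ^ k - b ^ k‖ ≤ k * ‖a - b‖ := by
  induction k with
  | zero => simp
  | succ k ih =>
    rw [pow_succ, pow_succ]
    refine (norm_mul_sub_mul_le ha (by rw [norm_pow]; exact pow_le_one₀ (norm_nonneg _) hb)).trans ?_
    push_cast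
    linarith

theorem norm_mon_sub_le (η : ℕ →₀ ℕ) {ζ ζ' : ℕ → ℂ} (h : ∀ n, ‖ζ n‖ ≤ 1) (h' : ∀ n, ‖ζ' n‖ ≤ 1)
    {S : Finset ℕ} (hS : η.support ⊆ S) :
    ‖mon η ζ - mon η ζ'‖ ≤ ∑ n ∈ S, η n * ‖ζ n - ζ' n‖ := by
  have key : ∀ S : Finset ℕ, ‖∏ n ∈ S, ζ n ^ η n - ∏ n ∈ S, ζ' n ^ η n‖ ≤
      ∑ n ∈ S, η n * ‖ζ n - ζ' n‖ := by
    intro S
    induction S using Finset.induction_on with
    | empty => simp
    | insert n S hn ih =>
      rw [Finset.prod_insert hn, Finset.prod_insert hn, Finset.sum_insert hn]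
      refine (norm_mul_sub_mul_le ?_ ?_).trans (add_le_add (norm_pow_sub_le (h n) (h' n) _) ih)
      · rw [norm_prod]
        exact Finset.prod_le_one (fun _ _ => norm_nonneg _) fun n _ => by
          rw [norm_pow]; exact pow_le_one₀ (norm_nonneg _) (h n)
      · rw [norm_pow]; exact pow_le_one₀ (norm_nonneg _) (h' n)
  exact (key _).trans (Finset.sum_le_sum_of_subset_of_nonneg hS fun _ _ _ => by positivity)

/-- The coordinates of a point of the torus. -/
def Tor.co (y : Tor) (n : ℕ) : ℂ := ((y : ℕ → Circle) n : ℂ)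

theorem norm_co (y : Tor) (n : ℕ) : ‖y.co n‖ = 1 := Circle.norm_coe _

theorem co_mul (y y' : Tor) (n : ℕ) : (y * y').co n = y.co n * y'.co n := rfl

theorem continuous_co (n : ℕ) : Continuous fun y : Tor => y.co n :=
  continuous_subtype_val.comp (continuous_apply (A := fun _ : ℕ => Circle) n)

/-- The character with exponent `η`. -/
noncomputable def chi (η : ℕ →₀ ℕ) (y : Tor) : ℂ := mon η y.co

theorem chi_mul (η : ℕ →₀ ℕ) (y y' : Tor) : chi η (y * y') = chi η y * chi η y' :=
  mon_mul η y.co y'.co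

theorem norm_chi (η : ℕ →₀ ℕ) (y : Tor) : ‖chi η y‖ = 1 := by
  simp [chi, mon, Finsupp.prod, norm_co]

theorem chi_mul_conj (η : ℕ →₀ ℕ) (y : Tor) : chi η y * conj (chi η y) = 1 := by
  rw [Complex.mul_conj, Complex.normSq_eq_norm_sq, norm_chi]; simp

theorem continuous_chi (η : ℕ →₀ ℕ) : Continuous (chi η) :=
  continuous_finsetProd _ fun n _ => (continuous_co n).pow _

/-- Rotation of the `n`-th coordinate by the angle `t`. -/
noncomputable def rot (n : ℕ) (t : ℝ) : Tor := Pi.mulSingle (M := fun _ : ℕ => Circle) n (Circle.exp t)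

theorem co_rot (n : ℕ) (t : ℝ) (m : ℕ) :
    (rot n t).co m = if m = n then Complex.exp (t * Complex.I) else 1 := by
  unfold Tor.co rot
  split_ifs with h
  · subst h; simp
  · simp [Pi.mulSingle_eq_of_ne h]

theorem chi_rot (η : ℕ →₀ ℕ) (n : ℕ) (t : ℝ) :
    chi η (rot n t) = Complex.exp (t * (η n * Complex.I)) := by
  rw [chi, mon, Finsupp.prod, Finset.prod_eq_single n]
  · rw [co_rot, if_pos rfl, ← Complex.exp_nat_mul]; congr 1; ring
  · intro m _ hm; rw [co_rot, if_neg hm, one_pow]
  · intro h; rw [Finsupp.notMem_support_iff.1 h, pow_zero]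

/-- Fourier coefficient. -/
noncomputable def coef (η : ℕ →₀ ℕ) (f : Tor → ℂ) : ℂ := ∫ y, conj (chi η y) * f y ∂haar

theorem continuous_conj_chi (η : ℕ →₀ ℕ) : Continuous fun y => conj (chi η y) :=
  Complex.continuous_conj.comp (continuous_chi η)

theorem coef_shift (η : ℕ →₀ ℕ) (f : Tor → ℂ) (τ : Tor) :
    (coef η fun y => f (τ * y)) = chi η τ * coef η f := by
  unfold coef
  rw [← integral_mul_left_eq_self (fun y => conj (chi η y) * f y) τ, ← integral_const_mul]
  congr 1; funext y
  rw [chi_mul, map_mul, ← mul_assoc, ← mul_assoc, chi_mul_conj, one_mul]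

theorem coef_chi (η η' : ℕ →₀ ℕ) : coef η (chi η') = if η = η' then 1 else 0 := by
  split_ifs with h
  · subst h
    simp [coef, mul_comm, chi_mul_conj]
  · obtain ⟨n, hn⟩ : ∃ n, η n ≠ η' n := by
      by_contra hcon
      push Not at hcon
      exact h (Finsupp.ext hcon)
    have hn' : ((η n : ℝ) - η' n) ≠ 0 := sub_ne_zero.2 (by exact_mod_cast hn)
    set t : ℝ := Real.pi / ((η n : ℝ) - η' n) with ht
    have h1 := coef_shift η (chi η') (rot n t)
    have h2 : (coef η fun y => chi η' (rot n t * y)) = chi η' (rot n t) * coef η (chi η') := by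
      unfold coef
      rw [← integral_const_mul]
      congr 1; funext y
      simp only [chi_mul]; ring
    have h3 : chi η (rot n t) = -chi η' (rot n t) := by
      rw [chi_rot, chi_rot, ← mul_neg_one, ← Complex.exp_pi_mul_I, ← Complex.exp_add]
      congr 1
      have : (Real.pi : ℂ) = t * ((η n : ℂ) - η' n) := by
        have : Real.pi = t * ((η n : ℝ) - η' n) := by rw [ht]; field_simp
        exact_mod_cast congrArg (fun r : ℝ => (r : ℂ)) this
      rw [this]; ring
    have h4 : chi η' (rot n t) ≠ 0 := fun h0 => by simpa [h0] using norm_chi η' (rot n t)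
    rw [h2, h3] at h1
    have h5 : chi η' (rot n t) * coef η (chi η') = 0 := by linear_combination h1 / 2
    exact (mul_eq_zero.1 h5).resolve_left h4

theorem deriv_bound {ι : Type*} (S : Finset ι) (η : ι → ℕ →₀ ℕ) {f : ι → Tor → ℂ}
    (hf : ∀ i, Continuous (f i)) (n : ℕ) {k : Tor → ℝ} (hk : Continuous k) (hk0 : ∀ y, 0 ≤ k y)
    (h : ∀ (t : ℝ) (y : Tor), ‖∑ i ∈ S, conj (chi (η i) y) * (f i (rot n t * y) - f i y)‖ ≤
      k y * |t|) : ‖∑ i ∈ S, (η i n : ℂ) * coef (η i) (f i)‖ ≤ ∫ y, k y ∂haar := by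
  have h1 : HasDerivAt (fun t : ℝ => ∑ i ∈ S, Complex.exp (t * (η i n * Complex.I)) *
      coef (η i) (f i)) (∑ i ∈ S, (η i n * Complex.I) * coef (η i) (f i)) 0 := by
    refine HasDerivAt.fun_sum fun i _ => HasDerivAt.mul_const ?_ _
    simpa using ((Complex.ofRealCLM.hasDerivAt (x := 0)).mul_const (η i n * Complex.I)).cexp
  have h2 := h1.le_of_lip' (C := ∫ y, k y ∂haar) (integral_nonneg hk0)
    (Eventually.of_forall fun t => by
      have h3 : ∑ i ∈ S, Complex.exp (t * (η i n * Complex.I)) * coef (η i) (f i) -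
          ∑ i ∈ S, Complex.exp ((0 : ℝ) * (η i n * Complex.I)) * coef (η i) (f i) =
          ∫ y, ∑ i ∈ S, conj (chi (η i) y) * (f i (rot n t * y) - f i y) ∂haar := by
        have i1 : ∀ i, Integrable (fun y => conj (chi (η i) y) * f i (rot n t * y)) haar :=
          fun i => cont_integrable ((continuous_conj_chi _).mul
            ((hf i).comp (continuous_const_mul _)))
        have i2 : ∀ i, Integrable (fun y => conj (chi (η i) y) * f i y) haar :=
          fun i => cont_integrable ((continuous_conj_chi _).mul (hf i))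
        simp only [mul_sub]
        rw [integral_finsetSum (f := fun i y => conj (chi (η i) y) * f i (rot n t * y) -
          conj (chi (η i) y) * f i y) _ fun i _ => (i1 i).sub (i2 i), ← Finset.sum_sub_distrib]
        refine Finset.sum_congr rfl fun i _ => ?_
        rw [integral_sub (i1 i) (i2 i), ← chi_rot, ← coef_shift]
        simp [coef]
      rw [h3, sub_zero, ← integral_mul_const]
      exact norm_integral_le_of_norm_le (cont_integrable (hk.mul continuous_const))
        (Eventually.of_forall fun y => h t y))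
  have h4 : ∑ i ∈ S, (η i n * Complex.I) * coef (η i) (f i) =
      Complex.I * ∑ i ∈ S, (η i n : ℂ) * coef (η i) (f i) := by
    rw [Finset.mul_sum]
    exact Finset.sum_congr rfl fun i _ => by ring
  rwa [h4, norm_mul, Complex.norm_I, one_mul] at h2

theorem l1_bound {ι : Type*} (S : Finset ι) {η : ι → ℕ →₀ ℕ} (hη : Set.InjOn η S) {ε : ι → ℝ}
    (hε : ∀ i, |ε i| ≤ 1) :
    ∫ y, ‖∑ i ∈ S, conj (chi (η i) y) * (ε i : ℂ)‖ ∂haar ≤ √S.card := by
  classical
  rcases S.eq_empty_or_nonempty with rfl | hS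
  · simp
  have hs : (0 : ℝ) < √S.card := Real.sqrt_pos.2 (by exact_mod_cast hS.card_pos)
  set s : ℝ := √S.card with hs'
  have hss : s * s = S.card := Real.mul_self_sqrt (by positivity)
  let g : Tor → ℂ := fun y => ∑ i ∈ S, conj (chi (η i) y) * (ε i : ℂ)
  have hg : Continuous g := continuous_finsetSum _ fun i _ =>
    (continuous_conj_chi _).mul continuous_const
  have h1 : ∫ y, ‖g y‖ ^ 2 ∂haar ≤ S.card := by
    have h2 : ((∫ y, ‖g y‖ ^ 2 ∂haar : ℝ) : ℂ) = ((∑ i ∈ S, ε i ^ 2 : ℝ) : ℂ) := by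
      rw [← integral_complex_ofReal]
      have h3 : ∀ y, ((‖g y‖ ^ 2 : ℝ) : ℂ) =
          ∑ i ∈ S, ∑ j ∈ S, (ε i : ℂ) * ε j * (conj (chi (η i) y) * chi (η j) y) := by
        intro y
        rw [← Complex.normSq_eq_norm_sq, ← Complex.mul_conj]
        simp only [g, map_sum, map_mul, Complex.conj_conj, Complex.conj_ofReal, Finset.sum_mul_sum]
        exact Finset.sum_congr rfl fun i _ => Finset.sum_congr rfl fun j _ => by ring
      have h4 : ∀ i j, Integrable (fun y => (ε i : ℂ) * ε j * (conj (chi (η i) y) * chi (η j) y))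
          haar := fun i j =>
        cont_integrable (continuous_const.mul ((continuous_conj_chi _).mul (continuous_chi _)))
      simp only [h3]
      rw [integral_finsetSum _ fun i _ => integrable_finsetSum _ fun j _ => h4 i j]
      push_cast
      refine Finset.sum_congr rfl fun i hi => ?_
      rw [integral_finsetSum _ fun j _ => h4 i j, Finset.sum_eq_single i]
      · rw [integral_const_mul]
        have := coef_chi (η i) (η i)
        rw [if_pos rfl, coef] at this
        rw [this]; ring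
      · intro j hj hji
        rw [integral_const_mul]
        have := coef_chi (η i) (η j)
        rw [if_neg fun h => hji (hη hi hj h).symm, coef] at this
        rw [this, mul_zero]
      · intro h; exact absurd hi h
    rw [Complex.ofReal_inj.1 h2]
    simpa using Finset.sum_le_card_nsmul S (fun i => ε i ^ 2) 1 fun i _ => by
      rw [← sq_abs]; exact pow_le_one₀ (abs_nonneg _) (hε i)
  calc ∫ y, ‖g y‖ ∂haar ≤ ∫ y, (‖g y‖ ^ 2 / (2 * s) + s / 2) ∂haar := by
        refine integral_mono (cont_integrable hg.norm) (cont_integrable (by fun_prop)) fun y => ?_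
        have : ‖g y‖ ^ 2 / (2 * s) + s / 2 - ‖g y‖ = (‖g y‖ - s) ^ 2 / (2 * s) := by
          field_simp; ring
        have h5 : 0 ≤ (‖g y‖ - s) ^ 2 / (2 * s) := by positivity
        simp only
        linarith
    _ = (∫ y, ‖g y‖ ^ 2 ∂haar) / (2 * s) + s / 2 := by
        rw [integral_add (cont_integrable (by fun_prop)) (integrable_const _), integral_div]
        simp
    _ ≤ (s * s) / (2 * s) + s / 2 := by rw [hss]; gcongr
    _ = s := by field_simp; ring

end Pool.Agent.P.MP_ce7f50_an
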