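import Mathlib
import Pool.Agent.P.MP_ce7f50_an.Smooth
import Pool.Agent.P.MP_ce7f50_an.OneTorus

/-!
The torus inside `ℓ₁`, and Lipschitz extensions of its characters.
-/

set_option autoImplicit false

open Filter Topology MeasureTheory ComplexConjugate

namespace Pool.Agent.P.MP_ce7f50_an

/-- Radial retraction on the closed unit disc. -/
noncomputable def clamp (z : ℂ) : ℂ := ((max 1 ‖z‖)⁻¹ : ℝ) * z

theorem norm_clamp_le (z : ℂ) : ‖clamp z‖ ≤ 1 := by
  have h : (0 : ℝ) < max 1 ‖z‖ := lt_of_lt_of_le one_pos (le_max_left _ _)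
  rw [clamp, norm_mul, Complex.norm_real, Real.norm_of_nonneg (by positivity), inv_mul_le_iff₀ h,
    mul_one]
  exact le_max_right _ _

theorem clamp_of_le {z : ℂ} (h : ‖z‖ ≤ 1) : clamp z = z := by
  simp [clamp, max_eq_left h]

theorem clamp_lip (z w : ℂ) : ‖clamp z - clamp w‖ ≤ 2 * ‖z - w‖ := by
  set a : ℝ := max 1 ‖z‖ with ha
  set b : ℝ := max 1 ‖w‖ with hb
  have ha1 : 1 ≤ a := le_max_left _ _
  have hb1 : 1 ≤ b := le_max_left _ _
  have h1 : |b - a| ≤ ‖z - w‖ := by
    refine (abs_max_sub_max_le_max _ _ _ _).trans (max_le (by simp) ?_)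
    rw [norm_sub_rev]; exact abs_norm_sub_norm_le w z
  have h2 : clamp z - clamp w = (a⁻¹ : ℝ) * ((z - w) + ((b - a : ℝ) : ℂ) * clamp w) := by
    have ha0 : (a : ℂ) ≠ 0 := by exact_mod_cast (by linarith : a ≠ 0)
    have hb0 : (b : ℂ) ≠ 0 := by exact_mod_cast (by linarith : b ≠ 0)
    simp only [clamp, ← ha, ← hb]
    push_cast
    field_simp
    ring
  rw [h2, norm_mul, Complex.norm_real, Real.norm_of_nonneg (by positivity)]
  have h3 := norm_add_le (z - w) (((b - a : ℝ) : ℂ) * clamp w)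
  rw [norm_mul, Complex.norm_real, Real.norm_eq_abs] at h3
  have h4 := mul_le_of_le_one_right (abs_nonneg (b - a)) (norm_clamp_le w)
  exact (mul_le_of_le_one_left (norm_nonneg _) (inv_le_one_of_one_le₀ ha1)).trans (by linarith)

/-- The space `ℓ₁`. -/
abbrev L1 : Type := lp (fun _ : ℕ => ℝ) 1

/-- Coordinates in the polydisc. -/
noncomputable def zeta (x : L1) (n : ℕ) : ℂ :=
  clamp (2 ^ n * ((x (2 * n) : ℝ) + (x (2 * n + 1) : ℝ) * Complex.I))

theorem norm_zeta_le (x : L1) (n : ℕ) : ‖zeta x n‖ ≤ 1 := norm_clamp_le _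

theorem zeta_lip (x x' : L1) (n : ℕ) : ‖zeta x n - zeta x' n‖ ≤
    2 * (2 ^ n * (‖(x - x') (2 * n)‖ + ‖(x - x') (2 * n + 1)‖)) := by
  refine (clamp_lip _ _).trans ?_
  have : (2 : ℂ) ^ n * ((x (2 * n) : ℝ) + (x (2 * n + 1) : ℝ) * Complex.I) -
      2 ^ n * ((x' (2 * n) : ℝ) + (x' (2 * n + 1) : ℝ) * Complex.I) =
      2 ^ n * ((((x - x') (2 * n) : ℝ) : ℂ) + (((x - x') (2 * n + 1) : ℝ) : ℂ) * Complex.I) := by
    simp only [lp.coeFn_sub, Pi.sub_apply]
    push_cast
    ring
  rw [this, norm_mul, norm_pow, Complex.norm_two]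
  gcongr
  refine (norm_add_le _ _).trans ?_
  rw [norm_mul, Complex.norm_I, mul_one, Complex.norm_real, Complex.norm_real]

theorem sum_pair_le (u : L1) (S : Finset ℕ) :
    ∑ n ∈ S, (‖u (2 * n)‖ + ‖u (2 * n + 1)‖) ≤ ‖u‖ := by
  obtain ⟨M, hM⟩ := S.exists_nat_subset_range
  have h1 : ∀ M : ℕ, ∑ n ∈ Finset.range M, (‖u (2 * n)‖ + ‖u (2 * n + 1)‖) =
      ∑ k ∈ Finset.range (2 * M), ‖u k‖ := by
    intro M
    induction M with
    | zero => simp
    | succ M ih =>
      rw [Finset.sum_range_succ, ih, Nat.mul_succ, Finset.sum_range_succ, Finset.sum_range_succ,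
        add_assoc]
  refine (Finset.sum_le_sum_of_subset_of_nonneg hM fun _ _ _ => by positivity).trans ?_
  rw [h1]
  simpa using lp.sum_rpow_le_norm_rpow (p := 1) (by simp) u (Finset.range (2 * M))

theorem lip_comb {ι : Type*} (S : Finset ι) (b : ι → ℂ) (η : ι → ℕ →₀ ℕ) {L : ℝ}
    (h : ∀ n, ∑ i ∈ S, ‖b i‖ * (η i n * 2 ^ n) ≤ L) :
    Lip (2 * L) fun x : L1 => ∑ i ∈ S, b i * mon (η i) (zeta x) := by
  classical
  intro x x'
  have hL : 0 ≤ L := le_trans (Finset.sum_nonneg fun _ _ => by positivity) (h 0)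
  set T := S.biUnion fun i => (η i).support with hT
  rw [← Finset.sum_sub_distrib]
  calc ‖∑ i ∈ S, (b i * mon (η i) (zeta x) - b i * mon (η i) (zeta x'))‖
      ≤ ∑ i ∈ S, ∑ n ∈ T, ‖b i‖ * (η i n * 2 ^ n) *
          (2 * (‖(x - x') (2 * n)‖ + ‖(x - x') (2 * n + 1)‖)) := by
        refine (norm_sum_le _ _).trans (Finset.sum_le_sum fun i hi => ?_)
        rw [← mul_sub, norm_mul]
        refine (mul_le_mul_of_nonneg_left (norm_mon_sub_le (η i) (norm_zeta_le x) (norm_zeta_le x')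
          (S := T) (Finset.subset_biUnion_of_mem (fun i => (η i).support) hi))
          (norm_nonneg _)).trans ?_
        rw [Finset.mul_sum]
        refine Finset.sum_le_sum fun n _ => ?_
        calc ‖b i‖ * (η i n * ‖zeta x n - zeta x' n‖) ≤ ‖b i‖ * (η i n *
              (2 * (2 ^ n * (‖(x - x') (2 * n)‖ + ‖(x - x') (2 * n + 1)‖)))) := by
              gcongr; exact zeta_lip x x' n
          _ = _ := by ring
    _ ≤ ∑ n ∈ T, L * (2 * (‖(x - x') (2 * n)‖ + ‖(x - x') (2 * n + 1)‖)) := by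
        rw [Finset.sum_comm]
        refine Finset.sum_le_sum fun n _ => ?_
        rw [← Finset.sum_mul]
        exact mul_le_mul_of_nonneg_right (h n) (by positivity)
    _ ≤ 2 * L * ‖x - x'‖ := by
        rw [← Finset.mul_sum, ← Finset.mul_sum]
        nlinarith [sum_pair_le (x - x') T]

theorem lip_mon (η : ℕ →₀ ℕ) {L : ℝ} (h : ∀ n, (η n : ℝ) * 2 ^ n ≤ L) :
    Lip (2 * L) fun x : L1 => mon η (zeta x) := by
  simpa using lip_comb {()} (fun _ => 1) (fun _ => η) (L := L) (by simpa using h)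

theorem exists_lip_mon (η : ℕ →₀ ℕ) : ∃ L, 0 ≤ L ∧ Lip L fun x : L1 => mon η (zeta x) := by
  refine ⟨_, by positivity, lip_mon η (L := ∑ n ∈ η.support, (η n : ℝ) * 2 ^ n) fun n => ?_⟩
  by_cases hn : n ∈ η.support
  · exact Finset.single_le_sum (f := fun n => (η n : ℝ) * 2 ^ n) (fun _ _ => by positivity) hn
  · rw [Finsupp.notMem_support_iff.1 hn, Nat.cast_zero, zero_mul]
    positivity

/-- Coordinates of the embedding of the torus. -/
noncomputable def iotaF (y : Tor) (k : ℕ) : ℝ :=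
  (1 / 2) ^ (k / 2) * if k % 2 = 0 then (y.co (k / 2)).re else (y.co (k / 2)).im

theorem iotaF_even (y : Tor) (n : ℕ) : iotaF y (2 * n) = (1 / 2) ^ n * (y.co n).re := by
  simp [iotaF]

theorem iotaF_odd (y : Tor) (n : ℕ) : iotaF y (2 * n + 1) = (1 / 2) ^ n * (y.co n).im := by
  have h1 : (2 * n + 1) / 2 = n := by omega
  simp [iotaF, h1]

theorem norm_iotaF_le (y : Tor) (k : ℕ) : ‖iotaF y k‖ ≤ (1 / 2) ^ (k / 2) := by
  rw [iotaF, norm_mul, Real.norm_of_nonneg (by positivity)]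
  refine mul_le_of_le_one_right (by positivity) ?_
  split_ifs
  · exact (Complex.abs_re_le_norm _).trans (norm_co _ _).le
  · exact (Complex.abs_im_le_norm _).trans (norm_co _ _).le

theorem summable_half : Summable fun k : ℕ => (1 / 2 : ℝ) ^ (k / 2) := by
  refine Summable.even_add_odd ?_ ?_
  · simpa using summable_geometric_two
  · have : ∀ n : ℕ, (2 * n + 1) / 2 = n := fun n => by omega
    simpa [this] using summable_geometric_two

/-- The embedding of the torus in `ℓ₁`. -/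
noncomputable def iota (y : Tor) : L1 :=
  ⟨iotaF y, memℓp_gen (by
    simpa using Summable.of_nonneg_of_le (fun _ => norm_nonneg _) (norm_iotaF_le y) summable_half)⟩

theorem iota_apply (y : Tor) (k : ℕ) : iota y k = iotaF y k := rfl

theorem zeta_iota (y : Tor) : zeta (iota y) = y.co := by
  funext n
  have : (2 : ℂ) ^ n * ((iota y (2 * n) : ℝ) + (iota y (2 * n + 1) : ℝ) * Complex.I) = y.co n := by
    rw [iota_apply, iota_apply, iotaF_even, iotaF_odd]
    push_cast
    rw [mul_assoc, ← mul_add, Complex.re_add_im, ← mul_assoc, ← mul_pow]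
    simp
  rw [zeta, this, clamp_of_le (norm_co y n).le]

theorem continuous_iota : Continuous iota := by
  have h1 : iota = fun y => ∑' k, (lp.single 1 k (iotaF y k) : L1) :=
    funext fun y => (lp.hasSum_single (by simp) (iota y)).tsum_eq.symm
  rw [h1]
  refine continuous_tsum (fun k => ?_) summable_half fun k y => ?_
  · refine (lp.singleContinuousLinearMap ℝ (fun _ : ℕ => ℝ) 1 k).continuous.comp ?_
    unfold iotaF
    split_ifs
    · exact continuous_const.mul (Complex.continuous_re.comp (continuous_co _))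
    · exact continuous_const.mul (Complex.continuous_im.comp (continuous_co _))
  · rw [lp.norm_single one_pos]; exact norm_iotaF_le y k

theorem iota_rot (n : ℕ) (t : ℝ) (y : Tor) :
    ‖iota (rot n t * y) - iota y‖ ≤ 2 * (1 / 2) ^ n * |t| := by
  set d : ℂ := (rot n t * y).co n - y.co n with hd
  have h1 : ‖d‖ ≤ |t| := by
    rw [hd, co_mul, co_rot, if_pos rfl, ← sub_one_mul, norm_mul, norm_co, mul_one, mul_comm]
    exact Real.norm_exp_I_mul_ofReal_sub_one_le
  have h2 : iota (rot n t * y) - iota y = (lp.single 1 (2 * n) ((1 / 2) ^ n * d.re) : L1) +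
      (lp.single 1 (2 * n + 1) ((1 / 2) ^ n * d.im) : L1) := by
    refine lp.ext (funext fun k => ?_)
    simp only [lp.coeFn_sub, lp.coeFn_add, Pi.sub_apply, Pi.add_apply, iota_apply, lp.single_apply,
      Pi.single_apply]
    obtain ⟨m, rfl | rfl⟩ := Nat.even_or_odd' k
    · rw [iotaF_even, iotaF_even, if_neg (by omega : 2 * m ≠ 2 * n + 1), add_zero]
      split_ifs with h
      · obtain rfl : m = n := by omega
        rw [hd, Complex.sub_re, mul_sub]
      · rw [co_mul, co_rot, if_neg (by omega), one_mul, sub_self]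
    · rw [iotaF_odd, iotaF_odd, if_neg (by omega : 2 * m + 1 ≠ 2 * n), zero_add]
      split_ifs with h
      · obtain rfl : m = n := by omega
        rw [hd, Complex.sub_im, mul_sub]
      · rw [co_mul, co_rot, if_neg (by omega), one_mul, sub_self]
  rw [h2]
  refine (norm_add_le _ _).trans ?_
  rw [lp.norm_single one_pos, lp.norm_single one_pos, norm_mul, norm_mul,
    Real.norm_of_nonneg (by positivity)]
  have h3 : ‖d.re‖ ≤ |t| := (Complex.abs_re_le_norm _).trans h1
  have h4 : ‖d.im‖ ≤ |t| := (Complex.abs_im_le_norm _).trans h1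
  have h5 : (0 : ℝ) ≤ (1 / 2) ^ n := by positivity
  nlinarith

section

variable {X Y : Type*} [NormedAddCommGroup X] [NormedAddCommGroup Y] [NormedSpace ℝ Y] {δ : X → Y}

theorem Lip.re {g : X → ℂ} {L : ℝ} (h : Lip L g) : Lip L fun t => (g t).re := fun s t =>
  le_trans (by rw [← Complex.sub_re]; exact Complex.abs_re_le_norm _) (h s t)

theorem Lip.im {g : X → ℂ} {L : ℝ} (h : Lip L g) : Lip L fun t => (g t).im := fun s t =>
  le_trans (by rw [← Complex.sub_im]; exact Complex.abs_im_le_norm _) (h s t)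

theorem IsFree.exists_cext (hδ : IsFree δ) {g : X → ℂ} {L : ℝ} (hL : 0 ≤ L) (hg : Lip L g) :
    ∃ Φ : Y →L[ℝ] ℂ, ∀ t, Φ (δ t) = g t - g 0 := by
  refine ⟨Complex.ofRealCLM.comp (hat δ fun t => (g t).re) +
    Complex.I • Complex.ofRealCLM.comp (hat δ fun t => (g t).im), fun t => ?_⟩
  simp only [_root_.add_apply, _root_.smul_apply, ContinuousLinearMap.comp_apply,
    hδ.hat_apply hL hg.re, hδ.hat_apply hL hg.im, Complex.ofRealCLM_apply, smul_eq_mul]
  apply Complex.ext <;> simp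

theorem IsFree.norm_cext_le (hδ : IsFree δ) {g : X → ℂ} {L : ℝ} (hL : 0 ≤ L) (hg : Lip L g)
    {Φ : Y →L[ℝ] ℂ} (h : ∀ t, Φ (δ t) = g t - g 0) : ‖Φ‖ ≤ 2 * L := by
  have h1 := hδ.norm_hat_le hL hg.re
  have h2 := hδ.norm_hat_le hL hg.im
  rw [hδ.hat_eq (Φ := Complex.reCLM.comp Φ) fun t => by simp [h]] at h1
  rw [hδ.hat_eq (Φ := Complex.imCLM.comp Φ) fun t => by simp [h]] at h2
  refine Φ.opNorm_le_bound (by positivity) fun y => (Complex.norm_le_abs_re_add_abs_im _).trans ?_
  have h3 := ((Complex.reCLM.comp Φ).le_opNorm y).trans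
    (mul_le_mul_of_nonneg_right h1 (norm_nonneg _))
  have h4 := ((Complex.imCLM.comp Φ).le_opNorm y).trans
    (mul_le_mul_of_nonneg_right h2 (norm_nonneg _))
  simp only [ContinuousLinearMap.comp_apply, Complex.reCLM_apply, Complex.imCLM_apply,
    Real.norm_eq_abs] at h3 h4
  linarith

end

end Pool.Agent.P.MP_ce7f50_an
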