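import Mathlib

/-!
A rigidity lemma for multipliers on polynomials in two variables that are bounded for the
Lipschitz norm of the bidisc (a Riesz product argument).
-/

set_option autoImplicit false

namespace Pool.Agent.P.MP_ce7f50_an

/-- Pairing of a finitely supported coefficient family with a function on the exponents. -/
noncomputable def pr (g : ℕ × ℕ →₀ ℂ) (F : ℕ × ℕ → ℂ) : ℂ := Finsupp.linearCombination ℂ F g

/-- Value of the polynomial. -/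
noncomputable def ev (g : ℕ × ℕ →₀ ℂ) (z w : ℂ) : ℂ := pr g fun m => z ^ m.1 * w ^ m.2

/-- Derivative in the first variable. -/
noncomputable def d1 (g : ℕ × ℕ →₀ ℂ) (z w : ℂ) : ℂ :=
  pr g fun m => (m.1 : ℂ) * z ^ (m.1 - 1) * w ^ m.2

/-- Derivative in the second variable. -/
noncomputable def d2 (g : ℕ × ℕ →₀ ℂ) (z w : ℂ) : ℂ :=
  pr g fun m => z ^ m.1 * ((m.2 : ℂ) * w ^ (m.2 - 1))

/-- Multiplication by a monomial. -/
noncomputable def sh (θ : ℕ × ℕ) (g : ℕ × ℕ →₀ ℂ) : ℕ × ℕ →₀ ℂ := g.mapDomain (· + θ)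

theorem pr_eq_sum (g : ℕ × ℕ →₀ ℂ) (F : ℕ × ℕ → ℂ) : pr g F = ∑ m ∈ g.support, g m * F m := by
  simp [pr, Finsupp.linearCombination_apply, Finsupp.sum]

theorem pr_add (g h : ℕ × ℕ →₀ ℂ) (F : ℕ × ℕ → ℂ) : pr (g + h) F = pr g F + pr h F :=
  map_add _ _ _

theorem pr_smul (c : ℂ) (g : ℕ × ℕ →₀ ℂ) (F : ℕ × ℕ → ℂ) : pr (c • g) F = c * pr g F :=
  map_smul _ _ _

theorem pr_single (m : ℕ × ℕ) (c : ℂ) (F : ℕ × ℕ → ℂ) : pr (Finsupp.single m c) F = c * F m := by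
  simp [pr]

theorem pr_sh (θ : ℕ × ℕ) (g : ℕ × ℕ →₀ ℂ) (F : ℕ × ℕ → ℂ) :
    pr (sh θ g) F = pr g fun m => F (m + θ) := by
  unfold pr sh
  rw [Finsupp.linearCombination_mapDomain]
  rfl

theorem pr_lin (g : ℕ × ℕ →₀ ℂ) (a b : ℂ) (F G : ℕ × ℕ → ℂ) :
    (pr g fun m => a * F m + b * G m) = a * pr g F + b * pr g G := by
  simp only [pr_eq_sum, Finset.mul_sum, ← Finset.sum_add_distrib]
  exact Finset.sum_congr rfl fun m _ => by ring

theorem pr_mul (g : ℕ × ℕ →₀ ℂ) (a : ℂ) (F : ℕ × ℕ → ℂ) :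
    (pr g fun m => a * F m) = a * pr g F := by
  simpa using pr_lin g a 0 F F

theorem pow_der (z : ℂ) (p M : ℕ) : ((p + (M + 1) : ℕ) : ℂ) * z ^ (p + (M + 1) - 1) =
    ((M + 1 : ℕ) : ℂ) * z ^ M * z ^ p + z ^ (M + 1) * ((p : ℂ) * z ^ (p - 1)) := by
  rcases p with _ | p
  · simp
  · simp only [Nat.add_sub_cancel, show p + 1 + (M + 1) - 1 = p + 1 + M by omega]
    push_cast
    ring

theorem hasDerivAt_ev1 (g : ℕ × ℕ →₀ ℂ) (z w : ℂ) :
    HasDerivAt (fun z => ev g z w) (d1 g z w) z := by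
  simp only [ev, d1, pr_eq_sum]
  exact HasDerivAt.fun_sum fun m _ => ((hasDerivAt_pow m.1 z).mul_const _).const_mul _

theorem hasDerivAt_ev2 (g : ℕ × ℕ →₀ ℂ) (z w : ℂ) :
    HasDerivAt (fun w => ev g z w) (d2 g z w) w := by
  simp only [ev, d2, pr_eq_sum]
  exact HasDerivAt.fun_sum fun m _ => ((hasDerivAt_pow m.2 w).const_mul _).const_mul _

theorem ev_lip {g : ℕ × ℕ →₀ ℂ} {L₁ L₂ : ℝ}
    (h : ∀ z w : ℂ, ‖z‖ ≤ 1 → ‖w‖ ≤ 1 → ‖d1 g z w‖ ≤ L₁ ∧ ‖d2 g z w‖ ≤ L₂)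
    {z w z' w' : ℂ} (hz : ‖z‖ ≤ 1) (hw : ‖w‖ ≤ 1) (hz' : ‖z'‖ ≤ 1) (hw' : ‖w'‖ ≤ 1) :
    ‖ev g z w - ev g z' w'‖ ≤ L₁ * ‖z - z'‖ + L₂ * ‖w - w'‖ := by
  have h1 : ‖ev g z w - ev g z' w‖ ≤ L₁ * ‖z - z'‖ :=
    (convex_closedBall (0 : ℂ) 1).norm_image_sub_le_of_norm_hasDerivWithin_le
      (f := fun z => ev g z w) (f' := fun z => d1 g z w)
      (fun u _ => (hasDerivAt_ev1 g u w).hasDerivWithinAt)
      (fun u hu => (h u w (mem_closedBall_zero_iff.1 hu) hw).1)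
      (mem_closedBall_zero_iff.2 hz') (mem_closedBall_zero_iff.2 hz)
  have h2 : ‖ev g z' w - ev g z' w'‖ ≤ L₂ * ‖w - w'‖ :=
    (convex_closedBall (0 : ℂ) 1).norm_image_sub_le_of_norm_hasDerivWithin_le
      (f := fun w => ev g z' w) (f' := fun w => d2 g z' w)
      (fun u _ => (hasDerivAt_ev2 g z' u).hasDerivWithinAt)
      (fun u hu => (h z' u hz' (mem_closedBall_zero_iff.1 hu)).2)
      (mem_closedBall_zero_iff.2 hw') (mem_closedBall_zero_iff.2 hw)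
  calc ‖ev g z w - ev g z' w'‖ = ‖(ev g z w - ev g z' w) + (ev g z' w - ev g z' w')‖ := by
        congr 1; ring
    _ ≤ _ := (norm_add_le _ _).trans (add_le_add h1 h2)

theorem key_ineq {T τ : ℝ} (hT : 2 ≤ T) (hτ : τ = 1 - 1 / T ^ 2) {Z W : ℂ} (hZ : ‖Z‖ ≤ 1)
    (hW : ‖W‖ ≤ 1) : ‖1 - W‖ + τ / 3 * ‖1 + Z + W‖ * (3 * T) ≤ 3 * T := by
  have hT0 : 0 < T := by linarith
  have h1 : ‖1 + W‖ ^ 2 + ‖1 - W‖ ^ 2 ≤ 4 := by
    have := parallelogram_law_with_norm ℂ (1 : ℂ) W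
    have h2 : ‖W‖ * ‖W‖ ≤ 1 := mul_le_one₀ hW (norm_nonneg _) hW
    rw [norm_one] at this
    nlinarith
  set s := ‖1 - W‖ with hs
  have hs0 : 0 ≤ s := norm_nonneg _
  have h3 : ‖1 + W‖ ≤ 2 - s ^ 2 / 4 := by
    refine abs_le_of_sq_le_sq' ?_ ?_ |>.2
    · nlinarith [sq_nonneg (s ^ 2)]
    · nlinarith [sq_nonneg ‖1 + W‖]
  have h4 : ‖1 + Z + W‖ ≤ 3 - s ^ 2 / 4 := by
    have : ‖1 + Z + W‖ ≤ ‖1 + W‖ + ‖Z‖ := by
      rw [add_right_comm]; exact norm_add_le _ _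
    linarith
  have h5 : 1 / T ^ 2 ≤ 1 / 4 := one_div_le_one_div_of_le (by norm_num) (by nlinarith)
  have h6 : τ / 3 * ‖1 + Z + W‖ * (3 * T) ≤ τ * T * (3 - s ^ 2 / 4) := by
    have : τ / 3 * ‖1 + Z + W‖ * (3 * T) = τ * T * ‖1 + Z + W‖ := by ring
    rw [this]
    exact mul_le_mul_of_nonneg_left h4 (mul_nonneg (by linarith) hT0.le)
  have h7 : τ * T * (3 - s ^ 2 / 4) ≤ 3 * T - 3 / T - T * s ^ 2 / 8 := by
    have h8 : τ * T * 3 = 3 * T - 3 / T := by rw [hτ]; field_simp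
    have h9 : T * s ^ 2 / 8 ≤ τ * T * (s ^ 2 / 4) := by
      have : 0 ≤ T * s ^ 2 := by positivity
      nlinarith
    nlinarith
  have h10 : s ≤ 3 / T + T * s ^ 2 / 8 := by
    have : 0 ≤ T * (3 / T + T * s ^ 2 / 8 - s) := by
      have h11 : T * (3 / T + T * s ^ 2 / 8 - s) = 3 + (T * s) ^ 2 / 8 - T * s := by field_simp
      rw [h11]
      nlinarith [sq_nonneg (T * s - 4)]
    have := (mul_nonneg_iff_of_pos_left hT0).1 this
    linarith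
  linarith

/-- The three-term building block. -/
noncomputable def blk (M N : ℕ) : ℕ × ℕ →₀ ℂ :=
  (N : ℂ)⁻¹ • (Finsupp.single (M, 0) 1 + Finsupp.single (M, N) (-1) + Finsupp.single (0, N) 1)

theorem pr_blk (M N : ℕ) (F : ℕ × ℕ → ℂ) :
    pr (blk M N) F = (N : ℂ)⁻¹ * (F (M, 0) - F (M, N) + F (0, N)) := by
  simp only [blk, pr_smul, pr_add, pr_single]
  ring

/-- One step of the Riesz product construction. -/
noncomputable def stp (M N : ℕ) (c : ℂ) (g : ℕ × ℕ →₀ ℂ) : ℕ × ℕ →₀ ℂ :=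
  blk M N + c • (g + sh (M, 0) g + sh (0, N) g)

theorem pr_stp (M N : ℕ) (c : ℂ) (g : ℕ × ℕ →₀ ℂ) (F : ℕ × ℕ → ℂ) :
    pr (stp M N c g) F = (N : ℂ)⁻¹ * (F (M, 0) - F (M, N) + F (0, N)) +
      c * (pr g F + (pr g fun m => F (m + (M, 0))) + pr g fun m => F (m + (0, N))) := by
  simp only [stp, pr_add, pr_smul, pr_blk, pr_sh]

theorem ev_stp (M N : ℕ) (c : ℂ) (g : ℕ × ℕ →₀ ℂ) (z w : ℂ) :
    ev (stp M N c g) z w = (N : ℂ)⁻¹ * (z ^ M - z ^ M * w ^ N + w ^ N) +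
      c * (1 + z ^ M + w ^ N) * ev g z w := by
  have h1 : (pr g fun m => z ^ (m + (M, 0)).1 * w ^ (m + (M, 0)).2) = z ^ M * ev g z w := by
    rw [ev, ← pr_mul]; congr 1; funext m; simp [pow_add]; ring
  have h2 : (pr g fun m => z ^ (m + (0, N)).1 * w ^ (m + (0, N)).2) = w ^ N * ev g z w := by
    rw [ev, ← pr_mul]; congr 1; funext m; simp [pow_add]; ring
  rw [ev, pr_stp, h1, h2]
  simp only [ev]
  ring

theorem d1_stp (M N : ℕ) (c : ℂ) (g : ℕ × ℕ →₀ ℂ) (z w : ℂ) :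
    d1 (stp (M + 1) N c g) z w = (N : ℂ)⁻¹ * (((M + 1 : ℕ) : ℂ) * z ^ M * (1 - w ^ N)) +
      c * (1 + z ^ (M + 1) + w ^ N) * d1 g z w + c * (((M + 1 : ℕ) : ℂ) * z ^ M) * ev g z w := by
  have h1 : (pr g fun m => (((m + (M + 1, 0)).1 : ℕ) : ℂ) * z ^ ((m + (M + 1, 0)).1 - 1) *
      w ^ (m + (M + 1, 0)).2) = ((M + 1 : ℕ) : ℂ) * z ^ M * ev g z w + z ^ (M + 1) * d1 g z w := by
    rw [ev, d1, ← pr_lin]; congr 1; funext m
    simp only [Prod.fst_add, Prod.snd_add, add_zero, pow_der]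
    ring
  have h2 : (pr g fun m => (((m + (0, N)).1 : ℕ) : ℂ) * z ^ ((m + (0, N)).1 - 1) *
      w ^ (m + (0, N)).2) = w ^ N * d1 g z w := by
    rw [d1, ← pr_mul]; congr 1; funext m; simp [pow_add]; ring
  rw [d1, pr_stp, h1, h2]
  simp only [d1, Nat.add_sub_cancel]
  push_cast
  ring

theorem d2_stp (M N : ℕ) (c : ℂ) (g : ℕ × ℕ →₀ ℂ) (z w : ℂ) :
    d2 (stp M (N + 1) c g) z w =
      ((N + 1 : ℕ) : ℂ)⁻¹ * (((N + 1 : ℕ) : ℂ) * w ^ N * (1 - z ^ M)) +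
      c * (1 + z ^ M + w ^ (N + 1)) * d2 g z w + c * (((N + 1 : ℕ) : ℂ) * w ^ N) * ev g z w := by
  have h1 : (pr g fun m => z ^ (m + (M, 0)).1 * ((((m + (M, 0)).2 : ℕ) : ℂ) *
      w ^ ((m + (M, 0)).2 - 1))) = z ^ M * d2 g z w := by
    rw [d2, ← pr_mul]; congr 1; funext m; simp [pow_add]; ring
  have h2 : (pr g fun m => z ^ (m + (0, N + 1)).1 * ((((m + (0, N + 1)).2 : ℕ) : ℂ) *
      w ^ ((m + (0, N + 1)).2 - 1))) =
      ((N + 1 : ℕ) : ℂ) * w ^ N * ev g z w + w ^ (N + 1) * d2 g z w := by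
    rw [ev, d2, ← pr_lin]; congr 1; funext m
    simp only [Prod.fst_add, Prod.snd_add, add_zero, pow_der]
    ring
  rw [d2, pr_stp, h1, h2]
  simp only [d2, Nat.add_sub_cancel]
  push_cast
  ring

theorem riesz {σ : ℕ × ℕ → ℂ} {A : ℕ} (hA : 1 ≤ A) {M₀ D : ℕ}
    (hT : ∀ p q : ℕ, (q : ℝ) * ‖σ (p, q)‖ ≤ 1 / 32 * (A * p + q))
    (hH : ∀ p q : ℕ, M₀ ≤ p → q * D ≤ p → 1 / 2 ≤ (σ (p, q)).re) {T : ℝ} (hT2 : 2 ≤ T) (j : ℕ)
    (hj : (j : ℝ) ≤ T ^ 2) : ∀ (P : ℕ) (η : ℝ), 0 < η → η ≤ 1 → ∃ g : ℕ × ℕ →₀ ℂ,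
      (∀ z w : ℂ, ‖z‖ ≤ 1 → ‖w‖ ≤ 1 → ‖ev g z w‖ ≤ η ∧ A * ‖d1 g z w‖ ≤ 3 * T + η ∧
        ‖d2 g z w‖ ≤ 3 * T + η) ∧
      ∀ θ : ℕ × ℕ, θ.1 ≤ P → θ.2 ≤ P →
        (j : ℝ) / 8 ≤ (pr g fun m => (A : ℂ) * ((m + θ).1 : ℕ) * σ (m + θ)).re := by
  induction j with
  | zero =>
    intro P η hη _
    refine ⟨0, fun z w _ _ => ?_, fun θ _ _ => ?_⟩
    · simp only [ev, d1, d2, pr, map_zero, norm_zero, mul_zero]
      exact ⟨hη.le, by positivity, by positivity⟩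
    · simp [pr]
  | succ j ih =>
    intro P η hη hη1
    have hT0 : 0 < T := by linarith
    have hA' : (1 : ℝ) ≤ A := by exact_mod_cast hA
    obtain ⟨M₁, hM₁⟩ := exists_nat_gt (6 / η)
    obtain ⟨M, hM⟩ : ∃ M : ℕ, M = M₀ + P * D + P + M₁ := ⟨_, rfl⟩
    obtain ⟨N, hN⟩ : ∃ N : ℕ, N + 1 = A * (M + 1) := ⟨A * (M + 1) - 1, by
      have : 1 ≤ A * (M + 1) := Nat.mul_pos hA (by omega)
      omega⟩
    have hNR : ((N + 1 : ℕ) : ℝ) = A * ((M + 1 : ℕ) : ℝ) := by exact_mod_cast hN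
    have hNC : ((N + 1 : ℕ) : ℂ) = A * ((M + 1 : ℕ) : ℂ) := by exact_mod_cast hN
    have hM0 : (0 : ℝ) < ((M + 1 : ℕ) : ℝ) := by positivity
    have hN0 : (0 : ℝ) < ((N + 1 : ℕ) : ℝ) := by positivity
    have hMN : ((M + 1 : ℕ) : ℝ) ≤ ((N + 1 : ℕ) : ℝ) := by rw [hNR]; nlinarith
    have hM6 : 6 / η ≤ ((N + 1 : ℕ) : ℝ) := by
      have : (M₁ : ℝ) ≤ ((M + 1 : ℕ) : ℝ) := by exact_mod_cast (by omega : M₁ ≤ M + 1)
      linarith
    have hN1 : (1 : ℝ) ≤ ((N + 1 : ℕ) : ℝ) := by exact_mod_cast (by omega : 1 ≤ N + 1)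
    set τ : ℝ := 1 - 1 / T ^ 2 with hτ
    have h5 : 1 / T ^ 2 ≤ 1 / 4 := one_div_le_one_div_of_le (by norm_num) (by nlinarith)
    have h5' : 0 < 1 / T ^ 2 := by positivity
    have hτ0 : 0 ≤ τ := by linarith
    have hτ1 : τ ≤ 1 := by linarith
    set η' : ℝ := η / (2 * ((N + 1 : ℕ) : ℝ)) with hη'
    have hη'0 : 0 < η' := by positivity
    have hη'1 : ((N + 1 : ℕ) : ℝ) * η' = η / 2 := by rw [hη']; field_simp
    have hη'2 : η' ≤ η / 2 := by nlinarith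
    obtain ⟨g, hg1, hg2⟩ := ih (by push_cast at hj; linarith) (P + (M + 1) + (N + 1)) η' hη'0
      (by linarith)
    have hc : ‖((τ / 3 : ℝ) : ℂ)‖ = τ / 3 := by
      rw [Complex.norm_real, Real.norm_of_nonneg (by positivity)]
    refine ⟨stp (M + 1) (N + 1) ((τ / 3 : ℝ) : ℂ) g, fun z w hz hw => ?_, fun θ hθ1 hθ2 => ?_⟩
    · obtain ⟨h1, h2, h3⟩ := hg1 z w hz hw
      have hzp : ∀ k : ℕ, ‖z ^ k‖ ≤ 1 := fun k => by
        rw [norm_pow]; exact pow_le_one₀ (norm_nonneg _) hz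
      have hwp : ∀ k : ℕ, ‖w ^ k‖ ≤ 1 := fun k => by
        rw [norm_pow]; exact pow_le_one₀ (norm_nonneg _) hw
      have hβ : τ / 3 * ‖1 + z ^ (M + 1) + w ^ (N + 1)‖ ≤ 1 := by
        have := norm_add₃_le (a := (1 : ℂ)) (b := z ^ (M + 1)) (c := w ^ (N + 1))
        rw [norm_one] at this
        nlinarith [hzp (M + 1), hwp (N + 1)]
      have hβ0 : 0 ≤ τ / 3 * ‖1 + z ^ (M + 1) + w ^ (N + 1)‖ := by positivity
      refine ⟨?_, ?_, ?_⟩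
      · rw [ev_stp]
        refine (norm_add_le _ _).trans ?_
        rw [norm_mul, norm_mul, norm_mul, norm_inv, hc, Complex.norm_natCast]
        have h6 : ‖z ^ (M + 1) - z ^ (M + 1) * w ^ (N + 1) + w ^ (N + 1)‖ ≤ 3 := by
          refine (norm_add_le _ _).trans ?_
          have h7 := norm_sub_le (z ^ (M + 1)) (z ^ (M + 1) * w ^ (N + 1))
          rw [norm_mul] at h7
          have := mul_le_one₀ (hzp (M + 1)) (norm_nonneg _) (hwp (N + 1))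
          linarith [hzp (M + 1), hwp (N + 1)]
        have h8 : ((N + 1 : ℕ) : ℝ)⁻¹ * 3 ≤ η / 2 := by
          rw [inv_mul_le_iff₀ hN0]
          rw [div_le_iff₀ hη] at hM6
          linarith
        have h9 := mul_le_mul_of_nonneg_left h6 (inv_nonneg.2 hN0.le)
        have h10 := mul_le_mul hβ h1 (norm_nonneg _) zero_le_one
        linarith
      · rw [d1_stp]
        have h6 := key_ineq hT2 hτ (hzp (M + 1)) (hwp (N + 1))
        have h7 : (A : ℝ) * ‖((N + 1 : ℕ) : ℂ)⁻¹ * (((M + 1 : ℕ) : ℂ) * z ^ M * (1 - w ^ (N + 1)))‖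
            ≤ ‖1 - w ^ (N + 1)‖ := by
          rw [norm_mul, norm_mul, norm_mul, norm_inv, Complex.norm_natCast, Complex.norm_natCast,
            hNR]
          have : (A : ℝ) * ((A * ((M + 1 : ℕ) : ℝ))⁻¹ * (((M + 1 : ℕ) : ℝ) * ‖z ^ M‖ *
              ‖1 - w ^ (N + 1)‖)) = ‖z ^ M‖ * ‖1 - w ^ (N + 1)‖ := by field_simp
          rw [this]
          exact mul_le_of_le_one_left (norm_nonneg _) (hzp M)
        have h8 : (A : ℝ) * ‖((τ / 3 : ℝ) : ℂ) * (1 + z ^ (M + 1) + w ^ (N + 1)) * d1 g z w‖ ≤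
            τ / 3 * ‖1 + z ^ (M + 1) + w ^ (N + 1)‖ * (3 * T) + η' := by
          rw [norm_mul, norm_mul, hc, mul_left_comm]
          nlinarith [mul_le_mul_of_nonneg_left h2 hβ0]
        have h9 : (A : ℝ) * ‖((τ / 3 : ℝ) : ℂ) * (((M + 1 : ℕ) : ℂ) * z ^ M) * ev g z w‖ ≤ η / 2 := by
          rw [norm_mul, norm_mul, norm_mul, hc, Complex.norm_natCast, ← hη'1, hNR]
          have : τ / 3 * (((M + 1 : ℕ) : ℝ) * ‖z ^ M‖) * ‖ev g z w‖ ≤
              1 * (((M + 1 : ℕ) : ℝ) * 1) * η' := by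
            gcongr
            · linarith
            · exact hzp M
          nlinarith
        have h10 := mul_le_mul_of_nonneg_left (norm_add₃_le
          (a := ((N + 1 : ℕ) : ℂ)⁻¹ * (((M + 1 : ℕ) : ℂ) * z ^ M * (1 - w ^ (N + 1))))
          (b := ((τ / 3 : ℝ) : ℂ) * (1 + z ^ (M + 1) + w ^ (N + 1)) * d1 g z w)
          (c := ((τ / 3 : ℝ) : ℂ) * (((M + 1 : ℕ) : ℂ) * z ^ M) * ev g z w))
          (show (0 : ℝ) ≤ A by linarith)
        linarith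
      · rw [d2_stp]
        have h6 := key_ineq hT2 hτ (hwp (N + 1)) (hzp (M + 1))
        rw [add_right_comm] at h6
        have h7 : ‖((N + 1 : ℕ) : ℂ)⁻¹ * (((N + 1 : ℕ) : ℂ) * w ^ N * (1 - z ^ (M + 1)))‖
            ≤ ‖1 - z ^ (M + 1)‖ := by
          rw [norm_mul, norm_mul, norm_mul, norm_inv, Complex.norm_natCast]
          have : ((N + 1 : ℕ) : ℝ)⁻¹ * (((N + 1 : ℕ) : ℝ) * ‖w ^ N‖ *
              ‖1 - z ^ (M + 1)‖) = ‖w ^ N‖ * ‖1 - z ^ (M + 1)‖ := by field_simp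
          rw [this]
          exact mul_le_of_le_one_left (norm_nonneg _) (hwp N)
        have h8 : ‖((τ / 3 : ℝ) : ℂ) * (1 + z ^ (M + 1) + w ^ (N + 1)) * d2 g z w‖ ≤
            τ / 3 * ‖1 + z ^ (M + 1) + w ^ (N + 1)‖ * (3 * T) + η' := by
          rw [norm_mul, norm_mul, hc]
          nlinarith [mul_le_mul_of_nonneg_left h3 hβ0]
        have h9 : ‖((τ / 3 : ℝ) : ℂ) * (((N + 1 : ℕ) : ℂ) * w ^ N) * ev g z w‖ ≤ η / 2 := by
          rw [norm_mul, norm_mul, norm_mul, hc, Complex.norm_natCast, ← hη'1]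
          have : τ / 3 * (((N + 1 : ℕ) : ℝ) * ‖w ^ N‖) * ‖ev g z w‖ ≤
              1 * (((N + 1 : ℕ) : ℝ) * 1) * η' := by
            gcongr
            · linarith
            · exact hwp N
          linarith
        refine norm_add₃_le.trans ?_
        linarith
    · obtain ⟨a, b⟩ := θ
      simp only at hθ1 hθ2
      rw [pr_stp]
      have e1 := hg2 (a, b) (by simp only; omega) (by simp only; omega)
      have e2 := hg2 ((M + 1, 0) + (a, b)) (by simp only [Prod.fst_add]; omega)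
        (by simp only [Prod.snd_add]; omega)
      have e3 := hg2 ((0, N + 1) + (a, b)) (by simp only [Prod.fst_add]; omega)
        (by simp only [Prod.snd_add]; omega)
      simp only [← add_assoc] at e2 e3
      rw [Complex.add_re, Complex.re_ofReal_mul, Complex.add_re, Complex.add_re]
      have e4 : τ * (j / 8) ≤ τ / 3 * ((pr g fun m => (A : ℂ) * ((m + (a, b)).1 : ℕ) *
          σ (m + (a, b))).re + (pr g fun m => (A : ℂ) * ((m + (M + 1, 0) + (a, b)).1 : ℕ) *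
          σ (m + (M + 1, 0) + (a, b))).re + (pr g fun m => (A : ℂ) *
          ((m + (0, N + 1) + (a, b)).1 : ℕ) * σ (m + (0, N + 1) + (a, b))).re) := by
        nlinarith
      have e5 : (j + 1 : ℝ) / 8 ≤ 1 / 4 + τ * (j / 8) := by
        have : (j : ℝ) * (1 / T ^ 2) ≤ 1 := by
          rw [mul_one_div, div_le_one (by positivity)]
          push_cast at hj; linarith
        rw [hτ]; nlinarith
      have hbD : b * D ≤ M + 1 + a := by
        have : b * D ≤ P * D := Nat.mul_le_mul_right _ hθ2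
        omega
      have f1 := hH (M + 1 + a) b (by omega) hbD
      have f2 := hT (M + 1 + a) (N + 1 + b)
      have f3 := hT a (N + 1 + b)
      have ha : (a : ℝ) ≤ ((M + 1 : ℕ) : ℝ) := by exact_mod_cast (by omega : a ≤ M + 1)
      have ha0 : (0 : ℝ) ≤ a := by positivity
      have hb0 : (0 : ℝ) ≤ b := by positivity
      have hAa : (A : ℝ) * a ≤ ((N + 1 : ℕ) : ℝ) := by rw [hNR]; gcongr
      have hAa0 : (0 : ℝ) ≤ A * a := by positivity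
      have g2 : ‖σ (M + 1 + a, N + 1 + b)‖ ≤ 3 / 32 := by
        rw [Nat.cast_add (N + 1), Nat.cast_add (M + 1), mul_add (A : ℝ), ← hNR] at f2
        by_contra hcon
        nlinarith [not_le.1 hcon]
      have g3 : ‖σ (a, N + 1 + b)‖ ≤ 2 / 32 := by
        rw [Nat.cast_add (N + 1)] at f3
        by_contra hcon
        nlinarith [not_le.1 hcon]
      have e6 : 1 / 4 ≤ (((N + 1 : ℕ) : ℂ)⁻¹ * ((A : ℂ) * (((M + 1, 0) + (a, b)).1 : ℕ) *
          σ ((M + 1, 0) + (a, b)) - (A : ℂ) * (((M + 1, N + 1) + (a, b)).1 : ℕ) *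
          σ ((M + 1, N + 1) + (a, b)) + (A : ℂ) * (((0, N + 1) + (a, b)).1 : ℕ) *
          σ ((0, N + 1) + (a, b)))).re := by
        simp only [Prod.mk_add_mk, zero_add]
        have : ((N + 1 : ℕ) : ℂ)⁻¹ * ((A : ℂ) * ((M + 1 + a : ℕ) : ℂ) * σ (M + 1 + a, b) -
            (A : ℂ) * ((M + 1 + a : ℕ) : ℂ) * σ (M + 1 + a, N + 1 + b) +
            (A : ℂ) * (a : ℂ) * σ (a, N + 1 + b)) =
            ((1 + a / ((M + 1 : ℕ) : ℝ) : ℝ) : ℂ) * σ (M + 1 + a, b) -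
            ((1 + a / ((M + 1 : ℕ) : ℝ) : ℝ) : ℂ) * σ (M + 1 + a, N + 1 + b) +
            ((a / ((M + 1 : ℕ) : ℝ) : ℝ) : ℂ) * σ (a, N + 1 + b) := by
          rw [hNC, Nat.cast_add (M + 1)]
          have hA0 : (A : ℂ) ≠ 0 := by exact_mod_cast (by omega : A ≠ 0)
          have hM0' : ((M + 1 : ℕ) : ℂ) ≠ 0 := by exact_mod_cast (by omega : M + 1 ≠ 0)
          simp only [Complex.ofReal_add, Complex.ofReal_div, Complex.ofReal_one,
            Complex.ofReal_natCast]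
          field_simp
        rw [this, Complex.add_re, Complex.sub_re, Complex.re_ofReal_mul, Complex.re_ofReal_mul,
          Complex.re_ofReal_mul]
        have k0 : 0 ≤ a / ((M + 1 : ℕ) : ℝ) := by positivity
        have k1 : a / ((M + 1 : ℕ) : ℝ) ≤ 1 := (div_le_one hM0).2 ha
        have k2 := (abs_le.1 ((Complex.abs_re_le_norm _).trans g2)).2
        have k3 := (abs_le.1 ((Complex.abs_re_le_norm _).trans g3)).1
        nlinarith
      push_cast at e5 ⊢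
      push_cast at e4 e6
      linarith

theorem rigid {σ : ℕ × ℕ → ℂ} {A : ℕ} (hA : 1 ≤ A) {C : ℝ} (hC : 0 ≤ C)
    (hM : ∀ (g : ℕ × ℕ →₀ ℂ) (L : ℝ), 0 ≤ L → (∀ z w : ℂ, ‖z‖ ≤ 1 → ‖w‖ ≤ 1 →
      A * ‖d1 g z w‖ ≤ L ∧ ‖d2 g z w‖ ≤ L) → ‖pr g fun m => (A : ℂ) * (m.1 : ℕ) * σ m‖ ≤ C * L)
    (hT : ∀ p q : ℕ, (q : ℝ) * ‖σ (p, q)‖ ≤ 1 / 32 * (A * p + q)) (M₀ D : ℕ) :
    ∃ p q : ℕ, M₀ ≤ p ∧ q * D ≤ p ∧ (σ (p, q)).re < 1 / 2 := by
  by_contra hcon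
  push Not at hcon
  obtain ⟨T, hT'⟩ := exists_nat_gt (32 * C + 2)
  obtain ⟨g, hg1, hg2⟩ := riesz hA hT hcon (T := T) (by linarith) (T ^ 2) (by push_cast; rfl) 0 1
    one_pos le_rfl
  have h1 := hM g (3 * T + 1) (by positivity) fun z w hz hw => (hg1 z w hz hw).2
  have h2 := hg2 0 le_rfl le_rfl
  simp only [add_zero] at h2
  have h3 := h2.trans ((Complex.re_le_norm _).trans h1)
  push_cast at h3
  nlinarith

end Pool.Agent.P.MP_ce7f50_an
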