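import Mathlib
import Pool.Agent.P.MP_ce7f50_an.OneEmbed
import Pool.Agent.P.MP_ce7f50_an.OneRigid

/-!
Symbols of operators on the free space over `ℓ₁`.
-/

set_option autoImplicit false

open Filter Topology MeasureTheory ComplexConjugate

namespace Pool.Agent.P.MP_ce7f50_an

variable {Y : Type*} [NormedAddCommGroup Y] [NormedSpace ℝ Y] {δ : L1 → Y}

/-- The operator on the free space defined by the extended character. -/
noncomputable def IsFree.eps (hδ : IsFree δ) (η : ℕ →₀ ℕ) : Y →L[ℝ] ℂ :=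
  (hδ.exists_cext (exists_lip_mon η).choose_spec.1 (exists_lip_mon η).choose_spec.2).choose

theorem IsFree.eps_apply (hδ : IsFree δ) (η : ℕ →₀ ℕ) (t : L1) :
    hδ.eps η (δ t) = mon η (zeta t) - mon η (zeta 0) :=
  (hδ.exists_cext (exists_lip_mon η).choose_spec.1 (exists_lip_mon η).choose_spec.2).choose_spec t

theorem IsFree.norm_sum_eps (hδ : IsFree δ) {ι : Type*} (S : Finset ι) (b : ι → ℂ)
    (η : ι → ℕ →₀ ℕ) {L : ℝ} (hL : 0 ≤ L)
    (h : Lip L fun x : L1 => ∑ i ∈ S, b i * mon (η i) (zeta x)) :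
    ‖∑ i ∈ S, b i • hδ.eps (η i)‖ ≤ 2 * L :=
  hδ.norm_cext_le hL h fun t => by
    rw [_root_.sum_apply, ← Finset.sum_sub_distrib]
    exact Finset.sum_congr rfl fun i _ => by
      rw [_root_.smul_apply, hδ.eps_apply, smul_eq_mul, mul_sub]

theorem IsFree.norm_eps (hδ : IsFree δ) (η : ℕ →₀ ℕ) {L : ℝ} (h : ∀ n, (η n : ℝ) * 2 ^ n ≤ L) :
    ‖hδ.eps η‖ ≤ 4 * L := by
  have hL : 0 ≤ L := le_trans (by positivity) (h 0)
  have := hδ.norm_cext_le (by positivity) (lip_mon η h) (hδ.eps_apply η)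
  linarith

theorem IsFree.continuous_W (hδ : IsFree δ) : Continuous fun y => δ (iota y) :=
  hδ.lip.continuous.comp continuous_iota

theorem IsFree.W_rot (hδ : IsFree δ) (n : ℕ) (t : ℝ) (y : Tor) :
    ‖δ (iota (rot n t * y)) - δ (iota y)‖ ≤ 2 * (1 / 2) ^ n * |t| :=
  (hδ.lip _ _).trans (by rw [one_mul]; exact iota_rot n t y)

/-- Real or imaginary part. -/
noncomputable def part (b : Bool) : ℂ →L[ℝ] ℝ := if b then Complex.reCLM else Complex.imCLM

theorem abs_part_le (b : Bool) (z : ℂ) : |part b z| ≤ ‖z‖ := by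
  cases b
  · exact Complex.abs_im_le_norm z
  · exact Complex.abs_re_le_norm z

theorem norm_part_le (b : Bool) : ‖part b‖ ≤ 1 :=
  ContinuousLinearMap.opNorm_le_bound _ zero_le_one fun z => by
    rw [one_mul]; exact abs_part_le b z

variable (δ) in
/-- Vector-valued Fourier coefficients of the embedding of the torus. -/
noncomputable def vec (b : Bool) (η : ℕ →₀ ℕ) : Y := ∫ y, part b (chi η y) • δ (iota y) ∂haar

theorem coef_const_mul (η : ℕ →₀ ℕ) (c : ℂ) (f : Tor → ℂ) :
    (coef η fun y => c * f y) = c * coef η f := by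
  unfold coef
  rw [← integral_const_mul]
  congr 1; funext y; ring

variable [CompleteSpace Y]

theorem IsFree.coef_eq (hδ : IsFree δ) (ψ : Y →L[ℝ] ℂ) (η : ℕ →₀ ℕ) :
    (coef η fun y => ψ (δ (iota y))) = ψ (vec δ true η) - Complex.I * ψ (vec δ false η) := by
  have h : ∀ b, Integrable (fun y => part b (chi η y) • δ (iota y)) haar := fun b =>
    cont_integrable (((part b).continuous.comp (continuous_chi η)).smul hδ.continuous_W)
  unfold vec coef
  rw [← ψ.integral_comp_comm (h true), ← ψ.integral_comp_comm (h false), ← integral_const_mul,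
    ← integral_sub (ψ.integrable_comp (h true)) ((ψ.integrable_comp (h false)).const_mul _)]
  congr 1; funext y
  simp only [map_smul, part, if_true, Bool.false_eq_true, if_false, Complex.reCLM_apply,
    Complex.imCLM_apply, Complex.real_smul]
  rw [← mul_assoc, ← sub_mul]
  congr 1
  apply Complex.ext <;> simp

theorem IsFree.re_coef (hδ : IsFree δ) (ψ : Y →L[ℝ] ℂ) (η : ℕ →₀ ℕ) :
    (coef η fun y => ψ (δ (iota y))).re = ∑ b, part b (ψ (vec δ b η)) := by
  rw [hδ.coef_eq]
  simp [part]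

omit [CompleteSpace Y] in
theorem IsFree.coef_eps (hδ : IsFree δ) {η : ℕ →₀ ℕ} (hη : η ≠ 0) :
    (coef η fun y => hδ.eps η (δ (iota y))) = 1 := by
  have h1 := coef_chi η η
  have h2 := coef_chi η 0
  rw [if_pos rfl] at h1
  rw [if_neg hη] at h2
  unfold coef at *
  simp only [hδ.eps_apply, zeta_iota, mul_sub]
  have i1 : Integrable (fun y : Tor => conj (chi η y) * mon η y.co) haar :=
    cont_integrable ((continuous_conj_chi η).mul (continuous_chi η))
  have i2 : Integrable (fun y : Tor => conj (chi η y) * mon η (zeta 0)) haar :=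
    cont_integrable ((continuous_conj_chi η).mul continuous_const)
  rw [integral_sub i1 i2, integral_mul_const]
  simp only [chi, mon_zero, mul_one] at h1 h2 ⊢
  rw [h1, h2]
  simp

theorem IsFree.bessel (hδ : IsFree δ) {ι : Type*} (S : Finset ι) {η : ι → ℕ →₀ ℕ}
    (hη : Set.InjOn η S) {ε : ι → ℝ} (hε : ∀ i, |ε i| ≤ 1) (n : ℕ) (b : Bool) :
    ‖∑ i ∈ S, ε i • (η i n : ℝ) • vec δ b (η i)‖ ≤ 2 * (1 / 2) ^ n * √S.card := by
  refine NormedSpace.norm_le_dual_bound ℝ _ (by positivity) fun φ => ?_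
  have h1 := deriv_bound S η (f := fun i y => (ε i : ℂ) * (φ (δ (iota y)) : ℂ))
    (fun i => continuous_const.mul (Complex.continuous_ofReal.comp
      (φ.continuous.comp hδ.continuous_W))) n
    (k := fun y => ‖∑ i ∈ S, conj (chi (η i) y) * (ε i : ℂ)‖ * (‖φ‖ * (2 * (1 / 2) ^ n)))
    ((continuous_finsetSum _ fun i _ => (continuous_conj_chi _).mul continuous_const).norm.mul
      continuous_const) (fun y => by positivity) (fun t y => by
      simp only [← mul_sub, ← mul_assoc]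
      rw [← Finset.sum_mul, norm_mul, ← Complex.ofReal_sub, Complex.norm_real, ← map_sub]
      have := (φ.le_opNorm _).trans (mul_le_mul_of_nonneg_left (hδ.W_rot n t y) (norm_nonneg φ))
      calc _ ≤ ‖∑ i ∈ S, conj (chi (η i) y) * (ε i : ℂ)‖ * (‖φ‖ * (2 * (1 / 2) ^ n * |t|)) := by
            gcongr
        _ = _ := by ring)
  rw [integral_mul_const] at h1
  have h2 := mul_le_mul_of_nonneg_right (l1_bound S hη hε)
    (show 0 ≤ ‖φ‖ * (2 * (1 / 2) ^ n) by positivity)
  have h3 : ∀ i, (coef (η i) fun y => (ε i : ℂ) * (φ (δ (iota y)) : ℂ)) =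
      ε i * (φ (vec δ true (η i)) - Complex.I * φ (vec δ false (η i))) := fun i => by
    rw [coef_const_mul]
    exact congrArg _ (hδ.coef_eq (Complex.ofRealCLM.comp φ) (η i))
  simp only [h3] at h1
  have h4 := (abs_part_le b _).trans (h1.trans h2)
  have h5 : |part b (∑ i ∈ S, (η i n : ℂ) * (ε i * (φ (vec δ true (η i)) -
      Complex.I * φ (vec δ false (η i)))))| =
      ‖φ (∑ i ∈ S, ε i • (η i n : ℝ) • vec δ b (η i))‖ := by
    cases b
    · rw [Real.norm_eq_abs, ← abs_neg]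
      congr 1
      simp [part, mul_left_comm]
    · rw [Real.norm_eq_abs]
      congr 1
      simp [part, mul_left_comm]
  rw [h5] at h4
  linarith

/-- The frequencies used in the proof. -/
noncomputable def fr (ξ : ℕ →₀ ℕ) (m : ℕ × ℕ) : ℕ →₀ ℕ := m.1 • ξ + Finsupp.single 0 m.2

theorem mon_fr (ξ : ℕ →₀ ℕ) (m : ℕ × ℕ) (ζ : ℕ → ℂ) :
    mon (fr ξ m) ζ = mon ξ ζ ^ m.1 * ζ 0 ^ m.2 := by
  rw [fr, mon_add, mon_smul, mon_single]

theorem fr_apply (ξ : ℕ →₀ ℕ) (m : ℕ × ℕ) (n : ℕ) :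
    fr ξ m n = m.1 * ξ n + if n = 0 then m.2 else 0 := by
  simp [fr, Finsupp.single_apply, eq_comm]

omit [CompleteSpace Y] in
theorem IsFree.mult (hδ : IsFree δ) (R : Y →L[ℝ] Y) {ξ : ℕ →₀ ℕ} {A i : ℕ} (hA : 1 ≤ A)
    (h0 : ξ 0 = 0) (h1 : ∀ n, ξ n * 2 ^ n ≤ A) (h2 : ξ i * 2 ^ i = A) (g : ℕ × ℕ →₀ ℂ) (L : ℝ)
    (hL : 0 ≤ L) (hg : ∀ z w : ℂ, ‖z‖ ≤ 1 → ‖w‖ ≤ 1 → A * ‖d1 g z w‖ ≤ L ∧ ‖d2 g z w‖ ≤ L) :
    ‖pr g fun m => (A : ℂ) * (m.1 : ℕ) *
      coef (fr ξ m) fun y => hδ.eps (fr ξ m) (R (δ (iota y)))‖ ≤ 16 * ‖R‖ * L := by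
  have hA' : (0 : ℝ) < A := by exact_mod_cast hA
  have hi : i ≠ 0 := by
    rintro rfl
    rw [h0] at h2
    omega
  have hψ : ∀ y : Tor, ‖∑ m ∈ g.support, (conj (chi (fr ξ m) y) * g m) • hδ.eps (fr ξ m)‖ ≤
      2 * (4 * L) := by
    intro y
    refine hδ.norm_sum_eps _ _ _ (by positivity) fun s t => ?_
    have h3 : ∀ x : L1, ∑ m ∈ g.support, conj (chi (fr ξ m) y) * g m * mon (fr ξ m) (zeta x) =
        ev g (conj (chi ξ y) * mon ξ (zeta x)) (conj (y.co 0) * zeta x 0) := by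
      intro x
      rw [ev, pr_eq_sum]
      refine Finset.sum_congr rfl fun m _ => ?_
      simp only [chi, mon_fr, map_mul, map_pow, mul_pow]
      ring
    have h4 : ∀ x : L1, ‖conj (chi ξ y) * mon ξ (zeta x)‖ ≤ 1 := fun x => by
      rw [norm_mul, Complex.norm_conj, norm_chi, one_mul]
      exact norm_mon_le _ (norm_zeta_le x)
    have h5 : ∀ x : L1, ‖conj (y.co 0) * zeta x 0‖ ≤ 1 := fun x => by
      rw [norm_mul, Complex.norm_conj, norm_co, one_mul]
      exact norm_zeta_le x 0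
    simp only [h3]
    refine (ev_lip (L₁ := L / A) (L₂ := L) (fun z w hz hw => ⟨?_, (hg z w hz hw).2⟩)
      (h4 s) (h5 s) (h4 t) (h5 t)).trans ?_
    · rw [le_div_iff₀' hA']; exact (hg z w hz hw).1
    · rw [← mul_sub, ← mul_sub, norm_mul, norm_mul, Complex.norm_conj, Complex.norm_conj, norm_chi,
        norm_co, one_mul, one_mul]
      have h6 := lip_mon ξ (L := A) (fun n => by exact_mod_cast h1 n) s t
      have h7 := lip_mon (Finsupp.single 0 1) (L := 1) (fun n => by
        rw [Finsupp.single_apply]; split_ifs with h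
        · subst h; simp
        · simp) s t
      simp only [mon_single, pow_one] at h7
      calc L / A * ‖mon ξ (zeta s) - mon ξ (zeta t)‖ + L * ‖zeta s 0 - zeta t 0‖
          ≤ L / A * (2 * A * ‖s - t‖) + L * (2 * 1 * ‖s - t‖) := by gcongr
        _ = 4 * L * ‖s - t‖ := by field_simp; ring
  have h8 := deriv_bound g.support (fr ξ)
    (f := fun m y => g m * hδ.eps (fr ξ m) (R (δ (iota y))))
    (fun m => continuous_const.mul ((hδ.eps _).continuous.comp
      (R.continuous.comp hδ.continuous_W))) i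
    (k := fun _ => 2 * (4 * L) * (‖R‖ * (2 * (1 / 2) ^ i))) continuous_const
    (fun _ => by positivity) (fun t y => by
      have h9 : ∑ m ∈ g.support, conj (chi (fr ξ m) y) *
          (g m * hδ.eps (fr ξ m) (R (δ (iota (rot i t * y)))) -
            g m * hδ.eps (fr ξ m) (R (δ (iota y)))) =
          (∑ m ∈ g.support, (conj (chi (fr ξ m) y) * g m) • hδ.eps (fr ξ m))
            (R (δ (iota (rot i t * y)) - δ (iota y))) := by
        rw [_root_.sum_apply]
        refine Finset.sum_congr rfl fun m _ => ?_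
        rw [_root_.smul_apply, map_sub, map_sub, smul_eq_mul]
        ring
      rw [h9]
      have h10 := (R.le_opNorm _).trans
        (mul_le_mul_of_nonneg_left (hδ.W_rot i t y) (norm_nonneg R))
      refine (ContinuousLinearMap.le_opNorm _ _).trans
        ((mul_le_mul (hψ y) h10 (norm_nonneg _) (by positivity)).trans_eq (by ring)))
  have h11 : (pr g fun m => (A : ℂ) * (m.1 : ℕ) *
      coef (fr ξ m) fun y => hδ.eps (fr ξ m) (R (δ (iota y)))) =
      2 ^ i * ∑ m ∈ g.support, (fr ξ m i : ℂ) *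
        coef (fr ξ m) fun y => g m * hδ.eps (fr ξ m) (R (δ (iota y))) := by
    rw [pr_eq_sum, Finset.mul_sum]
    refine Finset.sum_congr rfl fun m _ => ?_
    rw [coef_const_mul, fr_apply, if_neg hi, ← h2]
    push_cast
    ring
  rw [h11, norm_mul, norm_pow, Complex.norm_two]
  simp only [integral_const, probReal_univ, smul_eq_mul, one_mul] at h8
  refine (mul_le_mul_of_nonneg_left h8 (by positivity)).trans_eq ?_
  have : (2 : ℝ) ^ i * (1 / 2) ^ i = 1 := by rw [← mul_pow]; simp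
  linear_combination (16 * ‖R‖ * L) * this

end Pool.Agent.P.MP_ce7f50_an
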