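import Mathlib
import Pool.Agent.P.MP_ce7f50_an.OneAvg

/-!
Families in an `ℓ¹`-sum whose signed sums grow like a square root have uniformly small tails.
-/

set_option autoImplicit false

open Filter Topology Finset

namespace Pool.Agent.P.MP_ce7f50_an

variable {F : ℕ → Type*} [∀ n, NormedAddCommGroup (F n)] [∀ n, NormedSpace ℝ (F n)]

variable (F) in
/-- The projection on the `n`-th summand. -/
noncomputable def proj (n : ℕ) : lp F 1 →L[ℝ] lp F 1 :=
  (lp.singleContinuousLinearMap ℝ F 1 n).comp (lp.evalCLM ℝ F 1 n)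

theorem proj_apply (n : ℕ) (y : lp F 1) : proj F n y = lp.single 1 n (y n) := rfl

theorem norm_proj (n : ℕ) (y : lp F 1) : ‖proj F n y‖ = ‖y n‖ := by
  rw [proj_apply, lp.norm_single one_pos]

theorem tendsto_head (y : lp F 1) :
    Tendsto (fun N => (∑ n ∈ range N, proj F n) y) atTop (𝓝 y) := by
  simp only [_root_.sum_apply]
  exact (lp.hasSum_single (by simp) y).tendsto_sum_nat

theorem norm_sum_proj (S : Finset ℕ) (y : lp F 1) : ‖(∑ n ∈ S, proj F n) y‖ ≤ ∑ n ∈ S, ‖y n‖ := by
  rw [_root_.sum_apply]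
  exact (norm_sum_le _ _).trans (Finset.sum_le_sum fun n _ => (norm_proj n y).le)

theorem tails {I : Type*} (x : I → lp F 1) {C : ℝ}
    (hx : ∀ (S : Finset I) (ε : I → ℝ), (∀ i, |ε i| ≤ 1) → ‖∑ i ∈ S, ε i • x i‖ ≤ C * √S.card)
    {c : ℝ} (hc : 0 < c) : ∃ N : ℕ, ∀ i, ‖x i - (∑ n ∈ range N, proj F n) (x i)‖ ≤ c := by
  classical
  by_contra hcon
  push Not at hcon
  have hind : ∀ j : ℕ, ∃ (S : Finset I) (G : StrongDual ℝ (lp F 1)) (N : ℕ) (ε : I → ℝ),
      S.card = j ∧ (∀ y, |G y| ≤ ∑ n ∈ range N, ‖y n‖) ∧ (∀ i, |ε i| ≤ 1) ∧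
      j * c ≤ G (∑ i ∈ S, ε i • x i) := by
    intro j
    induction j with
    | zero => exact ⟨∅, 0, 0, fun _ => 0, rfl, by simp, by simp, by simp⟩
    | succ j ih =>
      obtain ⟨S, G, N, ε, hS, hG, hε, hW⟩ := ih
      have h1 : ∀ᶠ N' in atTop, ∀ s ∈ S, ‖x s - (∑ n ∈ range N', proj F n) (x s)‖ ≤ c := by
        rw [eventually_all_finset]
        intro s _
        have := ((tendsto_head (x s)).const_sub (x s)).norm
        rw [sub_self, norm_zero] at this
        exact this.eventually (Iic_mem_nhds hc)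
      obtain ⟨N', hN1, hN2⟩ := (h1.and (eventually_ge_atTop N)).exists
      obtain ⟨i, hi⟩ := hcon N'
      have hiS : i ∉ S := fun h => absurd (hN1 i h) (not_le.2 hi)
      obtain ⟨N'', hN3, hN4⟩ := (((((tendsto_head (x i)).sub_const
        ((∑ n ∈ range N', proj F n) (x i))).norm).eventually (lt_mem_nhds hi)).and
        (eventually_ge_atTop N')).exists
      rw [← _root_.sub_apply, ← Finset.sum_Ico_eq_sub _ hN4] at hN3
      obtain ⟨φ, hφ1, hφ2⟩ := exists_dual_vector'' ℝ ((∑ n ∈ Ico N' N'', proj F n) (x i))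
      obtain ⟨s, hs1, hs2⟩ := sign_choice G (φ.comp (∑ n ∈ Ico N' N'', proj F n))
        (∑ i ∈ S, ε i • x i) (x i)
      refine ⟨insert i S, G + s • φ.comp (∑ n ∈ Ico N' N'', proj F n), N'', Function.update ε i s,
        by rw [Finset.card_insert_of_notMem hiS, hS], fun y => ?_, fun k => ?_, ?_⟩
      · rw [_root_.add_apply, _root_.smul_apply, smul_eq_mul, ← Finset.sum_range_add_sum_Ico _ hN4]
        refine (abs_add_le _ _).trans (add_le_add ((hG y).trans
          (Finset.sum_le_sum_of_subset_of_nonneg (Finset.range_mono hN2)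
            fun _ _ _ => norm_nonneg _)) ?_)
        rw [abs_mul, hs1, one_mul]
        exact (φ.le_opNorm _).trans ((mul_le_of_le_one_left (norm_nonneg _) hφ1).trans
          (norm_sum_proj _ y))
      · by_cases hk : k = i
        · subst hk; simp [hs1]
        · simp [Function.update_of_ne hk, hε k]
      · have h2 : ∑ k ∈ S, Function.update ε i s k • x k = ∑ k ∈ S, ε k • x k :=
          Finset.sum_congr rfl fun k hk => by
            rw [Function.update_of_ne (by rintro rfl; exact hiS hk)]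
        rw [Finset.sum_insert hiS, h2, Function.update_self, add_comm (s • x i)]
        refine le_trans ?_ hs2
        rw [ContinuousLinearMap.comp_apply, hφ2]
        simp only [RCLike.ofReal_real_eq_id, id, Nat.cast_add, Nat.cast_one]
        linarith
  obtain ⟨j, hj⟩ := exists_nat_gt ((C / c) ^ 2 + 1)
  obtain ⟨S, G, N, ε, hS, hG, hε, hW⟩ := hind j
  have h1 : G (∑ i ∈ S, ε i • x i) ≤ C * √j := by
    refine (le_abs_self _).trans ((hG _).trans (le_trans ?_ (hS ▸ hx S ε hε)))
    simpa using lp.sum_rpow_le_norm_rpow (p := 1) (by simp) (∑ i ∈ S, ε i • x i) (range N)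
  have h2 : C / c < √j := Real.lt_sqrt_of_sq_lt (by linarith)
  have h3 : (0 : ℝ) < √j := Real.sqrt_pos.2 (by nlinarith [sq_nonneg (C / c)])
  rw [div_lt_iff₀ hc] at h2
  have h4 : √j * √j = j := Real.mul_self_sqrt (by positivity)
  nlinarith

end Pool.Agent.P.MP_ce7f50_an
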