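import Mathlib
import Pool.Agent.P.MP_ce7f50_an.Main
import Pool.Agent.P.MP_ce7f50_an.OneSym
import Pool.Agent.P.MP_ce7f50_an.OneTail

/-!
The identity of the free space over `ℓ₁` does not factor through an `ℓ¹`-sum of free spaces over
finite-dimensional normed spaces.
-/

set_option autoImplicit false

open Filter Topology MeasureTheory ComplexConjugate
open scoped ENNReal

namespace Pool.Agent.P.MP_ce7f50_an

theorem exists_blocks (r K : ℕ) (hK : 0 < K) : ∃ (A : ℕ) (ξ : ℕ → Fin K → ℕ →₀ ℕ), 1 ≤ A ∧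
    (∀ a α, ξ a α 0 = 0) ∧ (∀ a n, ∑ α, ξ a α n * 2 ^ n ≤ A) ∧
    ∀ c : ℕ → Fin K, ∃ i, ∀ a < r, ξ a (c a) i * 2 ^ i = A := by
  classical
  obtain ⟨m, col, hcol⟩ : ∃ (m : ℕ) (col : ℕ → ℕ → Fin K), ∀ c : ℕ → Fin K, ∃ i, 1 ≤ i ∧ i ≤ m ∧
      ∀ a < r, col i a = c a := by
    let e := Fintype.equivFin (Fin r → Fin K)
    refine ⟨Fintype.card (Fin r → Fin K), fun i a => if h : i - 1 < Fintype.card (Fin r → Fin K) ∧
      a < r then e.symm ⟨i - 1, h.1⟩ ⟨a, h.2⟩ else ⟨0, hK⟩, fun c => ?_⟩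
    refine ⟨(e fun a => c a).1 + 1, by omega, (e fun a => c a).2, fun a ha => ?_⟩
    beta_reduce
    rw [dif_pos ⟨(e fun a => c a).2, ha⟩]
    simp
  refine ⟨2 ^ m, fun a α => Finsupp.onFinset (Finset.range (m + 1))
    (fun i => if 1 ≤ i ∧ i ≤ m ∧ col i a = α then 2 ^ (m - i) else 0) fun i hi => ?_,
    Nat.one_le_two_pow, fun a α => by simp, fun a n => ?_, fun c => ?_⟩
  · rw [Finset.mem_range]
    by_contra h
    exact hi (if_neg fun h' => h (by omega))
  · simp only [Finsupp.onFinset_apply]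
    rw [Finset.sum_eq_single (col n a)]
    · split_ifs with h
      · rw [← pow_add, Nat.sub_add_cancel h.2.1]
      · simp
    · intro α _ hα
      rw [if_neg fun h => hα h.2.2.symm, zero_mul]
    · simp
  · obtain ⟨i, h1, h2, h3⟩ := hcol c
    refine ⟨i, fun a ha => ?_⟩
    simp only [Finsupp.onFinset_apply]
    rw [if_pos ⟨h1, h2, h3 a ha⟩, ← pow_add, Nat.sub_add_cancel h2]

variable {Y : Type*} [NormedAddCommGroup Y] [NormedSpace ℝ Y] [CompleteSpace Y] {δ : L1 → Y}

theorem IsFree.bessel' (hδ : IsFree δ) {ι : Type*} (S : Finset ι) {η : ι → ℕ →₀ ℕ}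
    (hη : Set.InjOn η S) {ε : ι → ℝ} (hε : ∀ i, |ε i| ≤ 1) (n : ℕ) (b : Bool) {w : ι → ℝ}
    (hw : ∀ i ∈ S, w i = 2 ^ n * η i n) :
    ‖∑ i ∈ S, ε i • w i • vec δ b (η i)‖ ≤ 2 * √S.card := by
  have h1 : ∑ i ∈ S, ε i • w i • vec δ b (η i) =
      (2 : ℝ) ^ n • ∑ i ∈ S, ε i • (η i n : ℝ) • vec δ b (η i) := by
    rw [Finset.smul_sum]
    exact Finset.sum_congr rfl fun i hi => by
      rw [hw i hi, smul_smul, smul_smul, smul_smul]; congr 1; ring
  rw [h1, norm_smul, Real.norm_of_nonneg (by positivity)]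
  refine (mul_le_mul_of_nonneg_left (hδ.bessel S hη hε n b) (by positivity)).trans_eq ?_
  have : (2 : ℝ) ^ n * (1 / 2) ^ n = 1 := by rw [← mul_pow]; simp
  linear_combination (2 * √S.card) * this

theorem fr_le (ξ : ℕ →₀ ℕ) (m : ℕ × ℕ) (n : ℕ) :
    fr ξ m n * 2 ^ n ≤ m.1 * (ξ n * 2 ^ n) + m.2 := by
  rw [fr_apply]
  split_ifs with h
  · subst h; simp
  · rw [add_zero, mul_assoc]; omega

variable {F : ℕ → Type*} [∀ n, NormedAddCommGroup (F n)] [∀ n, NormedSpace ℝ (F n)]

theorem IsFree.exists_freq (hδ : IsFree δ) (A : Y →L[ℝ] lp F 1) (B : lp F 1 →L[ℝ] Y)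
    (hAB : ∀ y, B (A y) = y) : ∃ N : ℕ, ∀ (ξ : ℕ →₀ ℕ) (A₀ i : ℕ), 1 ≤ A₀ → ξ 0 = 0 →
    (∀ n, ξ n * 2 ^ n ≤ A₀) → ξ i * 2 ^ i = A₀ → ∀ M₀ D : ℕ, ∃ p q : ℕ, M₀ + 1 ≤ p ∧ q * D ≤ p ∧
    1 / 2 < ∑ j ∈ Finset.range N ×ˢ Finset.univ,
      part j.2 (hδ.eps (fr ξ (p, q)) (B (proj F j.1 (A (vec δ j.2 (fr ξ (p, q))))))) := by
  classical
  obtain ⟨N, hN⟩ := tails (fun j : Bool × (ℕ →₀ ℕ) => A ((j.2 0 : ℝ) • vec δ j.1 j.2))
    (C := ‖A‖ * 4) (fun S ε hε => by
      have h1 : ∀ b, ‖∑ j ∈ S.filter (fun j => j.1 = b), ε j • (j.2 0 : ℝ) • vec δ j.1 j.2‖ ≤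
          2 * √S.card := fun b => by
        rw [Finset.sum_congr rfl fun j hj => by rw [(Finset.mem_filter.1 hj).2]]
        refine (hδ.bessel' (S.filter (fun j => j.1 = b)) (η := fun j => j.2) (fun j hj k hk h =>
          Prod.ext (by
            rw [(Finset.mem_filter.1 (Finset.mem_coe.1 hj)).2,
              (Finset.mem_filter.1 (Finset.mem_coe.1 hk)).2]) h) hε 0 b
            (w := fun j => (j.2 0 : ℝ)) (fun j _ => by simp)).trans ?_
        gcongr
        exact Finset.filter_subset _ _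
      have h2 : ∑ j ∈ S, ε j • A ((j.2 0 : ℝ) • vec δ j.1 j.2) =
          A (∑ b, ∑ j ∈ S.filter (fun j => j.1 = b), ε j • (j.2 0 : ℝ) • vec δ j.1 j.2) := by
        rw [Finset.sum_fiberwise, map_sum]
        exact Finset.sum_congr rfl fun j _ => (map_smul _ _ _).symm
      rw [h2, mul_assoc]
      refine (A.le_opNorm _).trans (mul_le_mul_of_nonneg_left ?_ (norm_nonneg _))
      rw [Fintype.sum_bool]
      linarith [norm_add_le (∑ j ∈ S.filter (fun j => j.1 = true), ε j • (j.2 0 : ℝ) • vec δ j.1 j.2)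
        (∑ j ∈ S.filter (fun j => j.1 = false), ε j • (j.2 0 : ℝ) • vec δ j.1 j.2), h1 true,
        h1 false])
    (c := 1 / (256 * (‖B‖ + 1))) (by positivity)
  refine ⟨N, fun ξ A₀ i hA h0 h1 h2 M₀ D => ?_⟩
  let R : Y →L[ℝ] Y := B.comp (A - (∑ n ∈ Finset.range N, proj F n).comp A)
  have hR : ∀ y, R y = B (A y - (∑ n ∈ Finset.range N, proj F n) (A y)) := fun y => rfl
  obtain ⟨p, q, h3, h4, h5⟩ := rigid
    (σ := fun m => coef (fr ξ m) fun y => hδ.eps (fr ξ m) (R (δ (iota y)))) hA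
    (C := 16 * ‖R‖) (by positivity) (hδ.mult R hA h0 h1 h2) (fun p q => by
      have e1 := hδ.coef_eq ((hδ.eps (fr ξ (p, q))).comp R) (fr ξ (p, q))
      simp only [ContinuousLinearMap.comp_apply] at e1
      have e2 : ‖hδ.eps (fr ξ (p, q))‖ ≤ 4 * (A₀ * p + q) := hδ.norm_eps _ fun n => by
        have e3 := fr_le ξ (p, q) n
        have e4 := Nat.mul_le_mul_left p (h1 n)
        have : fr ξ (p, q) n * 2 ^ n ≤ A₀ * p + q := by
          simp only at e3; rw [mul_comm A₀]; omega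
        exact_mod_cast this
      have e5 : ∀ b, (q : ℝ) * ‖hδ.eps (fr ξ (p, q)) (R (vec δ b (fr ξ (p, q))))‖ ≤
          1 / 64 * (A₀ * p + q) := fun b => by
        have e6 := hN (b, fr ξ (p, q))
        have e7 : fr ξ (p, q) 0 = q := by simp [fr_apply, h0]
        simp only [e7] at e6
        rw [← Real.norm_of_nonneg (Nat.cast_nonneg (α := ℝ) q), ← norm_smul, ← map_smul,
          ← map_smul, hR, Real.norm_of_nonneg (Nat.cast_nonneg (α := ℝ) q)]
        have e8 := (B.le_opNorm _).trans (mul_le_mul (show ‖B‖ ≤ ‖B‖ + 1 by linarith) e6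
          (norm_nonneg _) (by positivity))
        refine (ContinuousLinearMap.le_opNorm _ _).trans
          ((mul_le_mul e2 e8 (norm_nonneg _) (by positivity)).trans_eq ?_)
        field_simp
        ring
      rw [e1]
      have e9 := norm_sub_le (hδ.eps (fr ξ (p, q)) (R (vec δ true (fr ξ (p, q)))))
        (Complex.I * hδ.eps (fr ξ (p, q)) (R (vec δ false (fr ξ (p, q)))))
      rw [norm_mul, Complex.norm_I, one_mul] at e9
      have := mul_le_mul_of_nonneg_left e9 (Nat.cast_nonneg (α := ℝ) q)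
      linarith [e5 true, e5 false]) (M₀ + 1) D
  refine ⟨p, q, h3, h4, ?_⟩
  have hi : i ≠ 0 := by
    rintro rfl
    rw [h0] at h2
    omega
  have hη : fr ξ (p, q) ≠ 0 := fun h => by
    have e1 := fr_apply ξ (p, q) i
    rw [h, if_neg hi] at e1
    have e2 : ξ i ≠ 0 := fun e => by rw [e] at h2; omega
    simp only [Finsupp.coe_zero, Pi.zero_apply, add_zero] at e1
    exact absurd e1.symm (mul_ne_zero (by omega) e2)
  have e1 := hδ.re_coef ((hδ.eps (fr ξ (p, q))).comp R) (fr ξ (p, q))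
  have e2 := hδ.re_coef (hδ.eps (fr ξ (p, q))) (fr ξ (p, q))
  rw [hδ.coef_eps hη] at e2
  simp only [ContinuousLinearMap.comp_apply] at e1
  rw [e1] at h5
  simp only [hR, map_sub, hAB, _root_.sum_apply, map_sum, Finset.sum_sub_distrib] at h5
  rw [Finset.sum_product_right]
  rw [← e2, Complex.one_re] at h5
  linarith

theorem not_factor_one (hδ : IsFree δ)
    {E : ℕ → Type*} [∀ n, NormedAddCommGroup (E n)] [∀ n, NormedSpace ℝ (E n)]
    [∀ n, FiniteDimensional ℝ (E n)] [∀ n, CompleteSpace (F n)] {δ' : ∀ n, E n → F n}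
    (hδ' : ∀ n, IsFree (δ' n))
    (A : Y →L[ℝ] lp F 1) (B : lp F 1 →L[ℝ] Y) (hAB : ∀ y, B (A y) = y) : False := by
  classical
  obtain ⟨N, hN⟩ := hδ.exists_freq A B hAB
  set C : ℝ := 8 * ‖B‖ + 2 * ‖A‖ + 1 with hC
  have hC1 : 1 ≤ C := by linarith [norm_nonneg A, norm_nonneg B]
  set c : ℝ := 1 / (4 * (N + 1)) with hc
  have hc0 : 0 < c := by positivity
  obtain ⟨s, hs⟩ := exists_nat_gt (4 * N * ((2 + C * 3) * C + C) / c + 1)
  have hs0 : 0 ≤ 4 * N * ((2 + C * 3) * C + C) / c := by positivity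
  have hs1 : 1 ≤ s := by exact_mod_cast (by linarith : (1 : ℝ) ≤ s)
  have hr : 1 ≤ s * s := Nat.mul_pos hs1 hs1
  have hK := fun n => (hδ' n).avgDP hC1 (κ := c / (8 * (N + 1))) (by positivity) hr
  choose K₀ hK₀ using hK
  obtain ⟨K, hK2, hKK⟩ : ∃ K : ℕ, 2 ≤ K ∧ ∀ n < N, K₀ n ≤ K :=
    ⟨2 + ∑ n ∈ Finset.range N, K₀ n, by omega, fun n hn => by
      have := Finset.single_le_sum (f := K₀) (fun _ _ => Nat.zero_le _) (Finset.mem_range.2 hn)
      omega⟩
  have hK0 : (0 : ℝ) < K := by exact_mod_cast (by omega : 0 < K)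
  obtain ⟨A₀, ξ, hA, h0, h1, h2⟩ := exists_blocks (s * s) K (by omega)
  have hA0 : (0 : ℝ) < A₀ := by exact_mod_cast hA
  have h1' : ∀ a α n, ξ a α n * 2 ^ n ≤ A₀ := fun a α n =>
    (Finset.single_le_sum (f := fun α => ξ a α n * 2 ^ n) (fun _ _ => Nat.zero_le _)
      (Finset.mem_univ α)).trans (h1 a n)
  have hne : ∀ a α i, ξ a α i * 2 ^ i = A₀ → i ≠ 0 := by
    rintro a α i h rfl
    rw [h0] at h
    omega
  have h3 : ∀ a α k, ∃ m : ℕ × ℕ, k + 1 ≤ m.1 ∧ m.2 * K ≤ m.1 ∧ (a < s * s →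
      1 / 2 < ∑ j ∈ Finset.range N ×ˢ Finset.univ,
        part j.2 (hδ.eps (fr (ξ a α) m) (B (proj F j.1 (A (vec δ j.2 (fr (ξ a α) m))))))) := by
    intro a α k
    by_cases ha : a < s * s
    · obtain ⟨i, hi⟩ := h2 fun _ => α
      obtain ⟨p, q, e1, e2, e3⟩ := hN (ξ a α) A₀ i hA (h0 a α) (h1' a α) (hi a ha) k K
      exact ⟨(p, q), e1, e2, fun _ => e3⟩
    · exact ⟨(k + 1, 0), le_rfl, by simp, fun h => absurd h ha⟩
  choose m hm1 hm2 hm3 using h3
  have hp : ∀ a α k, (0 : ℝ) < (m a α k).1 := fun a α k => by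
    exact_mod_cast lt_of_lt_of_le (Nat.succ_pos k) (hm1 a α k)
  have h4 : ∀ a α, ∃ j ∈ Finset.range N ×ˢ (Finset.univ : Finset Bool), a < s * s → ∃ᶠ k in atTop,
      c ≤ part j.2 (hδ.eps (fr (ξ a α) (m a α k))
        (B (proj F j.1 (A (vec δ j.2 (fr (ξ a α) (m a α k))))))) := by
    have key : ∀ a α, a < s * s → ∃ j ∈ Finset.range N ×ˢ (Finset.univ : Finset Bool),
        ∃ᶠ k in atTop, c ≤ part j.2 (hδ.eps (fr (ξ a α) (m a α k))
          (B (proj F j.1 (A (vec δ j.2 (fr (ξ a α) (m a α k))))))) := by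
      intro a α ha
      by_contra hcon
      push Not at hcon
      obtain ⟨k, hk⟩ := ((eventually_all_finset _).2 hcon).exists
      have e1 := (hm3 a α k ha).trans_le (Finset.sum_le_card_nsmul _ _ c fun j hj => (hk j hj).le)
      simp only [Finset.card_product, Finset.card_range, Finset.card_univ, Fintype.card_bool,
        nsmul_eq_mul, hc] at e1
      push_cast at e1
      rw [mul_one_div, lt_div_iff₀ (by positivity)] at e1
      linarith
    intro a α
    by_cases ha : a < s * s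
    · obtain ⟨j, e1, e2⟩ := key a α ha
      exact ⟨j, e1, fun _ => e2⟩
    · obtain ⟨j, e1, -⟩ := key 0 α hr
      exact ⟨j, e1, fun h => absurd h ha⟩
  choose j hj1 hj2 using h4
  -- the functionals
  have hS1 : ∀ a (k : Fin K → ℕ) (ε : Fin K → ℝ), (∀ α, |ε α| ≤ 1) →
      ‖∑ α, ((ε α / (A₀ * (m a α (k α)).1) : ℝ) : ℂ) • hδ.eps (fr (ξ a α) (m a α (k α)))‖ ≤
        2 * (2 * 2) := by
    intro a k ε hε
    refine hδ.norm_sum_eps _ _ _ (by norm_num) (lip_comb _ _ _ fun n => ?_)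
    calc ∑ α, ‖((ε α / (A₀ * (m a α (k α)).1) : ℝ) : ℂ)‖ * (fr (ξ a α) (m a α (k α)) n * 2 ^ n)
        ≤ ∑ α, (((ξ a α n * 2 ^ n : ℕ) : ℝ) / A₀ + 1 / K) := by
          refine Finset.sum_le_sum fun α _ => ?_
          have e1 : ((fr (ξ a α) (m a α (k α)) n : ℝ) * 2 ^ n) ≤
              (m a α (k α)).1 * ((ξ a α n * 2 ^ n : ℕ) : ℝ) + (m a α (k α)).2 := by
            exact_mod_cast fr_le (ξ a α) (m a α (k α)) n
          have e2 : ((m a α (k α)).2 : ℝ) * K ≤ (m a α (k α)).1 := by exact_mod_cast hm2 a α (k α)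
          have e3 := hp a α (k α)
          have e4 : ‖((ε α / (A₀ * (m a α (k α)).1) : ℝ) : ℂ)‖ ≤ 1 / (A₀ * (m a α (k α)).1) := by
            rw [Complex.norm_real, Real.norm_eq_abs, abs_div, abs_of_pos (mul_pos hA0 e3)]
            gcongr
            exact hε α
          refine (mul_le_mul e4 e1 (by positivity) (by positivity)).trans ?_
          rw [mul_add]
          refine add_le_add (le_of_eq (by field_simp)) ?_
          rw [one_div_mul_eq_div, div_le_div_iff₀ (by positivity) hK0, one_mul]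
          have : (1 : ℝ) ≤ A₀ := by exact_mod_cast hA
          nlinarith
      _ ≤ 2 := by
          rw [Finset.sum_add_distrib, ← Finset.sum_div, ← Nat.cast_sum]
          have e1 : ((∑ α, ξ a α n * 2 ^ n : ℕ) : ℝ) / A₀ ≤ 1 :=
            (div_le_one hA0).2 (by exact_mod_cast h1 a n)
          simp only [Finset.sum_const, Finset.card_univ, Fintype.card_fin, nsmul_eq_mul]
          rw [mul_one_div_cancel hK0.ne']
          linarith
  let Φ : Bool → ℕ → Fin K → ℕ → StrongDual ℝ Y := fun b a α k =>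
    (1 / (A₀ * (m a α k).1) : ℝ) • (part b).comp (hδ.eps (fr (ξ a α) (m a α k)))
  have hΦ0 : ∀ b a α k y, Φ b a α k y =
      1 / (A₀ * (m a α k).1) * part b (hδ.eps (fr (ξ a α) (m a α k)) y) := fun b a α k y => rfl
  have hΦ1 : ∀ b a (k : Fin K → ℕ) (ε : Fin K → ℝ), (∀ α, |ε α| ≤ 1) → ∀ y,
      |∑ α, ε α * Φ b a α (k α) y| ≤ 8 * ‖y‖ := by
    intro b a k ε hε y
    have e1 : ∑ α, ε α * Φ b a α (k α) y = part b ((∑ α, ((ε α / (A₀ * (m a α (k α)).1) : ℝ) : ℂ) •
        hδ.eps (fr (ξ a α) (m a α (k α)))) y) := by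
      rw [_root_.sum_apply, map_sum]
      refine Finset.sum_congr rfl fun α _ => ?_
      rw [hΦ0, _root_.smul_apply, Complex.coe_smul, map_smul, smul_eq_mul]
      ring
    rw [e1]
    refine (abs_part_le _ _).trans ((ContinuousLinearMap.le_opNorm _ _).trans ?_)
    exact mul_le_mul_of_nonneg_right ((hS1 a k ε hε).trans_eq (by norm_num)) (norm_nonneg _)
  have hΦ2 : ∀ b a α y, Tendsto (fun k => Φ b a α k y) atTop (𝓝 0) := by
    intro b a α y
    rw [Metric.tendsto_nhds]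
    intro e he
    obtain ⟨R, r, -, hr0, h5⟩ := hδ.approx y (ε := e / 2) (by positivity) (L := 8) (by norm_num)
    obtain ⟨k₀, hk₀⟩ := exists_nat_gt (2 / r)
    filter_upwards [eventually_ge_atTop k₀] with k hk
    rw [dist_zero_right]
    refine lt_of_le_of_lt (h5 _ ((Φ b a α k).opNorm_le_bound (by norm_num) fun z => ?_)
      fun t _ => ?_) (by linarith)
    · have := hΦ1 b a (fun _ => k) (fun β => if β = α then 1 else 0)
        (fun β => by split_ifs <;> simp) z
      simpa using this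
    · rw [hΦ0, abs_mul, abs_of_pos (one_div_pos.2 (mul_pos hA0 (hp a α k)))]
      have e1 : |part b (hδ.eps (fr (ξ a α) (m a α k)) (δ t))| ≤ 2 := by
        refine (abs_part_le _ _).trans ?_
        rw [hδ.eps_apply]
        linarith [norm_sub_le (mon (fr (ξ a α) (m a α k)) (zeta t))
          (mon (fr (ξ a α) (m a α k)) (zeta 0)), norm_mon_le (fr (ξ a α) (m a α k)) (norm_zeta_le t),
          norm_mon_le (fr (ξ a α) (m a α k)) (norm_zeta_le 0)]
      have e2 : (k₀ : ℝ) ≤ (m a α k).1 := by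
        have := hm1 a α k
        exact_mod_cast (by omega : k₀ ≤ (m a α k).1)
      have e3 : (1 : ℝ) ≤ A₀ := by exact_mod_cast hA
      rw [one_div_mul_eq_div, div_le_iff₀ (mul_pos hA0 (hp a α k))]
      rw [div_lt_iff₀ hr0] at hk₀
      have e4 : ((m a α k).1 : ℝ) ≤ A₀ * (m a α k).1 := le_mul_of_one_le_left (hp a α k).le e3
      nlinarith
  -- the vectors
  have hw : ∀ a α k i, ξ a α i * 2 ^ i = A₀ →
      (A₀ * (m a α k).1 : ℝ) = 2 ^ i * fr (ξ a α) (m a α k) i := fun a α k i h => by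
    rw [fr_apply, if_neg (hne a α i h), ← h]
    push_cast
    ring
  have hev : ∀ n (y : Y), ‖lp.evalCLM ℝ F 1 n (A y)‖ ≤ ‖A‖ * ‖y‖ := fun n y =>
    (lp.norm_apply_le_norm one_ne_zero (A y) n).trans (A.le_opNorm y)
  have h6 : ∀ j₀ ∈ Finset.range N ×ˢ (Finset.univ : Finset Bool),
      ∑ a ∈ Finset.range (s * s), ∑ α, (if j a α = j₀ then c else 0) ≤
        K * ((2 + C * 3) * (C * s) + C + (s * s : ℕ) * (c / (8 * (N + 1)))) := by
    rintro ⟨n, b⟩ hj₀
    refine hK₀ n K (hKK n (by simpa using hj₀))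
      (fun a α k => lp.evalCLM ℝ F 1 n (A ((A₀ * (m a α k).1 : ℝ) •
        vec δ b (fr (ξ a α) (m a α k)))))
      (fun a α k => if j a α = (n, b) then
        (Φ b a α k).comp (B.comp (lp.singleContinuousLinearMap ℝ F 1 n)) else 0) _ _
      (fun a ha α k => ?_) (fun a _ k ε hε => ?_) (fun a _ α y => ?_) (fun a ha α => ?_)
      (fun nn k ε hε => ?_)
    · obtain ⟨i, hi⟩ := h2 fun _ => α
      have e1 := hδ.bessel' {()} (η := fun _ => fr (ξ a α) (m a α k)) (by simp) (ε := fun _ => 1)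
        (by simp) i b (w := fun _ => A₀ * (m a α k).1) fun _ _ => hw a α k i (hi a ha)
      simp only [Finset.sum_singleton, one_smul, Finset.card_singleton, Nat.cast_one,
        Real.sqrt_one, mul_one] at e1
      refine (hev n _).trans ((mul_le_mul_of_nonneg_left e1 (norm_nonneg _)).trans ?_)
      linarith [norm_nonneg B]
    · refine ContinuousLinearMap.opNorm_le_bound _ (by linarith) fun y => ?_
      have e1 := hΦ1 b a k (fun α => if j a α = (n, b) then ε α else 0)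
        (fun α => by split_ifs <;> simp [hε]) (B (lp.single 1 n y))
      have e2 : ‖B (lp.single 1 n y)‖ ≤ ‖B‖ * ‖y‖ := by
        simpa [lp.norm_single one_pos] using B.le_opNorm (lp.single 1 n y)
      rw [_root_.sum_apply]
      refine le_trans (le_of_eq ?_) (e1.trans ?_)
      · rw [Real.norm_eq_abs]
        congr 1
        refine Finset.sum_congr rfl fun α _ => ?_
        split_ifs
        · rfl
        · simp
      · nlinarith [norm_nonneg A, norm_nonneg y]
    · split_ifs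
      · exact hΦ2 b a α _
      · exact tendsto_const_nhds
    · split_ifs with h
      · refine (hj2 a α ha).mono fun k hk => ?_
        rw [h] at hk
        refine hk.trans_eq ?_
        have e1 := (mul_pos hA0 (hp a α k)).ne'
        simp only [ContinuousLinearMap.comp_apply, map_smul, hΦ0, smul_eq_mul]
        rw [← mul_assoc, mul_one_div_cancel e1, one_mul]
        rfl
      · exact Frequently.of_forall fun k => le_rfl
    · obtain ⟨i, hi⟩ := h2 nn
      have e1 := hδ.bessel' (Finset.range (s * s))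
        (η := fun a => fr (ξ a (nn a)) (m a (nn a) (k a))) (fun a ha a' ha' h => ?_) hε i b
        (w := fun a => A₀ * (m a (nn a) (k a)).1)
        fun a ha => hw a _ _ i (hi a (Finset.mem_range.1 ha))
      · have e2 : ∑ a ∈ Finset.range (s * s), ε a • lp.evalCLM ℝ F 1 n
            (A ((A₀ * (m a (nn a) (k a)).1 : ℝ) • vec δ b (fr (ξ a (nn a)) (m a (nn a) (k a))))) =
            lp.evalCLM ℝ F 1 n (A (∑ a ∈ Finset.range (s * s), ε a •
              (A₀ * (m a (nn a) (k a)).1 : ℝ) • vec δ b (fr (ξ a (nn a)) (m a (nn a) (k a))))) := by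
          rw [map_sum, map_sum]
          exact Finset.sum_congr rfl fun a _ => by rw [map_smul A (ε a), map_smul _ (ε a)]
        rw [e2]
        rw [Finset.card_range, Nat.cast_mul, Real.sqrt_mul_self (Nat.cast_nonneg s)] at e1
        refine (hev n _).trans ((mul_le_mul_of_nonneg_left e1 (norm_nonneg _)).trans ?_)
        nlinarith [norm_nonneg B, Nat.cast_nonneg (α := ℝ) s]
      · by_contra haa
        have : Nontrivial (Fin K) := Fin.nontrivial_iff_two_le.2 hK2
        obtain ⟨β, hβ⟩ := exists_ne (nn a')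
        obtain ⟨i', hi'⟩ := h2 (Function.update (fun _ => nn a) a' β)
        have e2 := hi' a (by simpa using ha)
        have e3 := hi' a' (by simpa using ha')
        rw [Function.update_of_ne haa] at e2
        rw [Function.update_self] at e3
        have e4 := Finset.add_le_sum (f := fun α => ξ a' α i' * 2 ^ i') (fun _ _ => Nat.zero_le _)
          (Finset.mem_univ β) (Finset.mem_univ (nn a')) hβ
        have e5 := h1 a' i'
        have e6 : ξ a' (nn a') i' * 2 ^ i' = 0 := by omega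
        have e7 := hw a (nn a) (k a) i' e2
        simp only at h
        rw [h, fr_apply, if_neg (hne _ _ _ e2), (mul_eq_zero.1 e6).resolve_right (by positivity)]
          at e7
        simp [hA0.ne', (hp a (nn a) (k a)).ne'] at e7
  have h7 := Finset.sum_le_card_nsmul _ _ _ h6
  rw [Finset.sum_comm] at h7
  simp only [Finset.sum_comm (s := Finset.range N ×ˢ (Finset.univ : Finset Bool)),
    Finset.sum_ite_eq, hj1, if_true, Finset.sum_const, Finset.card_univ, Fintype.card_fin,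
    Finset.card_range, nsmul_eq_mul, Finset.card_product, Fintype.card_bool] at h7
  push_cast at h7
  have h8 : (s : ℝ) * s * c ≤ N * 2 * ((2 + C * 3) * (C * s) + C + s * s * (c / (8 * (N + 1)))) := by
    refine le_of_mul_le_mul_left ?_ hK0
    linarith
  have h9 : (N : ℝ) * 2 * (s * s * (c / (8 * (N + 1)))) ≤ s * s * c / 4 := by
    have : (N : ℝ) * 2 * (s * s * (c / (8 * (N + 1)))) = s * s * c / 4 * (N / (N + 1)) := by
      field_simp; ring
    rw [this]
    exact mul_le_of_le_one_right (by positivity) ((div_le_one (by positivity)).2 (by linarith))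
  have h10 : 4 * N * ((2 + C * 3) * C + C) ≤ s * c := by
    rw [← div_le_iff₀ hc0]; linarith
  have h11 : (1 : ℝ) ≤ s := by exact_mod_cast hs1
  have h12 : (N : ℝ) * C ≤ N * C * s := le_mul_of_one_le_right (by positivity) h11
  have h13 := mul_le_mul_of_nonneg_right h10 (Nat.cast_nonneg (α := ℝ) s)
  have h14 : 0 < (s : ℝ) * s * c := by positivity
  nlinarith

theorem not_factor_all {p : ℝ≥0∞} [Fact (1 ≤ p)] (hp : p ≠ ∞)
    {δ : lp (fun _ : ℕ => ℝ) p → Y} (hδ : IsFree δ)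
    {E : ℕ → Type*} [∀ n, NormedAddCommGroup (E n)] [∀ n, NormedSpace ℝ (E n)]
    [∀ n, FiniteDimensional ℝ (E n)] [∀ n, CompleteSpace (F n)] {δ' : ∀ n, E n → F n}
    (hδ' : ∀ n, IsFree (δ' n))
    (A : Y →L[ℝ] lp F 1) (B : lp F 1 →L[ℝ] Y) (hAB : ∀ y, B (A y) = y) : False := by
  rcases (Fact.out : 1 ≤ p).eq_or_lt with rfl | h
  · exact not_factor_one hδ hδ' A B hAB
  · exact not_factor h hp hδ hδ' A B hAB

end Pool.Agent.P.MP_ce7f50_an
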